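import Pool.Agent.Lib.Kahler.Calc
import Pool.Agent.Lib.Kahler.Dist

namespace Pool.Agent.P.MP_164ed8_gt

open Set Filter Topology Complex Matrix Pool.Agent.Lib.Kahler
open scoped ComplexOrder ContDiff

variable {n : ℕ}

/-- product of strips -/
def XS (n : ℕ) : Set (Fin n → ℂ) := {z | ∀ j, (z j).im ∈ Ioo 0 Real.pi}

/-- conformal factor -/
noncomputable def rho (c y : ℝ) : ℝ := (Real.sin y ^ 2)⁻¹ + c

/-- product metric -/
noncomputable def gS (c : ℝ) (z : Fin n → ℂ) : Matrix (Fin n) (Fin n) ℂ :=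
  Matrix.diagonal fun j => (rho c (z j).im : ℂ)

lemma isOpen_XS : IsOpen (XS n) := by
  have : XS n = ⋂ j, (fun z : Fin n → ℂ => (z j).im) ⁻¹' Ioo 0 Real.pi := by ext; simp [XS]
  rw [this]
  exact isOpen_iInter_of_finite fun j => isOpen_Ioo.preimage (by fun_prop)

lemma convex_XS : Convex ℝ (XS n) := by
  intro x hx y hy a b ha hb hab j
  simpa using convex_Ioo (0 : ℝ) Real.pi (hx j) (hy j) ha hb hab

lemma mem_XS : (fun _ => I : Fin n → ℂ) ∈ XS n := fun _ => by
  simpa using (by linarith [Real.pi_gt_three] : (1 : ℝ) < Real.pi)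

lemma not_isCompact_XS (hn : 1 ≤ n) : ¬ IsCompact (XS n) := by
  intro h
  have := IsClopen.eq_univ ⟨h.isClosed, isOpen_XS⟩ ⟨_, mem_XS⟩
  have h0 : (0 : Fin n → ℂ) ∈ XS n := this ▸ mem_univ _
  simpa using (h0 ⟨0, hn⟩).1

lemma sin_pos' {y : ℝ} (hy : y ∈ Ioo 0 Real.pi) : 0 < Real.sin y :=
  Real.sin_pos_of_pos_of_lt_pi hy.1 hy.2

lemma one_le_rho {c y : ℝ} (hc : 0 ≤ c) (hy : y ∈ Ioo 0 Real.pi) : 1 ≤ rho c y := by
  have h := sin_pos' hy
  have : 1 ≤ (Real.sin y ^ 2)⁻¹ := (one_le_inv₀ (by positivity)).2 (Real.sin_sq_le_one y)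
  unfold rho; linarith

lemma rho_pos {c y : ℝ} (hc : 0 ≤ c) (hy : y ∈ Ioo 0 Real.pi) : 0 < rho c y :=
  one_pos.trans_le (one_le_rho hc hy)

lemma contDiffAt_rho (c : ℝ) {y : ℝ} (hy : y ∈ Ioo 0 Real.pi) : ContDiffAt ℝ ∞ (rho c) y :=
  ((Real.contDiff_sin.contDiffAt.pow 2).inv (pow_ne_zero 2 (sin_pos' hy).ne')).add contDiffAt_const

lemma hasFDerivAt_im {F : ℝ → ℝ} {F' : ℝ} {w : ℂ} (h : HasDerivAt F F' w.im) :
    HasFDerivAt (fun w : ℂ => F w.im) (F' • imCLM) w :=
  h.comp_hasFDerivAt w imCLM.hasFDerivAt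

lemma hasFDerivAt_im' {F : ℝ → ℝ} {F' : ℝ} {z : Fin n → ℂ} {k : Fin n}
    (h : HasDerivAt F F' (z k).im) : HasFDerivAt (fun w : Fin n → ℂ => F (w k).im)
      ((F' • imCLM).comp (ContinuousLinearMap.proj (R := ℝ) (φ := fun _ : Fin n => ℂ) k)) z :=
  HasFDerivAt.comp (g := fun w : ℂ => F w.im) (f := fun w : Fin n → ℂ => w k) z
    (hasFDerivAt_im h) (hasFDerivAt_apply k z)

lemma dz_im {F : ℝ → ℝ} {F' : ℝ} {z : Fin n → ℂ} {k : Fin n} (h : HasDerivAt F F' (z k).im)
    (j : Fin n) : dz j (fun w => (F (w k).im : ℂ)) z = if j = k then -I * F' / 2 else 0 := by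
  rw [dz_of (f := fun w => (F (w k).im : ℂ)) (ofRealCLM.hasFDerivAt.comp z (hasFDerivAt_im' h))]
  by_cases e : j = k
  · subst e; simp
  · simp [e, Ne.symm e]

lemma normSq_gS (c : ℝ) (z v : Fin n → ℂ) :
    normSq (gS c) z v = ∑ j, rho c (z j).im * ‖v j‖ ^ 2 := by
  rw [Lib.Kahler.normSq, re_sum]
  refine Finset.sum_congr rfl fun j _ => ?_
  rw [Finset.sum_eq_single j]
  · rw [gS, diagonal_apply_eq, mul_assoc, mul_conj', ← ofReal_pow, ← ofReal_mul, ofReal_re]
  · intro b _ hb; simp [gS, hb.symm]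
  · simp

lemma le_normSq {c : ℝ} (hc : 0 ≤ c) {z : Fin n → ℂ} (hz : z ∈ XS n) (v : Fin n → ℂ) (j : Fin n) :
    rho c (z j).im * ‖v j‖ ^ 2 ≤ normSq (gS c) z v := by
  rw [normSq_gS]
  exact Finset.single_le_sum (f := fun j => rho c (z j).im * ‖v j‖ ^ 2)
    (fun k _ => mul_nonneg (rho_pos hc (hz k)).le (sq_nonneg _)) (Finset.mem_univ j)

lemma posDef_gS {c : ℝ} (hc : 0 ≤ c) {z : Fin n → ℂ} (hz : z ∈ XS n) : (gS c z).PosDef :=
  posDef_diagonal_iff.2 fun j => by exact_mod_cast rho_pos hc (hz j)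

lemma contDiffAt_im (z : Fin n → ℂ) (k : Fin n) :
    ContDiffAt ℝ ∞ (fun w : Fin n → ℂ => (w k).im) z :=
  imCLM.contDiff.contDiffAt.comp z (contDiffAt_apply ℝ ℂ k z)

lemma contDiffOn_gS (c : ℝ) (j k : Fin n) : ContDiffOn ℝ ∞ (fun z => gS c z j k) (XS n) := by
  intro z hz
  by_cases e : j = k
  · subst e
    simp only [gS, diagonal_apply_eq]
    exact (ofRealCLM.contDiff.contDiffAt.comp z
      ((contDiffAt_rho c (hz j)).comp z (contDiffAt_im z j))).contDiffWithinAt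
  · simp only [gS, diagonal_apply_ne _ e]
    exact contDiffWithinAt_const

lemma isKahler_gS {c : ℝ} (hc : 0 ≤ c) : IsKahler (XS n) (gS c) := by
  refine ⟨contDiffOn_gS c, fun z hz => posDef_gS hc hz, fun z hz j k l => ?_⟩
  have key : ∀ j l : Fin n, dz l (fun w => gS c w j k) z =
      if j = k ∧ l = k then -I * deriv (rho c) (z k).im / 2 else 0 := by
    intro j l
    by_cases e : j = k
    · subst e
      simp only [gS, diagonal_apply_eq, true_and]
      exact dz_im ((contDiffAt_rho c (hz j)).differentiableAt (by simp)).hasDerivAt l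
    · simp [gS, dz_const, e]
  rw [key, key]
  simp only [and_comm]

lemma det_gS (c : ℝ) (z : Fin n → ℂ) : (gS c z).det.re = ∏ j, rho c (z j).im := by
  rw [gS, det_diagonal, ← ofReal_prod, ofReal_re]

/-- first logarithmic derivative -/
noncomputable def l1 (c y : ℝ) : ℝ :=
  2 * c * Real.sin y * Real.cos y / (1 + c * Real.sin y ^ 2) - 2 * Real.cos y / Real.sin y

/-- second logarithmic derivative -/
noncomputable def l2 (c y : ℝ) : ℝ :=
  (2 * c * (1 - 2 * Real.sin y ^ 2) * (1 + c * Real.sin y ^ 2) -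
    (2 * c * Real.sin y * Real.cos y) ^ 2) / (1 + c * Real.sin y ^ 2) ^ 2 + 2 / Real.sin y ^ 2

lemma hasDerivAt_log_rho {c y : ℝ} (hc : 0 ≤ c) (hy : y ∈ Ioo 0 Real.pi) :
    HasDerivAt (fun y => Real.log (rho c y)) (l1 c y) y := by
  have hs := (sin_pos' hy).ne'
  have := ((((Real.hasDerivAt_sin y).fun_pow 2).fun_inv (pow_ne_zero 2 hs)).add_const c).log
    (rho_pos hc hy).ne'
  refine (show HasDerivAt (fun y => Real.log (rho c y)) _ y from this).congr_deriv ?_
  have h2 : 1 + c * Real.sin y ^ 2 ≠ 0 := by positivity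
  have h3 : 1 + Real.sin y ^ 2 * c ≠ 0 := by positivity
  unfold l1
  norm_num
  field_simp
  ring

lemma hasDerivAt_l1 {c y : ℝ} (hc : 0 ≤ c) (hy : y ∈ Ioo 0 Real.pi) :
    HasDerivAt (l1 c) (l2 c y) y := by
  have hs := (sin_pos' hy).ne'
  have h2 : 1 + c * Real.sin y ^ 2 ≠ 0 := by positivity
  have := ((((Real.hasDerivAt_sin y).const_mul (2 * c)).fun_mul (Real.hasDerivAt_cos y)).fun_div
    ((((Real.hasDerivAt_sin y).fun_pow 2).const_mul c).const_add 1) h2).fun_sub
    (((Real.hasDerivAt_cos y).const_mul 2).fun_div (Real.hasDerivAt_sin y) hs)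
  refine (show HasDerivAt (l1 c) _ y from this).congr_deriv ?_
  have h3 := Real.sin_sq_add_cos_sq y
  unfold l2
  simp only [Nat.cast_ofNat, Nat.add_one_sub_one, pow_one]
  linear_combination (2 * c * (1 + c * Real.sin y ^ 2) / (1 + c * Real.sin y ^ 2) ^ 2 +
    2 / Real.sin y ^ 2) * h3

lemma ricci_gS {c : ℝ} (hc : 0 ≤ c) {z : Fin n → ℂ} (hz : z ∈ XS n) (v : Fin n → ℂ) :
    ricci (gS c) z v = ∑ j, -(l2 c (z j).im / 2) * ‖v j‖ ^ 2 := by
  have e1 : ∀ k, (dzbar k fun w => (Real.log (gS c w).det.re : ℂ)) =ᶠ[𝓝 z]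
      fun w => (I / 2) * (l1 c (w k).im : ℂ) := by
    intro k
    filter_upwards [isOpen_XS.mem_nhds hz] with w hw
    have : (fun w => (Real.log (gS c w).det.re : ℂ)) =ᶠ[𝓝 w]
        fun w => ((∑ j, Real.log (rho c (w j).im) : ℝ) : ℂ) := by
      filter_upwards [isOpen_XS.mem_nhds hw] with y hy
      rw [det_gS, Real.log_prod fun j _ => (rho_pos hc (hy j)).ne']
    have h2 := ofRealCLM.hasFDerivAt.comp w (HasFDerivAt.fun_sum (u := Finset.univ)
      fun j _ => hasFDerivAt_im' (hasDerivAt_log_rho hc (hw j)))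
    rw [dzbar_congr this, dzbar_of (f := fun w => ((∑ j, Real.log (rho c (w j).im) : ℝ) : ℂ)) h2]
    simp only [ContinuousLinearMap.comp_apply, _root_.sum_apply, _root_.smul_apply,
      ContinuousLinearMap.proj_apply,
      imCLM_apply, smul_eq_mul, ofRealCLM_apply]
    rw [Finset.sum_eq_single k (by intro b _ hb; simp [hb]) (by simp),
      Finset.sum_eq_single k (by intro b _ hb; simp [hb]) (by simp)]
    simp
    ring
  have e2 : ∀ j k, dz j (dzbar k fun w => (Real.log (gS c w).det.re : ℂ)) z =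
      if j = k then (l2 c (z k).im / 4 : ℝ) else 0 := by
    intro j k
    have hd := hasDerivAt_l1 hc (hz k)
    have hd2 : DifferentiableAt ℝ (fun w : Fin n → ℂ => (l1 c (w k).im : ℂ)) z :=
      (ofRealCLM.hasFDerivAt.comp z (hasFDerivAt_im' hd)).differentiableAt
    rw [dz_congr (e1 k), dz_mul (differentiableAt_const _) hd2, dz_const, dz_im hd]
    by_cases e : j = k
    · simp only [e, if_true]
      push_cast
      linear_combination (-(l2 c (z k).im : ℂ) / 4) * I_mul_I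
    · simp [e]
  simp only [ricci, e2, re_sum, Finset.mul_sum]
  refine Finset.sum_congr rfl fun j _ => ?_
  rw [Finset.sum_eq_single j (by intro b _ hb; simp [hb.symm]) (by simp)]
  rw [if_pos rfl, mul_assoc, mul_conj', ← ofReal_pow, ← ofReal_mul, ofReal_re]
  ring

lemma ricci_zero {z : Fin n → ℂ} (hz : z ∈ XS n) (v : Fin n → ℂ) :
    ricci (gS 0) z v = - normSq (gS 0) z v := by
  rw [ricci_gS le_rfl hz, normSq_gS, ← Finset.sum_neg_distrib]
  refine Finset.sum_congr rfl fun j _ => ?_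
  simp only [l2, rho]
  ring

lemma ricci_ge {c : ℝ} (hc : 0 ≤ c) {z : Fin n → ℂ} (hz : z ∈ XS n) (v : Fin n → ℂ) :
    - normSq (gS c) z v ≤ ricci (gS c) z v := by
  rw [ricci_gS hc hz, normSq_gS, ← Finset.sum_neg_distrib]
  refine Finset.sum_le_sum fun j _ => ?_
  rw [← neg_mul]
  refine mul_le_mul_of_nonneg_right (neg_le_neg ?_) (sq_nonneg _)
  set s := Real.sin (z j).im
  have h2 : 0 < 1 + c * s ^ 2 := by positivity
  have : (2 * c * (1 - 2 * s ^ 2) * (1 + c * s ^ 2) -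
      (2 * c * s * Real.cos (z j).im) ^ 2) / (1 + c * s ^ 2) ^ 2 ≤ 2 * c := by
    rw [div_le_iff₀ (by positivity)]
    have h3 : 0 ≤ 2 * c * (1 + c * s ^ 2) * ((c + 2) * s ^ 2) := by positivity
    nlinarith [sq_nonneg (2 * c * s * Real.cos (z j).im)]
  simp only [l2, rho, div_eq_mul_inv] at this ⊢
  linarith

lemma complete_gS {c : ℝ} (hc : 0 ≤ c) : IsCompleteMetric (XS n) (gS c) := by
  have key : ∀ j p q, ENNReal.ofReal |Real.log (Real.sin (q j).im) - Real.log (Real.sin (p j).im)| ≤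
      rdist (XS n) (gS c) p q := by
    intro j p q
    refine le_rdist isOpen_XS (f := fun z => Real.log (Real.sin (z j).im)) (fun z hz => ?_)
      (fun z hz v => ?_) p q
    · exact (((Real.contDiff_sin.contDiffAt.comp z (contDiffAt_im z j)).log
        (sin_pos' (hz j)).ne').of_le (by simp)).contDiffWithinAt
    · have hs := sin_pos' (hz j)
      rw [(hasFDerivAt_im' ((Real.hasDerivAt_sin (z j).im).log hs.ne')).fderiv]
      refine le_trans ?_ (le_normSq hc hz v j)
      simp only [ContinuousLinearMap.comp_apply, _root_.smul_apply, ContinuousLinearMap.proj_apply,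
        imCLM_apply, smul_eq_mul, mul_pow, div_pow]
      have h1 : (v j).im ^ 2 ≤ ‖v j‖ ^ 2 := by
        rw [← sq_abs]; exact pow_le_pow_left₀ (abs_nonneg _) (abs_im_le_norm _) 2
      have h2 : Real.cos (z j).im ^ 2 / Real.sin (z j).im ^ 2 ≤ rho c (z j).im := by
        have := div_le_div_of_nonneg_right (Real.cos_sq_le_one (z j).im)
          (sq_nonneg (Real.sin (z j).im))
        rw [one_div] at this
        unfold rho; linarith
      exact mul_le_mul h2 h1 (sq_nonneg _) (rho_pos hc (hz j)).le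
  refine complete_of isOpen_XS (fun j k => (contDiffOn_gS c j k).continuousOn)
    (fun z hz v j => le_trans ?_ (le_normSq hc hz v j)) fun q _ => ?_
  · exact le_mul_of_one_le_left (sq_nonneg _) (one_le_rho hc (hz j))
  have hcl : IsClosed (⋂ j, {z : Fin n → ℂ | (z j).im ∈ Icc 0 Real.pi ∧
      Real.exp (Real.log (Real.sin (q j).im) - 1) ≤ Real.sin (z j).im}) :=
    isClosed_iInter fun j => (isClosed_Icc.preimage (by fun_prop)).inter
      (isClosed_le (g := fun z : Fin n → ℂ => Real.sin (z j).im) continuous_const (by fun_prop))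
  refine (closure_minimal (fun z hz => mem_iInter.2 fun j => ?_) hcl).trans fun z hz j => ?_
  · have := (key j q z).trans_lt hz.2
    rw [ENNReal.ofReal_lt_one, abs_lt] at this
    refine ⟨Ioo_subset_Icc_self (hz.1 j), ?_⟩
    rw [← Real.exp_log (sin_pos' (hz.1 j))]
    exact Real.exp_le_exp.2 (by linarith)
  · obtain ⟨h1, h2⟩ := mem_iInter.1 hz j
    have h3 := (Real.exp_pos _).trans_le h2
    refine ⟨h1.1.lt_of_ne fun h => ?_, h1.2.lt_of_ne fun h => ?_⟩
    · rw [← h] at h3; simp at h3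
    · rw [h] at h3; simp at h3

end Pool.Agent.P.MP_164ed8_gt
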