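import Pool.Agent.P.MP_164ed8_gt.Q1Metric

namespace Pool.Agent.P.MP_164ed8_gt.Q1

open Set Filter Topology Complex Matrix Pool.Agent.Lib.Kahler
open scoped ComplexOrder ContDiff

variable {t : ℝ} {z : EE}

lemma nsq_nonneg (ht : OK t) (hz : z ∈ XX) (v : EE) : 0 ≤ normSq (gT t) z v :=
  le_trans (by positivity) (low1 ht hz v (0, 0))

lemma lipA (ht : OK t) (hz : z ∈ XX) (v : EE) (p : PP) :
    ‖v (eJ (.inl p))‖ ≤ 2 * yy z p * √(normSq (gT t) z v) := by
  have y0 := hz.1 p
  have h := low1 ht hz v p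
  have h0 := nsq_nonneg ht hz v
  rw [div_le_iff₀ (by positivity)] at h
  refine le_of_sq_le_sq ?_ (by positivity)
  rw [mul_pow, Real.sq_sqrt h0]
  nlinarith [mul_nonneg h0 (sq_nonneg (yy z p))]

/-- square root of the fibre weight -/
noncomputable def rr (z : EE) (i : Fin 2) : ℝ := Real.exp (-ll z i / 10)

lemma rr_sq (z : EE) (i : Fin 2) : rr z i ^ 2 = ee z i := by
  rw [rr, ee, ← Real.exp_nat_mul]; congr 1; push_cast; ring

lemma rr_pos (z : EE) (i : Fin 2) : 0 < rr z i := Real.exp_pos _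

lemma lipB (ht : OK t) (hz : z ∈ XX) (v : EE) (i : Fin 2) :
    rr z i * ‖tv z i v‖ ≤ (1 - QQ z i) * √(normSq (gT t) z v) := by
  have a0 := sub_pos.2 (hz.2 i)
  have h := low2 ht hz v i
  rw [div_le_iff₀ (by positivity)] at h
  refine le_of_sq_le_sq ?_ (by positivity)
  rw [mul_pow, mul_pow, Real.sq_sqrt (nsq_nonneg ht hz v), rr_sq]
  linarith

lemma lipC (ht : OK t) (hz : z ∈ XX) (v : EE) (i : Fin 2) :
    ‖lv z i v‖ ≤ 2 * √(normSq (gT t) z v) := by
  rw [lv_eq]
  refine (norm_sum_le _ _).trans ((Finset.sum_le_card_nsmul _ _ (√(normSq (gT t) z v) / 5)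
    fun j _ => ?_).trans ?_)
  · have y0 := hz.1 (i, j)
    have h := lipA ht hz v (i, j)
    rw [norm_mul, norm_div, norm_I, norm_mul, norm_real, Real.norm_eq_abs, abs_of_pos y0,
      Complex.norm_ofNat, mul_one_div, div_le_div_iff₀ (by positivity) (by positivity)]
    linarith
  · simp only [Finset.card_univ, Fintype.card_fin, nsmul_eq_mul]
    have := Real.sqrt_nonneg (normSq (gT t) z v)
    push_cast
    linarith

lemma rw_le (hz : z ∈ XX) (i : Fin 2) : rr z i * ‖ww z i‖ ≤ 1 := by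
  have := rr_pos z i
  refine le_of_sq_le_sq ?_ zero_le_one
  rw [mul_pow, rr_sq, one_pow, mul_comm]
  exact (hz.2 i).le

lemma fderiv_ll (hz : z ∈ UH) (i : Fin 2) (v : EE) :
    fderiv ℝ (fun w => ll w i) z v = -10 * (lv z i v).re := by
  rw [fderiv_eq_dz (dd (cd_ll hz i)), ← eJ.sum_comp]
  simp only [dz_ll hz]
  have : ∑ α, -5 * lam z i α * v (eJ α) = ((-5 : ℝ) : ℂ) * lv z i v := by
    rw [lv, Finset.mul_sum]
    exact Finset.sum_congr rfl fun _ _ => by push_cast; ring
  rw [this, re_ofReal_mul]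
  ring

lemma fderiv_QQ (hz : z ∈ UH) (i : Fin 2) (v : EE) :
    fderiv ℝ (fun w => QQ w i) z v = 2 * (zeta z i v).re := by
  rw [fderiv_eq_dz (dd (cd_QQ hz i)), ← eJ.sum_comp]
  simp only [dz_QQ hz, zeta, tv, Finset.mul_sum]
  congr 2
  exact Finset.sum_congr rfl fun _ _ => by ring

lemma complete_gT (ht : OK t) : IsCompleteMetric XX (gT t) := by
  intro u hu hc
  have key : ∀ (f : EE → ℝ) (C : ℝ), 0 < C → (∀ z ∈ XX, ContDiffAt ℝ ∞ f z) →
      (∀ z ∈ XX, ∀ v, |fderiv ℝ f z v| ≤ C * √(normSq (gT t) z v)) →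
      ∃ L, Tendsto (fun m => f (u m)) atTop (𝓝 L) := by
    intro f C hC h1 h2
    refine exists_lim isOpen_XX h1 hC (fun z hz v => ?_) hc
    rw [← Real.sq_sqrt (nsq_nonneg ht hz v), ← mul_pow, ← sq_abs]
    exact pow_le_pow_left₀ (abs_nonneg _) (h2 z hz v) 2
  have k1 : ∀ p, ∃ L, Tendsto (fun m => Real.log (yy (u m) p)) atTop (𝓝 L) := by
    intro p
    refine key (fun z => Real.log (yy z p)) 2 two_pos
      (fun z hz => (cd_yy z p).log (hz.1 p).ne') fun z hz v => ?_
    have y0 := hz.1 p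
    have := (hasFDerivAt_im' (z := z) (k := eJ (.inl p)) (Real.hasDerivAt_log y0.ne')).fderiv
    rw [show (fun z => Real.log (yy z p)) = fun w : EE => Real.log (w (eJ (.inl p))).im from rfl,
      this]
    simp only [ContinuousLinearMap.comp_apply, _root_.smul_apply, ContinuousLinearMap.proj_apply,
      imCLM_apply, smul_eq_mul, abs_mul]
    change |(yy z p)⁻¹| * _ ≤ _
    rw [abs_of_pos (inv_pos.2 y0), inv_mul_le_iff₀ y0]
    linarith [lipA ht hz v p, abs_im_le_norm (v (eJ (.inl p)))]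
  have k2 : ∀ p (c : ℝ), ∃ L,
      Tendsto (fun m => Real.log ‖u m (eJ (.inl p)) + c‖) atTop (𝓝 L) := by
    intro p c
    have hy : ∀ z ∈ XX, yy z p ≤ ‖z (eJ (.inl p)) + c‖ := fun z _ => by
      simpa [yy] using (im_le_norm (z (eJ (.inl p)) + c))
    have hne : ∀ z ∈ XX, z (eJ (.inl p)) + c ∈ slitPlane := fun z hz =>
      Or.inr (by simpa [yy] using (hz.1 p).ne')
    have e : (fun z : EE => Real.log ‖z (eJ (.inl p)) + c‖) =
        fun z => reCLM (Complex.log (z (eJ (.inl p)) + c)) := funext fun z => (log_re _).symm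
    refine key (fun z => Real.log ‖z (eJ (.inl p)) + c‖) 2 two_pos (fun z hz => ?_)
      fun z hz v => ?_
    · rw [e]
      exact reCLM.contDiff.contDiffAt.comp z (((contDiffAt_log (hne z hz)).restrict_scalars ℝ).comp
        z ((contDiffAt_apply ℝ ℂ _ z).add contDiffAt_const))
    · have y0 := hz.1 p
      have := reCLM.hasFDerivAt.comp z ((((hasDerivAt_log (hne z hz)).hasFDerivAt.restrictScalars
        ℝ).comp z ((hasFDerivAt_apply (𝕜 := ℝ) (eJ (.inl p)) z).add_const (c : ℂ))))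
      rw [e, HasFDerivAt.fderiv (f := fun z : EE => reCLM (Complex.log (z (eJ (.inl p)) + c))) this]
      simp only [ContinuousLinearMap.comp_apply, reCLM_apply, ContinuousLinearMap.proj_apply,
        ContinuousLinearMap.coe_restrictScalars', ContinuousLinearMap.toSpanSingleton_apply,
        smul_eq_mul]
      refine (abs_re_le_norm _).trans ?_
      rw [norm_mul, norm_inv, mul_inv_le_iff₀ (y0.trans_le (hy z hz))]
      nlinarith [lipA ht hz v p, hy z hz, Real.sqrt_nonneg (normSq (gT t) z v)]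
  have k3 : ∀ i, ∃ L, Tendsto (fun m => Real.log (1 - QQ (u m) i)) atTop (𝓝 L) := by
    intro i
    refine key (fun z => Real.log (1 - QQ z i)) 2 two_pos (fun z hz =>
      (contDiffAt_const.sub (cd_QQ hz.1 i)).log (sub_pos.2 (hz.2 i)).ne') fun z hz v => ?_
    have a0 := sub_pos.2 (hz.2 i)
    rw [(((dd (cd_QQ hz.1 i)).hasFDerivAt.const_sub 1).log a0.ne').fderiv]
    simp only [_root_.smul_apply, _root_.neg_apply, smul_eq_mul, fderiv_QQ hz.1, abs_mul, abs_neg,
      abs_two]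
    rw [abs_of_pos (inv_pos.2 a0), inv_mul_le_iff₀ a0]
    have h1 : ‖zeta z i v‖ = rr z i * ‖ww z i‖ * (rr z i * ‖tv z i v‖) := by
      simp only [zeta, norm_mul, norm_real, Complex.norm_conj, Real.norm_eq_abs,
        abs_of_pos (ee_pos z i)]
      rw [← rr_sq]
      ring
    have h2 := mul_le_of_le_one_left (mul_nonneg (rr_pos z i).le (norm_nonneg (tv z i v)))
      (rw_le hz i)
    linarith [abs_re_le_norm (zeta z i v), lipB ht hz v i]
  have k4 : ∀ i (L : ℂ →L[ℝ] ℝ), (∀ w, |L w| ≤ ‖w‖) → ∃ l,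
      Tendsto (fun m => L (ww (u m) i) * rr (u m) i) atTop (𝓝 l) := by
    intro i L hL
    have c1 : ∀ z ∈ XX, ContDiffAt ℝ ∞ (fun z => rr z i) z := fun z hz =>
      ((cd_ll hz.1 i).neg.div_const 10).exp
    refine key (fun z => L (ww z i) * rr z i) 5 (by norm_num) (fun z hz =>
      (L.contDiff.contDiffAt.comp z (cd_ww z i)).mul (c1 z hz)) fun z hz v => ?_
    have h1 := (L.hasFDerivAt.comp z (hasFDerivAt_apply (𝕜 := ℝ) (eJ (.inr i)) z)).fun_mul
      (((dd (cd_ll hz.1 i)).hasFDerivAt.fun_neg.mul_const (10 : ℝ)⁻¹).exp)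
    rw [HasFDerivAt.fderiv (f := fun z => L (ww z i) * rr z i) h1]
    simp only [_root_.add_apply, _root_.smul_apply, _root_.neg_apply, smul_eq_mul, fderiv_ll hz.1,
      ContinuousLinearMap.comp_apply, ContinuousLinearMap.proj_apply, Function.comp]
    change |L (ww z i) * (rr z i * _) + rr z i * _| ≤ _
    have r0 := rr_pos z i
    have e1 : v (eJ (.inr i)) = tv z i v - ww z i * lv z i v := by rw [tv_eq]; ring
    have e2 : |L (ww z i) * (rr z i * (10⁻¹ * -(-10 * (lv z i v).re)))| ≤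
        rr z i * ‖ww z i‖ * ‖lv z i v‖ := by
      rw [show (10⁻¹ * -(-10 * (lv z i v).re)) = (lv z i v).re by ring, abs_mul, abs_mul,
        abs_of_pos r0, mul_left_comm, mul_assoc]
      exact mul_le_mul_of_nonneg_left (mul_le_mul (hL _) (abs_re_le_norm _) (abs_nonneg _)
        (norm_nonneg _)) r0.le
    have e3 : |rr z i * L (v (eJ (.inr i)))| ≤
        rr z i * ‖tv z i v‖ + rr z i * ‖ww z i‖ * ‖lv z i v‖ := by
      rw [abs_mul, abs_of_pos r0, mul_assoc, ← mul_add, e1, ← norm_mul]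
      exact mul_le_mul_of_nonneg_left ((hL _).trans (norm_sub_le _ _)) r0.le
    have e4 := mul_le_of_le_one_left (norm_nonneg (lv z i v)) (rw_le hz i)
    have e5 := mul_le_of_le_one_left (Real.sqrt_nonneg (normSq (gT t) z v))
      (show 1 - QQ z i ≤ 1 by linarith [QQ_nonneg z i])
    linarith [abs_add_le (L (ww z i) * (rr z i * (10⁻¹ * -(-10 * (lv z i v).re))))
      (rr z i * L (v (eJ (.inr i)))), lipB ht hz v i, lipC ht hz v i]
  choose L1 h1 using k1
  have hy : ∀ p, Tendsto (fun m => yy (u m) p) atTop (𝓝 (Real.exp (L1 p))) := fun p =>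
    ((Real.continuous_exp.tendsto _).comp (h1 p)).congr fun m => Real.exp_log ((hu m).1 p)
  have cplx : ∀ (s : ℕ → ℂ) (a b : ℝ), Tendsto (fun m => (s m).re) atTop (𝓝 a) →
      Tendsto (fun m => (s m).im) atTop (𝓝 b) → ∃ L, Tendsto s atTop (𝓝 L) := fun s a b ha hb =>
    ⟨_, (((continuous_ofReal.tendsto _).comp ha).add
      (((continuous_ofReal.tendsto _).comp hb).mul_const I)).congr fun m => re_add_im _⟩
  have k5 : ∀ j, ∃ L, Tendsto (fun m => u m j) atTop (𝓝 L) := by
    intro j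
    obtain ⟨α, rfl⟩ := eJ.surjective j
    rcases α with p | i
    · have hn : ∀ c : ℝ, ∃ L, Tendsto (fun m => ‖u m (eJ (.inl p)) + c‖) atTop (𝓝 L) := by
        intro c
        obtain ⟨L, h⟩ := k2 p c
        refine ⟨_, ((Real.continuous_exp.tendsto _).comp h).congr fun m => Real.exp_log ?_⟩
        refine ((hu m).1 p).trans_le ?_
        simpa [yy] using (im_le_norm (u m (eJ (.inl p)) + c))
      obtain ⟨a, ha⟩ := hn 0
      obtain ⟨b, hb⟩ := hn 1
      refine cplx _ _ _ (((((hb.pow 2).sub (ha.pow 2)).sub_const 1).div_const 2).congr fun m => ?_)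
        (hy p)
      simp [Complex.sq_norm, normSq_apply]
      ring
    · obtain ⟨a, ha⟩ := k4 i reCLM abs_re_le_norm
      obtain ⟨b, hb⟩ := k4 i imCLM abs_im_le_norm
      have hl : Tendsto (fun m => rr (u m) i) atTop (𝓝 (Real.exp (-(∑ j, L1 (i, j)) / 10))) :=
        (Real.continuous_exp.tendsto _).comp
          ((tendsto_finsetSum _ fun j _ => h1 (i, j)).neg.div_const 10)
      exact cplx _ _ _ ((ha.div hl (Real.exp_pos _).ne').congr fun m =>
        mul_div_cancel_right₀ _ (rr_pos _ _).ne') ((hb.div hl (Real.exp_pos _).ne').congr fun m =>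
        mul_div_cancel_right₀ _ (rr_pos _ _).ne')
  choose p hp using k5
  have hp' : Tendsto u atTop (𝓝 p) := tendsto_pi_nhds.2 hp
  have hU : p ∈ UH := fun k => by
    rw [tendsto_nhds_unique (((continuous_yy k).tendsto p).comp hp') (hy k)]
    exact Real.exp_pos _
  have hX : p ∈ XX := ⟨hU, fun i => by
    obtain ⟨L, h⟩ := k3 i
    have a : Tendsto (fun m => 1 - QQ (u m) i) atTop (𝓝 (Real.exp L)) :=
      ((Real.continuous_exp.tendsto _).comp h).congr fun m => Real.exp_log (sub_pos.2 ((hu m).2 i))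
    have b := ((cd_QQ hU i).continuousAt.tendsto.comp hp').const_sub 1
    rw [← sub_pos, tendsto_nhds_unique b a]
    exact Real.exp_pos _⟩
  exact ⟨p, hX, tendsto_rdist isOpen_XX (fun j k => (cont_gT t j k).continuousOn) hX hp'⟩

end Pool.Agent.P.MP_164ed8_gt.Q1
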