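import Pool.Agent.P.MP_164ed8_gt.Q1Hess
import Pool.Agent.P.MP_164ed8_gt.Q1Poly
import Pool.Agent.P.MP_164ed8_gt.Metric

namespace Pool.Agent.P.MP_164ed8_gt.Q1

open Set Filter Topology Complex Matrix Pool.Agent.Lib.Kahler
open scoped ComplexOrder ContDiff

abbrev PP := Fin 2 × Fin 9

abbrev JJ := PP ⊕ Fin 2

noncomputable def eJ : JJ ≃ Fin 20 := Fintype.equivFinOfCardEq (by simp)

abbrev EE := Fin 20 → ℂ

noncomputable def yy (z : EE) (p : PP) : ℝ := (z (eJ (.inl p))).im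

noncomputable def ww (z : EE) (i : Fin 2) : ℂ := z (eJ (.inr i))

noncomputable def ll (z : EE) (i : Fin 2) : ℝ := ∑ j, Real.log (yy z (i, j))

noncomputable def ee (z : EE) (i : Fin 2) : ℝ := Real.exp (-ll z i / 5)

noncomputable def QQ (z : EE) (i : Fin 2) : ℝ := ‖ww z i‖ ^ 2 * ee z i

def UH : Set EE := {z | ∀ p, 0 < yy z p}

def XX : Set EE := {z | z ∈ UH ∧ ∀ i, QQ z i < 1}

noncomputable def lam (z : EE) (i : Fin 2) : JJ → ℂ :=
  Sum.elim (fun p => if p.1 = i then I / (10 * yy z p) else 0) fun _ => 0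

noncomputable def del (i : Fin 2) (α : JJ) : ℂ := if α = .inr i then 1 else 0

noncomputable def th (z : EE) (i : Fin 2) (α : JJ) : ℂ := del i α + ww z i * lam z i α

noncomputable def eta (z : EE) (i : Fin 2) (α : JJ) : JJ → ℂ :=
  Sum.elim (fun p => if p.1 = i ∧ α = .inl p then 1 / (4 * (yy z p : ℂ) ^ 2) else 0) fun _ => 0

noncomputable def pot (F : (Fin 2 → ℝ) → ℝ) (κ : ℝ) (z : EE) : ℝ := F (QQ z) - κ * ∑ i, ll z i

lemma ee_pos (z : EE) (i : Fin 2) : 0 < ee z i := Real.exp_pos _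

lemma QQ_nonneg (z : EE) (i : Fin 2) : 0 ≤ QQ z i := mul_nonneg (sq_nonneg _) (ee_pos z i).le

lemma QQ_coe (z : EE) (i : Fin 2) :
    (QQ z i : ℂ) = ee z i * (ww z i * (starRingEnd ℂ) (ww z i)) := by
  rw [mul_conj', QQ]; push_cast; ring

lemma continuous_yy (p : PP) : Continuous fun z => yy z p := by unfold yy; fun_prop

lemma isOpen_UH : IsOpen UH := by
  have : UH = ⋂ p, {z | 0 < yy z p} := by ext; simp [UH]
  rw [this]
  exact isOpen_iInter_of_finite fun p => isOpen_lt continuous_const (continuous_yy p)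

lemma cd_yy (z : EE) (p : PP) : ContDiffAt ℝ ∞ (fun w => yy w p) z := contDiffAt_im z _

lemma cd_ww (z : EE) (i : Fin 2) : ContDiffAt ℝ ∞ (fun w => ww w i) z :=
  contDiffAt_apply ℝ ℂ _ z

lemma cd_ll {z : EE} (hz : z ∈ UH) (i : Fin 2) : ContDiffAt ℝ ∞ (fun w => ll w i) z :=
  ContDiffAt.sum fun j _ => (cd_yy z (i, j)).log (hz _).ne'

lemma cd_ee {z : EE} (hz : z ∈ UH) (i : Fin 2) : ContDiffAt ℝ ∞ (fun w => ee w i) z :=
  ((cd_ll hz i).neg.div_const 5).exp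

lemma cd_QQ {z : EE} (hz : z ∈ UH) (i : Fin 2) : ContDiffAt ℝ ∞ (fun w => QQ w i) z :=
  ((contDiff_norm_sq ℝ).contDiffAt.comp z (cd_ww z i)).mul (cd_ee hz i)

lemma cd_Q {z : EE} (hz : z ∈ UH) : ContDiffAt ℝ ∞ QQ z := contDiffAt_pi.2 (cd_QQ hz)

lemma cd_conj {f : EE → ℂ} {z : EE} (h : ContDiffAt ℝ ∞ f z) :
    ContDiffAt ℝ ∞ (fun w => (starRingEnd ℂ) (f w)) z :=
  (conjCLE : ℂ →L[ℝ] ℂ).contDiff.contDiffAt.comp z h

lemma cd_lam {z : EE} (hz : z ∈ UH) (i : Fin 2) (α : JJ) :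
    ContDiffAt ℝ ∞ (fun w => lam w i α) z := by
  rcases α with p | k
  · by_cases h : p.1 = i
    · simp only [lam, Sum.elim_inl, h, if_true, div_eq_mul_inv]
      exact contDiffAt_const.mul ((contDiffAt_const.mul (contDiffAt_ofReal (cd_yy z p))).inv
        (by simpa using (hz p).ne'))
    · simp only [lam, Sum.elim_inl, h, if_false]
      exact contDiffAt_const
  · exact contDiffAt_const

lemma cd_th {z : EE} (hz : z ∈ UH) (i : Fin 2) (α : JJ) : ContDiffAt ℝ ∞ (fun w => th w i α) z :=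
  contDiffAt_const.add ((cd_ww z i).mul (cd_lam hz i α))

lemma isOpen_XX : IsOpen XX := by
  rw [isOpen_iff_mem_nhds]
  intro z hz
  have : ∀ᶠ w in 𝓝 z, ∀ i, QQ w i < 1 := eventually_all.2 fun i =>
    (cd_QQ hz.1 i).continuousAt.eventually_lt continuousAt_const (hz.2 i)
  filter_upwards [this, isOpen_UH.mem_nhds hz.1] with w h1 h2
  exact ⟨h2, h1⟩

lemma dd {F : Type} [NormedAddCommGroup F] [NormedSpace ℝ F] {f : EE → F} {z : EE}
    (h : ContDiffAt ℝ ∞ f z) : DifferentiableAt ℝ f z := h.differentiableAt (by simp)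

lemma dz_yy {F : ℝ → ℝ} {F' : ℝ} {z : EE} {p : PP} (h : HasDerivAt F F' (yy z p)) (α : JJ) :
    dz (eJ α) (fun w => (F (yy w p) : ℂ)) z = if α = .inl p then -I * F' / 2 else 0 := by
  have := dz_im (z := z) (k := eJ (.inl p)) h (eJ α)
  simpa [yy] using this

lemma dz_ll {z : EE} (hz : z ∈ UH) (i : Fin 2) (α : JJ) :
    dz (eJ α) (fun w => (ll w i : ℂ)) z = -5 * lam z i α := by
  simp only [ll, ofReal_sum]
  rw [dz_sum _ fun j _ => dd (contDiffAt_ofReal ((cd_yy z (i, j)).log (hz _).ne'))]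
  simp only [dz_yy (Real.hasDerivAt_log (hz _).ne')]
  rcases α with ⟨i', j'⟩ | k
  · by_cases h : i' = i
    · subst h
      have := (hz (i', j')).ne'
      simp [lam]
      field_simp
      ring
    · simp [lam, h]
  · simp [lam]

lemma dz_ee {z : EE} (hz : z ∈ UH) (i : Fin 2) (α : JJ) :
    dz (eJ α) (fun w => (ee w i : ℂ)) z = ee z i * lam z i α := by
  have := dz_comp_real (dd (cd_ll hz i)) (F := fun x => Real.exp (-x / 5))
    ((hasDerivAt_neg' (ll z i)).div_const 5).exp (eJ α)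
  rw [dz_ll hz] at this
  simp only [ee]
  rw [this]
  push_cast
  ring

lemma dz_ww (z : EE) (i : Fin 2) (α : JJ) : dz (eJ α) (fun w => ww w i) z = del i α := by
  simp only [ww, dz_coord, del]
  simp

lemma dz_cww (z : EE) (i : Fin 2) (α : JJ) :
    dz (eJ α) (fun w => (starRingEnd ℂ) (ww w i)) z = 0 := dz_conj_coord ..

lemma dz_QQ {z : EE} (hz : z ∈ UH) (i : Fin 2) (α : JJ) :
    dz (eJ α) (fun w => (QQ w i : ℂ)) z = ee z i * (starRingEnd ℂ) (ww z i) * th z i α := by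
  simp only [QQ_coe]
  rw [dz_mul (dd (contDiffAt_ofReal (cd_ee hz i))) (dd ((cd_ww z i).mul (cd_conj (cd_ww z i)))),
    dz_mul (dd (cd_ww z i)) (dd (cd_conj (cd_ww z i))), dz_ee hz, dz_ww, dz_cww, th]
  ring

lemma dz_clam {z : EE} (hz : z ∈ UH) (i : Fin 2) (α β : JJ) :
    dz (eJ α) (fun w => (starRingEnd ℂ) (lam w i β)) z = eta z i α β / 5 := by
  rcases β with p | k
  · by_cases h : p.1 = i
    · have e : (fun w => (starRingEnd ℂ) (lam w i (.inl p))) =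
          fun w => (-I / 10) * (((yy w p)⁻¹ : ℝ) : ℂ) := by
        funext w
        simp [lam, h, map_ofNat]
        ring
      have := (hz p).ne'
      rw [e, dz_const_mul (dd (contDiffAt_ofReal (φ := fun w => (yy w p)⁻¹) ((cd_yy z p).inv this))),
        dz_yy (hasDerivAt_inv this)]
      by_cases h2 : α = .inl p
      · simp only [eta, Sum.elim_inl, h, h2, and_self, if_true]
        push_cast
        linear_combination (-((yy z p : ℂ) ^ 2)⁻¹ / 20) * I_mul_I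
      · simp [eta, h2]
    · simp [lam, eta, h, dz_const]
  · simp [lam, eta, dz_const]

lemma dz_cth {z : EE} (hz : z ∈ UH) (i : Fin 2) (α β : JJ) :
    dz (eJ α) (fun w => (starRingEnd ℂ) (th w i β)) z =
      (starRingEnd ℂ) (ww z i) * eta z i α β / 5 := by
  simp only [th, map_add, map_mul]
  rw [dz_add (differentiableAt_const _) (dd ((cd_conj (cd_ww z i)).mul (cd_conj (cd_lam hz i β)))),
    dz_const, dz_mul (dd (cd_conj (cd_ww z i))) (dd (cd_conj (cd_lam hz i β))), dz_cww, dz_clam hz]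
  ring

lemma diff_compQ {z : EE} (hz : z ∈ UH) {F : (Fin 2 → ℝ) → ℝ} {c : Fin 2 → ℝ}
    (hF : HasFDerivAt F (lin c) (QQ z)) : DifferentiableAt ℝ (fun w => F (QQ w)) z :=
  hF.differentiableAt.comp z (dd (cd_Q hz))

lemma diff_ofReal {φ : EE → ℝ} {z : EE} (h : DifferentiableAt ℝ φ z) :
    DifferentiableAt ℝ (fun w => (φ w : ℂ)) z := ofRealCLM.differentiableAt.comp z h

lemma dz_compQ {z : EE} (hz : z ∈ UH) {F : (Fin 2 → ℝ) → ℝ} {c : Fin 2 → ℝ}
    (hF : HasFDerivAt F (lin c) (QQ z)) (α : JJ) :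
    dz (eJ α) (fun w => (F (QQ w) : ℂ)) z =
      ∑ i, c i * (ee z i * (starRingEnd ℂ) (ww z i) * th z i α) := by
  have hQ : HasFDerivAt QQ (ContinuousLinearMap.pi fun i => fderiv ℝ (fun w => QQ w i) z) z :=
    hasFDerivAt_pi.2 fun i => (dd (cd_QQ hz i)).hasFDerivAt
  have := ofRealCLM.hasFDerivAt.comp z (hF.comp z hQ)
  rw [dz_of (f := fun w => (F (QQ w) : ℂ)) this]
  simp only [← dz_QQ hz, dz_real (dd (cd_QQ hz _)), Fin.sum_univ_two]
  simp [lin_apply]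
  ring

/-- second order jet of a function of two real variables -/
structure GJ (F : (Fin 2 → ℝ) → ℝ) (F1 : Fin 2 → (Fin 2 → ℝ) → ℝ) (F2 : Fin 2 → Fin 2 → ℝ)
    (q : Fin 2 → ℝ) : Prop where
  h1 : ∀ᶠ x in 𝓝 q, HasFDerivAt F (lin fun i => F1 i x) x
  h2 : ∀ k, HasFDerivAt (F1 k) (lin fun i => F2 i k) q

lemma diff_pot {z : EE} (hz : z ∈ UH) {F : (Fin 2 → ℝ) → ℝ} {c : Fin 2 → ℝ}
    (hF : HasFDerivAt F (lin c) (QQ z)) (κ : ℝ) : DifferentiableAt ℝ (pot F κ) z :=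
  (diff_compQ hz hF).sub (dd (contDiffAt_const.mul (ContDiffAt.sum fun i _ => cd_ll hz i)))

lemma dz_pot {z : EE} (hz : z ∈ UH) {F : (Fin 2 → ℝ) → ℝ} {c : Fin 2 → ℝ}
    (hF : HasFDerivAt F (lin c) (QQ z)) (κ : ℝ) (α : JJ) :
    dz (eJ α) (fun w => (pot F κ w : ℂ)) z =
      ∑ i, c i * (ee z i * (starRingEnd ℂ) (ww z i) * th z i α) + 5 * κ * ∑ i, lam z i α := by
  simp only [pot, ofReal_sub, ofReal_mul, ofReal_sum]
  have h := fun i => dd (contDiffAt_ofReal (cd_ll hz i))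
  rw [dz_sub (diff_ofReal (diff_compQ hz hF))
    ((DifferentiableAt.fun_sum fun i _ => h i).const_mul _), dz_compQ hz hF,
    dz_const_mul (DifferentiableAt.fun_sum fun i _ => h i), dz_sum _ fun i _ => h i]
  simp only [dz_ll hz, Fin.sum_univ_two]
  ring

lemma hess_pot {z : EE} (hz : z ∈ UH) {F : (Fin 2 → ℝ) → ℝ} {F1 : Fin 2 → (Fin 2 → ℝ) → ℝ}
    {F2 : Fin 2 → Fin 2 → ℝ} (h : GJ F F1 F2 (QQ z)) (κ : ℝ) (α β : JJ) :
    hess (pot F κ) z (eJ α) (eJ β) = 2 * (∑ k, (∑ i, F2 i k *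
      (ee z i * (starRingEnd ℂ) (ww z i) * th z i α)) *
        (ee z k * ww z k * (starRingEnd ℂ) (th z k β)) +
      ∑ k, F1 k (QQ z) * (ee z k * th z k α * (starRingEnd ℂ) (th z k β) +
        QQ z k * eta z k α β / 5) + κ * ∑ i, eta z i α β) := by
  have e1 : (dzbar (eJ β) fun w => (pot F κ w : ℂ)) =ᶠ[𝓝 z] fun w =>
      ∑ k, (F1 k (QQ w) : ℂ) * (ee w k * ww w k * (starRingEnd ℂ) (th w k β)) +
        5 * κ * ∑ i, (starRingEnd ℂ) (lam w i β) := by
    filter_upwards [isOpen_UH.mem_nhds hz, (cd_Q hz).continuousAt.eventually h.h1] with w hw hF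
    rw [dzbar_eq_conj (diff_pot hw hF κ), dz_pot hw hF]
    simp [map_ofNat]
  have d1 := fun k => diff_ofReal (diff_compQ hz (h.h2 k))
  have d2 := fun k => dd (contDiffAt_ofReal (cd_ee hz k))
  have d3 := fun k => dd (cd_ww z k)
  have d4 := fun k => dd (cd_conj (cd_th hz k β))
  have d5 := fun k => dd (cd_conj (cd_lam hz k β))
  have d6 := fun k => (d1 k).fun_mul (((d2 k).fun_mul (d3 k)).fun_mul (d4 k))
  simp only [hess, of_apply]
  rw [dz_congr e1, dz_add (DifferentiableAt.fun_sum fun k _ => d6 k)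
    ((DifferentiableAt.fun_sum fun k _ => d5 k).const_mul _), dz_sum _ fun k _ => d6 k,
    dz_const_mul (DifferentiableAt.fun_sum fun k _ => d5 k), dz_sum _ fun k _ => d5 k]
  have e2 : ∀ k, dz (eJ α) (fun w => (F1 k (QQ w) : ℂ) *
      (ee w k * ww w k * (starRingEnd ℂ) (th w k β))) z = (∑ i, F2 i k *
      (ee z i * (starRingEnd ℂ) (ww z i) * th z i α)) *
        (ee z k * ww z k * (starRingEnd ℂ) (th z k β)) +
      F1 k (QQ z) * (ee z k * th z k α * (starRingEnd ℂ) (th z k β) +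
        QQ z k * eta z k α β / 5) := by
    intro k
    rw [dz_mul (d1 k) (((d2 k).fun_mul (d3 k)).fun_mul (d4 k)), dz_compQ hz (h.h2 k),
      dz_mul ((d2 k).fun_mul (d3 k)) (d4 k), dz_mul (d2 k) (d3 k), dz_ee hz, dz_ww, dz_cth hz,
      QQ_coe, th, th]
    ring
  simp only [e2, dz_clam hz, Fin.sum_univ_two]
  ring

end Pool.Agent.P.MP_164ed8_gt.Q1
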