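import Pool.Agent.Lib.Kahler.Calc
import Pool.Agent.Lib.Kahler.Dist

namespace Pool.Agent.P.MP_164ed8_gt.Q1

open Set Filter Topology Complex Matrix Pool.Agent.Lib.Kahler
open scoped ComplexOrder ContDiff

variable {n : ℕ}

/-- twice the complex Hessian of a real function -/
noncomputable def hess (φ : (Fin n → ℂ) → ℝ) (z : Fin n → ℂ) : Matrix (Fin n) (Fin n) ℂ :=
  Matrix.of fun j k => 2 * dz j (dzbar k fun w => (φ w : ℂ)) z

lemma two_le_inf : (2 : WithTop ℕ∞) ≤ ∞ := WithTop.coe_le_coe.2 (le_top (a := (2 : ℕ∞)))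

lemma contDiffAt_dir {f : (Fin n → ℂ) → ℂ} {z : Fin n → ℂ} (hf : ContDiffAt ℝ ∞ f z)
    (a : Fin n → ℂ) : ContDiffAt ℝ ∞ (fun w => fderiv ℝ f w a) z :=
  (hf.fderiv_right (m := ∞) (by simp)).clm_apply contDiffAt_const

lemma contDiffAt_dz {f : (Fin n → ℂ) → ℂ} {z : Fin n → ℂ} (hf : ContDiffAt ℝ ∞ f z) (j : Fin n) :
    ContDiffAt ℝ ∞ (dz j f) z :=
  ((contDiffAt_dir hf _).sub (contDiffAt_const.mul (contDiffAt_dir hf _))).div_const 2

lemma contDiffAt_dzbar {f : (Fin n → ℂ) → ℂ} {z : Fin n → ℂ} (hf : ContDiffAt ℝ ∞ f z)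
    (j : Fin n) : ContDiffAt ℝ ∞ (dzbar j f) z :=
  ((contDiffAt_dir hf _).add (contDiffAt_const.mul (contDiffAt_dir hf _))).div_const 2

lemma hasFDerivAt_dir {F : Type} [NormedAddCommGroup F] [NormedSpace ℝ F]
    {f : (Fin n → ℂ) → F} {z : Fin n → ℂ} (hf : ContDiffAt ℝ ∞ f z) (a : Fin n → ℂ) :
    HasFDerivAt (fun w => fderiv ℝ f w a) ((fderiv ℝ (fderiv ℝ f) z).flip a) z := by
  have hd : HasFDerivAt (fderiv ℝ f) (fderiv ℝ (fderiv ℝ f) z) z :=
    ((hf.fderiv_right (m := ∞) (by simp)).differentiableAt (by simp)).hasFDerivAt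
  simpa using hd.clm_apply (hasFDerivAt_const a z)

lemma dz_dz_comm {f : (Fin n → ℂ) → ℂ} {z : Fin n → ℂ} (hf : ContDiffAt ℝ ∞ f z) (j l : Fin n) :
    dz l (dz j f) z = dz j (dz l f) z := by
  have key : ∀ j, HasFDerivAt (dz j f) _ z := fun j =>
    (((hasFDerivAt_dir hf (Pi.single j 1)).fun_sub
      ((hasFDerivAt_dir hf (Pi.single j I)).const_mul I)).mul_const (2 : ℂ)⁻¹)
  have hs := hf.isSymmSndFDerivAt (by simpa using two_le_inf)
  rw [dz_of (key j), dz_of (key l)]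
  simp only [_root_.smul_apply, _root_.sub_apply, ContinuousLinearMap.flip_apply, smul_eq_mul]
  rw [hs (Pi.single l 1) (Pi.single j 1), hs (Pi.single l 1) (Pi.single j I),
    hs (Pi.single l I) (Pi.single j 1), hs (Pi.single l I) (Pi.single j I)]
  ring

lemma contDiffAt_ofReal {φ : (Fin n → ℂ) → ℝ} {z : Fin n → ℂ} (hφ : ContDiffAt ℝ ∞ φ z) :
    ContDiffAt ℝ ∞ (fun w => (φ w : ℂ)) z := ofRealCLM.contDiff.contDiffAt.comp z hφ

lemma contDiffAt_hess {φ : (Fin n → ℂ) → ℝ} {z : Fin n → ℂ} (hφ : ContDiffAt ℝ ∞ φ z)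
    (j k : Fin n) : ContDiffAt ℝ ∞ (fun w => hess φ w j k) z :=
  contDiffAt_const.mul (contDiffAt_dz (contDiffAt_dzbar (contDiffAt_ofReal hφ) k) j)

lemma dz_const_mul {f : (Fin n → ℂ) → ℂ} {z : Fin n → ℂ} (hf : DifferentiableAt ℝ f z) (c : ℂ)
    (j : Fin n) : dz j (fun w => c * f w) z = c * dz j f z := by
  rw [dz_mul (differentiableAt_const c) hf, dz_const]; ring

lemma hess_closed {φ : (Fin n → ℂ) → ℝ} {z : Fin n → ℂ} (hφ : ContDiffAt ℝ ∞ φ z)
    (j k l : Fin n) : dz l (fun w => hess φ w j k) z = dz j (fun w => hess φ w l k) z := by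
  have h := contDiffAt_dzbar (contDiffAt_ofReal hφ) k
  simp only [hess, of_apply]
  rw [dz_const_mul ((contDiffAt_dz h j).differentiableAt (by simp)),
    dz_const_mul ((contDiffAt_dz h l).differentiableAt (by simp)), dz_dz_comm h]

lemma dzbar_real {φ : (Fin n → ℂ) → ℝ} {z : Fin n → ℂ} (h : DifferentiableAt ℝ φ z) (j : Fin n) :
    dzbar j (fun w => (φ w : ℂ)) z =
      ((fderiv ℝ φ z (Pi.single j 1) : ℂ) + I * (fderiv ℝ φ z (Pi.single j I) : ℂ)) / 2 :=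
  dzbar_of (ofRealCLM.hasFDerivAt.comp z h.hasFDerivAt) j

lemma dzbar_eq_conj {φ : (Fin n → ℂ) → ℝ} {z : Fin n → ℂ} (h : DifferentiableAt ℝ φ z)
    (j : Fin n) : dzbar j (fun w => (φ w : ℂ)) z =
      (starRingEnd ℂ) (dz j (fun w => (φ w : ℂ)) z) := by
  rw [dzbar_real h, dz_real h]
  simp [map_ofNat]

lemma hess_herm {φ : (Fin n → ℂ) → ℝ} {z : Fin n → ℂ} (hφ : ContDiffAt ℝ ∞ φ z) :
    (hess φ z).IsHermitian := by
  have key : ∀ k, HasFDerivAt (dzbar k fun w => (φ w : ℂ)) _ z := fun k =>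
    (((ofRealCLM.hasFDerivAt.comp z (hasFDerivAt_dir hφ (Pi.single k 1))).fun_add
      ((ofRealCLM.hasFDerivAt.comp z (hasFDerivAt_dir hφ (Pi.single k I))).const_mul I)).mul_const
        (2 : ℂ)⁻¹).congr_of_eventuallyEq (by
      filter_upwards [(hφ.of_le (show (1 : WithTop ℕ∞) ≤ ∞ by simp)).eventually (by simp)] with w hw
      exact dzbar_real (hw.differentiableAt one_ne_zero) k)
  have hs := hφ.isSymmSndFDerivAt (by simpa using two_le_inf)
  ext j k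
  simp only [conjTranspose_apply, hess, of_apply]
  rw [dz_of (key j), dz_of (key k)]
  simp only [_root_.smul_apply, _root_.add_apply, ContinuousLinearMap.flip_apply, smul_eq_mul,
    ContinuousLinearMap.comp_apply, ofRealCLM_apply]
  rw [hs (Pi.single k 1) (Pi.single j 1), hs (Pi.single k 1) (Pi.single j I),
    hs (Pi.single k I) (Pi.single j 1), hs (Pi.single k I) (Pi.single j I)]
  apply Complex.ext
  · simp
  · simp; ring

lemma hess_congr {φ ψ : (Fin n → ℂ) → ℝ} {z : Fin n → ℂ} (h : φ =ᶠ[𝓝 z] ψ) :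
    hess φ z = hess ψ z := by
  ext j k
  simp only [hess, of_apply]
  congr 1
  refine dz_congr ?_ j
  filter_upwards [h.eventuallyEq_nhds] with w hw
  refine dzbar_congr ?_ k
  filter_upwards [hw] with x hx
  rw [hx]

lemma ricci_eq (g : (Fin n → ℂ) → Matrix (Fin n) (Fin n) ℂ) (z v : Fin n → ℂ) :
    ricci g z v = - normSq (hess fun w => Real.log (g w).det.re) z v := by
  simp only [ricci, Lib.Kahler.normSq, hess, of_apply, mul_assoc, ← Finset.mul_sum]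
  simp

lemma posDef_of {g : (Fin n → ℂ) → Matrix (Fin n) (Fin n) ℂ} {z : Fin n → ℂ}
    (hH : (g z).IsHermitian) (h : ∀ v ≠ 0, 0 < normSq g z v) : (g z).PosDef := by
  refine PosDef.of_dotProduct_mulVec_pos hH fun x hx => ?_
  have e : star x ⬝ᵥ g z *ᵥ x = ∑ j, ∑ k, g z j k * (star x) j * (starRingEnd ℂ) ((star x) k) := by
    simp only [dotProduct, mulVec, Finset.mul_sum, Pi.star_apply, RCLike.star_def, conj_conj]
    exact Finset.sum_congr rfl fun j _ => Finset.sum_congr rfl fun k _ => by ring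
  rw [Complex.pos_iff]
  refine ⟨?_, (hH.im_star_dotProduct_mulVec_self x).symm⟩
  rw [e]
  exact h _ (star_ne_zero.2 hx)

lemma dz_sum {ι : Type} (s : Finset ι) {f : ι → (Fin n → ℂ) → ℂ} {z : Fin n → ℂ}
    (hf : ∀ i ∈ s, DifferentiableAt ℝ (f i) z) (j : Fin n) :
    dz j (fun w => ∑ i ∈ s, f i w) z = ∑ i ∈ s, dz j (f i) z := by
  rw [dz_of (HasFDerivAt.fun_sum fun i hi => (hf i hi).hasFDerivAt)]
  simp only [_root_.sum_apply, dz, Finset.mul_sum, ← Finset.sum_sub_distrib, Finset.sum_div]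

lemma dz_sub {f h : (Fin n → ℂ) → ℂ} {z : Fin n → ℂ} (hf : DifferentiableAt ℝ f z)
    (hh : DifferentiableAt ℝ h z) (j : Fin n) :
    dz j (fun w => f w - h w) z = dz j f z - dz j h z := by
  rw [dz_of (hf.hasFDerivAt.fun_sub hh.hasFDerivAt), dz, dz]
  simp only [_root_.sub_apply]; ring

/-- chain rule through a real function of one variable -/
lemma dz_comp_real {φ : (Fin n → ℂ) → ℝ} {z : Fin n → ℂ} (h : DifferentiableAt ℝ φ z)
    {F : ℝ → ℝ} {F' : ℝ} (hF : HasDerivAt F F' (φ z)) (j : Fin n) :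
    dz j (fun w => (F (φ w) : ℂ)) z = F' * dz j (fun w => (φ w : ℂ)) z := by
  have := hF.comp_hasFDerivAt z h.hasFDerivAt
  rw [dz_of (f := fun w => (F (φ w) : ℂ)) (ofRealCLM.hasFDerivAt.comp z this), dz_real h]
  simp
  ring

lemma divg_eq {W : (Fin n → ℂ) → Fin n → ℂ} {z : Fin n → ℂ}
    (h : ∀ j, DifferentiableAt ℝ (fun w => W w j) z) :
    divg W z = 2 * (∑ j, dz j (fun w => W w j) z).re := by
  rw [divg, re_sum, Finset.mul_sum]
  refine Finset.sum_congr rfl fun j _ => ?_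
  have h1 := (reCLM.hasFDerivAt.comp z (h j).hasFDerivAt).fderiv
  have h2 := (imCLM.hasFDerivAt.comp z (h j).hasFDerivAt).fderiv
  rw [show (fun w => (W w j).re) = reCLM ∘ fun w => W w j from rfl,
    show (fun w => (W w j).im) = imCLM ∘ fun w => W w j from rfl, h1, h2, dz]
  simp
  ring

lemma inv_form {ι : Type} [Fintype ι] [DecidableEq ι] (B M : Matrix ι ι ℂ) (hB : B.det = 1)
    (π : ι → ℂ) : star (B *ᵥ π) ⬝ᵥ (B * M * Bᴴ)⁻¹ *ᵥ (B *ᵥ π) = star π ⬝ᵥ M⁻¹ *ᵥ π := by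
  have h1 : IsUnit B.det := by simp [hB]
  have h2 : IsUnit Bᴴ.det := by simp [det_conjTranspose, hB]
  rw [star_mulVec, ← dotProduct_mulVec, mulVec_mulVec, mulVec_mulVec, Matrix.mul_inv_rev,
    Matrix.mul_inv_rev, ← Matrix.mul_assoc, ← Matrix.mul_assoc, mul_nonsing_inv _ h2,
    Matrix.one_mul, Matrix.mul_assoc, nonsing_inv_mul _ h1, Matrix.mul_one]

/-- Lipschitz functions converge along Cauchy sequences -/
lemma exists_lim {X : Set (Fin n → ℂ)} {g : (Fin n → ℂ) → Matrix (Fin n) (Fin n) ℂ}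
    (hX : IsOpen X) {f : (Fin n → ℂ) → ℝ} (hf : ∀ z ∈ X, ContDiffAt ℝ ∞ f z) {C : ℝ} (hC : 0 < C)
    (h : ∀ z ∈ X, ∀ v, (fderiv ℝ f z v) ^ 2 ≤ C ^ 2 * normSq g z v) {u : ℕ → Fin n → ℂ}
    (hc : ∀ ε : ENNReal, 0 < ε → ∃ N, ∀ m ≥ N, ∀ m' ≥ N, rdist X g (u m) (u m') < ε) :
    ∃ L, Tendsto (fun m => f (u m)) atTop (𝓝 L) := by
  have key : ∀ p q, ENNReal.ofReal |C⁻¹ * f q - C⁻¹ * f p| ≤ rdist X g p q := by
    intro p q
    refine le_rdist hX (f := fun z => C⁻¹ * f z) (fun z hz =>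
      ((contDiffAt_const.mul (hf z hz)).of_le (by simp)).contDiffWithinAt) (fun z hz v => ?_) p q
    rw [(((hf z hz).differentiableAt (by simp)).hasFDerivAt.const_mul C⁻¹).fderiv]
    simp only [_root_.smul_apply, smul_eq_mul, mul_pow, inv_pow]
    rw [inv_mul_le_iff₀ (by positivity)]
    exact h z hz v
  refine cauchySeq_tendsto_of_complete ?_
  rw [Metric.cauchySeq_iff]
  intro ε hε
  obtain ⟨N, hN⟩ := hc (ENNReal.ofReal (C⁻¹ * ε)) (by simp [hε, hC])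
  refine ⟨N, fun m hm m' hm' => ?_⟩
  have := (key _ _).trans_lt (hN m' hm' m hm)
  rw [ENNReal.ofReal_lt_ofReal_iff (by positivity), ← mul_sub, abs_mul,
    abs_of_pos (inv_pos.2 hC)] at this
  rw [Real.dist_eq]
  exact lt_of_mul_lt_mul_left this (inv_pos.2 hC).le

end Pool.Agent.P.MP_164ed8_gt.Q1
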