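import Pool.Agent.P.MP_164ed8_gt.Metric
import Pool.Agent.Lib.Kahler.Bump

namespace Pool.Agent.P.MP_164ed8_gt

open Set Filter Topology Complex Matrix Pool.Agent.Lib.Kahler MeasureTheory
open scoped ComplexOrder ContDiff

variable {n : ℕ}

lemma fderiv_prod {h : Fin n → ℂ → ℝ} {h' : Fin n → ℂ →L[ℝ] ℝ} {z : Fin n → ℂ}
    (H : ∀ k, HasFDerivAt (h k) (h' k) (z k)) (j : Fin n) (e : ℂ) :
    fderiv ℝ (fun w : Fin n → ℂ => ∏ k, h k (w k)) z (Pi.single j e) =
      (∏ k ∈ Finset.univ.erase j, h k (z k)) * h' j e := by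
  have := HasFDerivAt.finsetProd (u := Finset.univ) (g := fun k (w : Fin n → ℂ) => h k (w k))
    fun k _ => HasFDerivAt.comp (g := h k) (f := fun w : Fin n → ℂ => w k) z (H k)
      (hasFDerivAt_apply k z)
  rw [this.fderiv, _root_.sum_apply, Finset.sum_eq_single j]
  · simp
  · intro b _ hb; simp [hb]
  · simp

lemma lower {c : ℝ} (hc : 0 ≤ c) (hc1 : c ≤ 1) : (n : ℝ) / 4 ≤ lambda0 (XS n) (gS c) := by
  let h : Fin n → Fin n → ℝ → ℝ := fun j k y =>
    if k = j then Real.cos y / Real.sin y / 2 else rho c y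
  have hs : ∀ j k, ∀ y ∈ Ioo 0 Real.pi, ContDiffAt ℝ ∞ (h j k) y := by
    intro j k y hy
    by_cases e : k = j
    · simp only [h, e, if_true]
      exact (Real.contDiff_cos.contDiffAt.div Real.contDiff_sin.contDiffAt
        (sin_pos' hy).ne').div_const 2
    · simp only [h, e, if_false]
      exact contDiffAt_rho c hy
  have hp : ∀ (z : Fin n → ℂ) j, ∏ k ∈ Finset.univ.erase j, h j k (z k).im =
      ∏ k ∈ Finset.univ.erase j, rho c (z k).im := fun z j =>
    Finset.prod_congr rfl fun k hk => by simp [h, Finset.ne_of_mem_erase hk]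
  refine le_lambda0 isOpen_XS ⟨_, mem_XS⟩ (fun j k => (contDiffOn_gS c j k).continuousOn)
    (fun z hz => posDef_gS hc hz)
    (fun z j => I * ((Real.cos (z j).im / Real.sin (z j).im / 2 / rho c (z j).im : ℝ) : ℂ))
    (fun z j => I * ((∏ k, h j k (z k).im : ℝ) : ℂ)) (fun z hz => ?_) (fun z hz => ?_) _
    (fun z hz => ?_)
  · refine ContDiffAt.contDiffWithinAt (contDiffAt_pi.2 fun j => contDiffAt_const.mul ?_)
    have : ContDiffAt ℝ 1 (fun w : Fin n → ℂ => ∏ k, h j k (w k).im) z :=
      contDiffAt_prod fun k _ => ((hs j k _ (hz k)).comp z (contDiffAt_im z k)).of_le (by simp)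
    exact ofRealCLM.contDiff.contDiffAt.comp z this
  · funext j
    have := (rho_pos hc (hz j)).ne'
    rw [det_gS, ← Finset.mul_prod_erase _ _ (Finset.mem_univ j),
      ← Finset.mul_prod_erase _ _ (Finset.mem_univ j), hp, Pi.smul_apply, real_smul,
      mul_left_comm, ← ofReal_mul]
    congr 2
    simp only [h, if_true]
    field_simp
  · have e1 : divg (fun z j => I * ((∏ k, h j k (z k).im : ℝ) : ℂ)) z =
        ∑ j, (∏ k ∈ Finset.univ.erase j, rho c (z k).im) * (-(Real.sin (z j).im ^ 2)⁻¹ / 2) := by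
      refine Finset.sum_congr rfl fun j _ => ?_
      simp only [mul_re, mul_im, I_re, I_im, ofReal_re, ofReal_im, zero_mul, mul_zero, one_mul,
        sub_zero, zero_add, fderiv_fun_const, Pi.zero_apply, _root_.zero_apply]
      rw [fderiv_prod (h := fun k w => h j k w.im) (fun k => hasFDerivAt_im
        ((hs j k _ (hz k)).differentiableAt (by simp)).hasDerivAt), hp]
      have hsn := (sin_pos' (hz j)).ne'
      have hd := ((Real.hasDerivAt_cos (z j).im).fun_div (Real.hasDerivAt_sin (z j).im)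
        hsn).div_const 2
      have : h j j = fun y => Real.cos y / Real.sin y / 2 := by funext y; simp [h]
      rw [this, hd.deriv]
      congr 1
      have h3 := Real.sin_sq_add_cos_sq (z j).im
      simp only [_root_.smul_apply, imCLM_apply, I_im, smul_eq_mul, mul_one]
      linear_combination (-(Real.sin (z j).im ^ 2)⁻¹ / 2) * h3
    rw [e1, normSq_gS, Finset.mul_sum, ← Finset.sum_neg_distrib, ← Finset.sum_sub_distrib]
    have e2 : (n : ℝ) / 4 * (gS c z).det.re = ∑ _j : Fin n, (gS c z).det.re / 4 := by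
      simp; ring
    rw [e2]
    refine Finset.sum_le_sum fun j _ => ?_
    rw [det_gS, ← Finset.mul_prod_erase _ _ (Finset.mem_univ j)]
    have hP : 0 ≤ ∏ k ∈ Finset.univ.erase j, rho c (z k).im :=
      Finset.prod_nonneg fun k _ => (rho_pos hc (hz k)).le
    generalize ∏ k ∈ Finset.univ.erase j, rho c (z k).im = P at hP
    have hr := (rho_pos hc (hz j)).ne'
    have hsn := (sin_pos' (hz j)).ne'
    have h3 := Real.sin_sq_add_cos_sq (z j).im
    have e3 : rho c (z j).im * P * (rho c (z j).im * ‖I * ((Real.cos (z j).im / Real.sin (z j).im /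
        2 / rho c (z j).im : ℝ) : ℂ)‖ ^ 2) = P * (((Real.sin (z j).im ^ 2)⁻¹ - 1) / 4) := by
      rw [norm_mul, norm_I, one_mul, norm_real, Real.norm_eq_abs, sq_abs]
      field_simp
      linear_combination (4 * P) * h3
    rw [e3]
    unfold rho
    nlinarith [mul_nonneg hP (sub_nonneg.2 hc1)]

lemma integral_re_im {u v : ℝ → ℝ} (hu : Integrable u) (hv : Integrable v) :
    Integrable (fun w : ℂ => u w.re * v w.im) ∧ ∫ w : ℂ, u w.re * v w.im = (∫ x, u x) * ∫ y, v y := by
  have h := volume_preserving_equiv_real_prod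
  constructor
  · exact (h.integrable_comp_emb measurableEquivRealProd.measurableEmbedding).2 (hu.mul_prod hv)
  · rw [← integral_prod_mul]
    exact h.integral_comp' fun p => u p.1 * v p.2

lemma subst_exp (H : ℝ → ℝ) (hH : ∀ y ≤ 0, H y = 0) :
    ∫ y, H y = ∫ s, Real.exp s * H (Real.exp s) := by
  rw [← setIntegral_eq_integral_of_forall_compl_eq_zero (s := Ioi 0)
    (fun y hy => hH y (not_lt.1 hy)), ← Real.range_exp, ← image_univ,
    integral_image_eq_integral_abs_deriv_smul MeasurableSet.univ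
      (fun s _ => (Real.hasDerivAt_exp s).hasDerivWithinAt) Real.exp_injective.injOn,
    Measure.restrict_univ]
  simp [abs_of_pos (Real.exp_pos _)]

/-- Hardy type test function in the vertical variable -/
lemma exists_vert {ε : ℝ} (hε : 0 < ε) : ∃ b : ℝ → ℝ, ContDiff ℝ ∞ b ∧ HasCompactSupport b ∧
    tsupport b ⊆ Ioo 0 Real.pi ∧ Integrable (fun y => b y ^ 2 * rho 0 y) ∧
    0 < ∫ y, b y ^ 2 * rho 0 y ∧ ∫ y, b y ^ 2 ≤ ∫ y, b y ^ 2 * rho 0 y ∧
    ∫ y, deriv b y ^ 2 ≤ (1 / 4 + ε) * ∫ y, b y ^ 2 * rho 0 y := by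
  obtain ⟨F, hF, hc, hs, hpos, hle⟩ := exists_flat_bump hε
  let b : ℝ → ℝ := (Ioi (0 : ℝ)).indicator fun y => Real.exp (Real.log y / 2) * F (Real.log y)
  let K : Set ℝ := Real.exp '' tsupport F
  have hKc : IsCompact K := hc.isCompact.image Real.continuous_exp
  have hK : K ⊆ Ioo 0 Real.pi := by
    rintro _ ⟨s, h, rfl⟩
    refine ⟨Real.exp_pos s, ?_⟩
    have : Real.exp s < 1 := Real.exp_lt_one_iff.2 (hs h)
    linarith [Real.pi_gt_three]
  have hbK : ∀ y, y ∉ K → b y = 0 := by
    intro y hy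
    by_cases h : y ∈ Ioi (0 : ℝ)
    · have : Real.log y ∉ tsupport F := fun h2 => hy ⟨_, h2, Real.exp_log h⟩
      simp [b, h, image_eq_zero_of_notMem_tsupport this]
    · simp [b, h]
  have hbe : ∀ y ∈ Ioi (0 : ℝ), b =ᶠ[𝓝 y] fun y => Real.exp (Real.log y / 2) * F (Real.log y) := by
    intro y hy
    filter_upwards [isOpen_Ioi.mem_nhds hy] with v hv
    simp [b, hv]
  have hb : ContDiff ℝ ∞ b := by
    rw [contDiff_iff_contDiffAt]
    intro y
    by_cases h : y ∈ Ioi (0 : ℝ)
    · have hl : ContDiffAt ℝ ∞ Real.log y := Real.contDiffAt_log.2 (ne_of_gt h)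
      exact (((hl.div_const 2).exp).mul (hF.contDiffAt.comp y hl)).congr_of_eventuallyEq (hbe y h)
    · refine (contDiffAt_const (c := (0 : ℝ))).congr_of_eventuallyEq ?_
      filter_upwards [hKc.isClosed.isOpen_compl.mem_nhds fun h2 => h (hK h2).1] with v hv
      exact hbK v hv
  have hsup : tsupport b ⊆ K :=
    closure_minimal (fun y hy => by_contra fun h => hy (hbK _ h)) hKc.isClosed
  have hcs : HasCompactSupport b := hKc.of_isClosed_subset (isClosed_tsupport _) hsup
  have integ : ∀ G : ℝ → ℝ, ContinuousOn G (Ioo 0 Real.pi) →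
      Integrable fun y => b y ^ 2 * G y := by
    intro G hG
    have := (((hb.continuous.pow 2).continuousOn.mul hG).mono hK).integrableOn_compact
      (μ := volume) hKc
    refine (integrableOn_iff_integrable_of_support_subset fun y hy => ?_).1 this
    by_contra h
    exact hy (by simp [hbK y h])
  have i1 := integ (rho 0) fun y hy => (contDiffAt_rho 0 hy).continuousAt.continuousWithinAt
  have i2 := integ (fun y => (y ^ 2)⁻¹) fun y hy =>
    ((continuousAt_id.pow 2).inv₀ (pow_ne_zero 2 hy.1.ne')).continuousWithinAt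
  have i3 := integ (fun _ => 1) continuousOn_const
  have cmp : ∀ G : ℝ → ℝ, (∀ y ∈ Ioo 0 Real.pi, G y ≤ rho 0 y) → ∀ y,
      b y ^ 2 * G y ≤ b y ^ 2 * rho 0 y := by
    intro G hG y
    by_cases h : y ∈ K
    · exact mul_le_mul_of_nonneg_left (hG y (hK h)) (sq_nonneg _)
    · simp [hbK y h]
  have e1 : ∫ y, b y ^ 2 * (y ^ 2)⁻¹ = ∫ s, F s ^ 2 := by
    rw [subst_exp _ fun y hy => by simp [b, hy]]
    refine integral_congr_ae (Eventually.of_forall fun s => ?_)
    have h1 : Real.exp (s / 2) ^ 2 = Real.exp s := by rw [← Real.exp_nat_mul]; congr 1; ring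
    have h2 := (Real.exp_pos s).ne'
    simp only [b, indicator_of_mem (mem_Ioi.2 (Real.exp_pos s)), Real.log_exp, mul_pow, h1]
    field_simp
  have e2 : ∫ y, deriv b y ^ 2 = ∫ s, (1 / 2 * F s + deriv F s) ^ 2 := by
    rw [subst_exp _ fun y hy => by
      have : y ∉ tsupport b := fun h => (hK (hsup h)).1.not_ge hy
      rw [(notMem_tsupport_iff_eventuallyEq.1 this).deriv_eq]; simp]
    refine integral_congr_ae (Eventually.of_forall fun s => ?_)
    have h1 : Real.exp (s / 2) ^ 2 = Real.exp s := by rw [← Real.exp_nat_mul]; congr 1; ring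
    have h2 := (Real.exp_pos s).ne'
    have hl := Real.hasDerivAt_log h2
    have := (((hl.div_const 2).exp).fun_mul
      ((hF.differentiable (by simp) _).hasDerivAt.comp _ hl)).congr_of_eventuallyEq
        (hbe _ (Real.exp_pos s))
    simp only [this.deriv, Function.comp, Real.log_exp]
    field_simp
    rw [h1]
  have c1 : ∫ s, F s ^ 2 ≤ ∫ y, b y ^ 2 * rho 0 y := by
    rw [← e1]
    refine integral_mono i2 i1 (cmp _ fun y hy => ?_)
    rw [rho, add_zero]
    exact inv_anti₀ (pow_pos (sin_pos' hy) 2) Real.sin_sq_le_sq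
  refine ⟨b, hb, hcs, hsup.trans hK, i1, hpos.trans_le c1, ?_, ?_⟩
  · have := integral_mono i3 i1 (cmp _ fun y hy => one_le_rho le_rfl hy)
    simpa using this
  · rw [e2]
    refine (hle (1 / 2)).trans ?_
    rw [show (1 / 2 : ℝ) ^ 2 = 1 / 4 by norm_num]
    exact mul_le_mul_of_nonneg_left c1 (by positivity)

lemma gradSq_gS {c : ℝ} (hc : 0 ≤ c) {z : Fin n → ℂ} (hz : z ∈ XS n) {φ : (Fin n → ℂ) → ℝ}
    (h : DifferentiableAt ℝ φ z) : gradSq (gS c) φ z = ∑ j, (fderiv ℝ φ z (Pi.single j 1) ^ 2 +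
      fderiv ℝ φ z (Pi.single j I) ^ 2) / rho c (z j).im := by
  have e : (gS c z)⁻¹ = Matrix.diagonal fun j => (((rho c (z j).im)⁻¹ : ℝ) : ℂ) := by
    apply inv_eq_right_inv
    rw [gS, diagonal_mul_diagonal, ← diagonal_one]
    congr 1
    funext j
    rw [← ofReal_mul, mul_inv_cancel₀ (rho_pos hc (hz j)).ne', ofReal_one]
  rw [gradSq, e, re_sum, Finset.mul_sum]
  refine Finset.sum_congr rfl fun j _ => ?_
  rw [Finset.sum_eq_single j (by intro b _ hb; simp [hb.symm]) (by simp), diagonal_apply_eq,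
    dz_real h, mul_right_comm, conj_mul', ← ofReal_pow, ← ofReal_mul, ofReal_re, Complex.sq_norm,
    normSq_apply]
  simp
  ring

lemma upper (hn : 1 ≤ n) : lambda0 (XS n) (gS 0) ≤ (n : ℝ) / 4 := by
  refine le_of_forall_pos_le_add fun ε hε => ?_
  have hn0 : (0 : ℝ) < n := by exact_mod_cast hn
  obtain ⟨a, ha, hac, -, hapos, hale⟩ := exists_flat_bump (ε := ε / (2 * n)) (by positivity)
  obtain ⟨b, hb, hbc, hbs, ib, hbpos, hb1, hb2⟩ := exists_vert (ε := ε / (2 * n)) (by positivity)
  have sqint : ∀ u : ℝ → ℝ, ContDiff ℝ ∞ u → HasCompactSupport u →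
      Integrable (fun x => u x ^ 2) ∧ Integrable (fun x => deriv u x ^ 2) := fun u hu hc =>
    ⟨Continuous.integrable_of_hasCompactSupport (f := fun s => u s ^ 2) (hu.continuous.pow 2)
      (hc.comp_left (g := fun x : ℝ => x ^ 2) (by simp)),
    Continuous.integrable_of_hasCompactSupport (f := fun s => deriv u s ^ 2)
      ((hu.continuous_deriv (by simp)).pow 2)
      (hc.deriv.comp_left (g := fun x : ℝ => x ^ 2) (by simp))⟩
  obtain ⟨ia, ia'⟩ := sqint a ha hac
  obtain ⟨ib0, ib'⟩ := sqint b hb hbc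
  let f : ℂ → ℝ := fun w => a w.re * b w.im
  let φ : (Fin n → ℂ) → ℝ := fun z => ∏ k, f (z k)
  have hf : ContDiff ℝ ∞ f := (ha.comp reCLM.contDiff).mul (hb.comp imCLM.contDiff)
  have hφ : ContDiff ℝ ∞ φ := contDiff_prod fun k _ => hf.comp (contDiff_apply ℝ ℂ k)
  have hfd : ∀ w, HasFDerivAt f (a w.re • (deriv b w.im • imCLM) + b w.im • (deriv a w.re • reCLM))
      w := fun w =>
    ((ha.differentiable (by simp) _).hasDerivAt.comp_hasFDerivAt w reCLM.hasFDerivAt).fun_mul
      (hasFDerivAt_im (hb.differentiable (by simp) _).hasDerivAt)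
  let Kc : Set ℂ := tsupport a ×ℂ tsupport b
  have hKc : IsCompact Kc := hac.isCompact.reProdIm hbc.isCompact
  have hsup : tsupport φ ⊆ Set.pi univ fun _ => Kc := by
    refine closure_minimal (fun z hz k _ => ?_) (isClosed_set_pi fun _ _ => hKc.isClosed)
    have h1 : f (z k) ≠ 0 := Finset.prod_ne_zero_iff.1 hz k (Finset.mem_univ k)
    exact ⟨subset_tsupport _ (left_ne_zero_of_mul h1), subset_tsupport _ (right_ne_zero_of_mul h1)⟩
  have hX : tsupport φ ⊆ XS n := fun z hz k => hbs (hsup hz k trivial).2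
  have hcs : HasCompactSupport φ :=
    (isCompact_univ_pi fun _ => hKc).of_isClosed_subset (isClosed_tsupport _) hsup
  have out : ∀ z ∉ XS n, ∃ k, b (z k).im = 0 ∧ deriv b (z k).im = 0 := by
    intro z hz
    obtain ⟨k, hk⟩ := not_forall.1 hz
    have : (z k).im ∉ tsupport b := fun h => hk (hbs h)
    refine ⟨k, image_eq_zero_of_notMem_tsupport this, ?_⟩
    rw [(notMem_tsupport_iff_eventuallyEq.1 this).deriv_eq]; simp
  let h1 : ℂ → ℝ := fun w => deriv a w.re ^ 2 * b w.im ^ 2 + a w.re ^ 2 * deriv b w.im ^ 2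
  let h2 : ℂ → ℝ := fun w => a w.re ^ 2 * (b w.im ^ 2 * rho 0 w.im)
  obtain ⟨j1, k1⟩ := integral_re_im ia' ib0
  obtain ⟨j2, k2⟩ := integral_re_im ia ib'
  obtain ⟨j3, k3⟩ := integral_re_im ia ib
  have i1 : Integrable h1 := j1.add j2
  set D := ∫ w, h2 w with hD
  have hD0 : 0 < D := by rw [k3]; positivity
  have hA : ∫ w, h1 w ≤ (1 / 4 + ε / n) * D := by
    rw [integral_add j1 j2, k1, k2, k3]
    have t1 := hale 0
    simp only [zero_mul, zero_add, ne_eq, OfNat.ofNat_ne_zero, not_false_eq_true, zero_pow] at t1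
    have t2 := mul_le_mul t1 hb1 (integral_nonneg fun _ => sq_nonneg _) (by positivity)
    have t3 := mul_le_mul_of_nonneg_left hb2 hapos.le
    have t4 : ε / n = 2 * (ε / (2 * n)) := by field_simp
    rw [t4]
    linarith
  have hden : ∫ z, φ z ^ 2 * (gS 0 z).det.re = D ^ n := by
    have : ∀ z, φ z ^ 2 * (gS 0 z).det.re = ∏ k, h2 (z k) := by
      intro z
      rw [det_gS, ← Finset.prod_pow, ← Finset.prod_mul_distrib]
      exact Finset.prod_congr rfl fun k _ => by simp only [f, h2]; ring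
    simp only [this]
    rw [integral_fintype_prod_volume_eq_pow, Fintype.card_fin]
  have hnum : ∫ z, gradSq (gS 0) φ z * (gS 0 z).det.re = n * ((∫ w, h1 w) * D ^ (n - 1)) := by
    have : ∀ z, gradSq (gS 0) φ z * (gS 0 z).det.re =
        ∑ j, ∏ k, (if k = j then h1 else h2) (z k) := by
      intro z
      by_cases hz : z ∈ XS n
      · rw [gradSq_gS le_rfl hz (hφ.differentiable (by simp) z), Finset.sum_mul]
        refine Finset.sum_congr rfl fun j _ => ?_
        rw [fderiv_prod (h := fun _ => f) (fun k => hfd (z k)),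
          fderiv_prod (h := fun _ => f) (fun k => hfd (z k)), det_gS,
          ← Finset.mul_prod_erase _ _ (Finset.mem_univ j),
          ← Finset.mul_prod_erase _ _ (Finset.mem_univ j)]
        have e : ∏ k ∈ Finset.univ.erase j, (if k = j then h1 else h2) (z k) =
            (∏ k ∈ Finset.univ.erase j, f (z k)) ^ 2 *
              ∏ k ∈ Finset.univ.erase j, rho 0 (z k).im := by
          rw [← Finset.prod_pow, ← Finset.prod_mul_distrib]
          refine Finset.prod_congr rfl fun k hk => ?_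
          simp only [Finset.ne_of_mem_erase hk, if_false, f, h2]; ring
        have hr := (rho_pos le_rfl (hz j)).ne'
        rw [e]
        simp [h1]
        field_simp
      · rw [gradSq_eq_zero fun h => hz (hX h), zero_mul]
        obtain ⟨k, hk1, hk2⟩ := out z hz
        refine (Finset.sum_eq_zero fun j _ => Finset.prod_eq_zero (Finset.mem_univ k) ?_).symm
        split_ifs <;> simp [h1, h2, hk1, hk2]
    simp only [this]
    rw [integral_finsetSum]
    · have : ∀ j : Fin n, ∫ z : Fin n → ℂ, ∏ k, (if k = j then h1 else h2) (z k) =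
          (∫ w, h1 w) * D ^ (n - 1) := by
        intro j
        rw [integral_fintype_prod_volume_eq_prod (f := fun k => if k = j then h1 else h2),
          ← Finset.mul_prod_erase _ _ (Finset.mem_univ j), if_pos rfl,
          Finset.prod_congr rfl (g := fun _ => D)
            (fun k hk => by simp only [Finset.ne_of_mem_erase hk, if_false, hD])]
        simp
      simp [this]
    · intro j _
      refine Integrable.fintype_prod (f := fun k => if k = j then h1 else h2) fun k => ?_
      split_ifs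
      exacts [i1, j3]
  have hne : φ ≠ 0 := by
    intro h
    rw [h] at hden
    have := pow_pos hD0 n
    rw [← hden] at this
    simp at this
  refine (lambda0_le (fun z hz => posDef_gS le_rfl hz) hφ hcs hX hne).trans ?_
  rw [hnum, hden, div_le_iff₀ (pow_pos hD0 n)]
  obtain ⟨m, rfl⟩ : ∃ m, n = m + 1 := ⟨n - 1, by omega⟩
  rw [Nat.add_sub_cancel, pow_succ]
  have t1 := mul_le_mul_of_nonneg_left (mul_le_mul_of_nonneg_right hA (pow_pos hD0 m).le) hn0.le
  refine t1.trans (le_of_eq ?_)
  field_simp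

lemma gS_ne (hn : 1 ≤ n) : gS 1 (fun _ => I : Fin n → ℂ) ≠ gS 0 (fun _ => I) := by
  intro h
  have := congrFun (congrFun h ⟨0, hn⟩) ⟨0, hn⟩
  simp [gS, rho] at this

lemma mem_XS' : (fun _ => (Real.pi / 2 : ℝ) * I : Fin n → ℂ) ∈ XS n := fun _ => by
  have := Real.pi_pos
  simp only [mul_im, ofReal_re, I_im, mul_one, ofReal_im, I_re, mul_zero, add_zero, mem_Ioo]
  constructor <;> linarith

lemma not_einstein (hn : 1 ≤ n) : ricci (gS 1) (fun _ => (Real.pi / 2 : ℝ) * I : Fin n → ℂ)
    (fun _ => 1) ≠ - normSq (gS 1) (fun _ => (Real.pi / 2 : ℝ) * I : Fin n → ℂ) (fun _ => 1) := by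
  have hn0 : (0 : ℝ) < n := by exact_mod_cast hn
  rw [ricci_gS zero_le_one mem_XS', normSq_gS]
  simp only [mul_im, ofReal_re, I_im, mul_one, ofReal_im, I_re, mul_zero, add_zero, l2, rho,
    Real.sin_pi_div_two, Real.cos_pi_div_two, norm_one, Finset.sum_const, Finset.card_univ,
    Fintype.card_fin, nsmul_eq_mul]
  norm_num
  linarith

end Pool.Agent.P.MP_164ed8_gt
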