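import Pool.Agent.P.MP_164ed8_gt.Q1Dom
import Pool.Agent.P.MP_164ed8_gt.Spectrum

namespace Pool.Agent.P.MP_164ed8_gt.Q1

open Set Filter Topology Complex Pool.Agent.Lib.Kahler MeasureTheory
open scoped ContDiff

/-- Hardy type test function in the vertical variable -/
lemma exists_vert' {ε : ℝ} (hε : 0 < ε) : ∃ b : ℝ → ℝ, ContDiff ℝ ∞ b ∧ HasCompactSupport b ∧
    tsupport b ⊆ Ioo 0 1 ∧ Integrable (fun y => b y ^ 2 * (y ^ 2)⁻¹) ∧
    0 < ∫ y, b y ^ 2 * (y ^ 2)⁻¹ ∧ ∫ y, b y ^ 2 ≤ ∫ y, b y ^ 2 * (y ^ 2)⁻¹ ∧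
    ∫ y, deriv b y ^ 2 ≤ (1 / 4 + ε) * ∫ y, b y ^ 2 * (y ^ 2)⁻¹ := by
  obtain ⟨F, hF, hc, hs, hpos, hle⟩ := exists_flat_bump hε
  let b : ℝ → ℝ := (Ioi (0 : ℝ)).indicator fun y => Real.exp (Real.log y / 2) * F (Real.log y)
  let K : Set ℝ := Real.exp '' tsupport F
  have hKc : IsCompact K := hc.isCompact.image Real.continuous_exp
  have hK : K ⊆ Ioo 0 1 := by
    rintro _ ⟨s, h, rfl⟩
    exact ⟨Real.exp_pos s, Real.exp_lt_one_iff.2 (hs h)⟩
  have hbK : ∀ y, y ∉ K → b y = 0 := by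
    intro y hy
    by_cases h : y ∈ Ioi (0 : ℝ)
    · have : Real.log y ∉ tsupport F := fun h2 => hy ⟨_, h2, Real.exp_log h⟩
      simp [b, h, image_eq_zero_of_notMem_tsupport this]
    · simp [b, h]
  have hbe : ∀ y ∈ Ioi (0 : ℝ), b =ᶠ[𝓝 y] fun y => Real.exp (Real.log y / 2) * F (Real.log y) := by
    intro y hy
    filter_upwards [isOpen_Ioi.mem_nhds hy] with v hv
    simp [b, hv]
  have hb : ContDiff ℝ ∞ b := by
    rw [contDiff_iff_contDiffAt]
    intro y
    by_cases h : y ∈ Ioi (0 : ℝ)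
    · have hl : ContDiffAt ℝ ∞ Real.log y := Real.contDiffAt_log.2 (ne_of_gt h)
      exact (((hl.div_const 2).exp).mul (hF.contDiffAt.comp y hl)).congr_of_eventuallyEq (hbe y h)
    · refine (contDiffAt_const (c := (0 : ℝ))).congr_of_eventuallyEq ?_
      filter_upwards [hKc.isClosed.isOpen_compl.mem_nhds fun h2 => h (hK h2).1] with v hv
      exact hbK v hv
  have hsup : tsupport b ⊆ K :=
    closure_minimal (fun y hy => by_contra fun h => hy (hbK _ h)) hKc.isClosed
  have hcs : HasCompactSupport b := hKc.of_isClosed_subset (isClosed_tsupport _) hsup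
  have integ : ∀ G : ℝ → ℝ, ContinuousOn G (Ioo 0 1) →
      Integrable fun y => b y ^ 2 * G y := by
    intro G hG
    have := (((hb.continuous.pow 2).continuousOn.mul hG).mono hK).integrableOn_compact
      (μ := volume) hKc
    refine (integrableOn_iff_integrable_of_support_subset fun y hy => ?_).1 this
    by_contra h
    exact hy (by simp [hbK y h])
  have i2 := integ (fun y => (y ^ 2)⁻¹) fun y hy =>
    ((continuousAt_id.pow 2).inv₀ (pow_ne_zero 2 hy.1.ne')).continuousWithinAt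
  have i3 := integ (fun _ => 1) continuousOn_const
  have e1 : ∫ y, b y ^ 2 * (y ^ 2)⁻¹ = ∫ s, F s ^ 2 := by
    rw [subst_exp _ fun y hy => by simp [b, hy]]
    refine integral_congr_ae (Eventually.of_forall fun s => ?_)
    have h1 : Real.exp (s / 2) ^ 2 = Real.exp s := by rw [← Real.exp_nat_mul]; congr 1; ring
    have h2 := (Real.exp_pos s).ne'
    simp only [b, indicator_of_mem (mem_Ioi.2 (Real.exp_pos s)), Real.log_exp, mul_pow, h1]
    field_simp
  have e2 : ∫ y, deriv b y ^ 2 = ∫ s, (1 / 2 * F s + deriv F s) ^ 2 := by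
    rw [subst_exp _ fun y hy => by
      have : y ∉ tsupport b := fun h => (hK (hsup h)).1.not_ge hy
      rw [(notMem_tsupport_iff_eventuallyEq.1 this).deriv_eq]; simp]
    refine integral_congr_ae (Eventually.of_forall fun s => ?_)
    have h1 : Real.exp (s / 2) ^ 2 = Real.exp s := by rw [← Real.exp_nat_mul]; congr 1; ring
    have h2 := (Real.exp_pos s).ne'
    have hl := Real.hasDerivAt_log h2
    have := (((hl.div_const 2).exp).fun_mul
      ((hF.differentiable (by simp) _).hasDerivAt.comp _ hl)).congr_of_eventuallyEq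
        (hbe _ (Real.exp_pos s))
    simp only [this.deriv, Function.comp, Real.log_exp]
    field_simp
    rw [h1]
  refine ⟨b, hb, hcs, hsup.trans hK, i2, by rwa [e1], ?_, ?_⟩
  · have := integral_mono i3 i2 fun y => by
      by_cases h : y ∈ K
      · have := hK h
        exact mul_le_mul_of_nonneg_left ((one_le_inv₀ (pow_pos this.1 2)).2
          (pow_le_one₀ this.1.le this.2.le)) (sq_nonneg _)
      · simp [hbK y h]
    simpa using this
  · rw [e2, e1]
    refine (hle (1 / 2)).trans_eq ?_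
    norm_num

lemma radial (u : ℝ → ℝ) (h0 : ∀ q, 1 < q → u q = 0) :
    ∫ w : ℂ, u (‖w‖ ^ 2) = volume.real (Metric.ball (0 : ℂ) 1) * ∫ q in (0 : ℝ)..1, u q := by
  rw [integral_fun_norm_addHaar volume fun y => u (y ^ 2), intervalIntegral.integral_of_le
    zero_le_one, ← setIntegral_eq_of_subset_of_forall_sdiff_eq_zero measurableSet_Ioi
    Ioc_subset_Ioi_self (fun q hq => h0 q (by
      by_contra h
      exact hq.2 ⟨hq.1, not_lt.1 h⟩)), ← integral_comp_rpow_Ioi u two_ne_zero]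
  simp only [finrank_real_complex, smul_eq_mul, nsmul_eq_mul]
  rw [mul_left_comm, ← integral_const_mul]
  congr 1
  refine setIntegral_congr_fun measurableSet_Ioi fun y _ => ?_
  norm_num
  ring

lemma scale (u : ℝ → ℝ) {e : ℝ} (he : 0 < e) :
    ∫ w : ℂ, u (‖w‖ ^ 2 * e) * e = ∫ w : ℂ, u (‖w‖ ^ 2) := by
  have := Measure.integral_comp_smul volume (fun w : ℂ => u (‖w‖ ^ 2)) √e
  simp only [norm_smul, mul_pow, Real.norm_eq_abs, sq_abs, Real.sq_sqrt he.le,
    finrank_real_complex, smul_eq_mul, abs_of_pos (inv_pos.2 he)] at this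
  rw [integral_mul_const]
  simp only [mul_comm _ e]
  rw [this]
  field_simp

lemma fubini (u : Fin 2 → ℝ → ℝ) (h : PP → ℂ → ℝ)
    (hi : Integrable fun z : EE => (∏ i, (u i (QQ z i) * ee z i)) * ∏ p, h p (z (eJ (.inl p)))) :
    ∫ z : EE, (∏ i, (u i (QQ z i) * ee z i)) * ∏ p, h p (z (eJ (.inl p))) =
      (∏ i, ∫ w : ℂ, u i (‖w‖ ^ 2)) * ∏ p, ∫ w, h p w := by
  have m := (volume_measurePreserving_piCongrLeft (fun _ : Fin 20 => ℂ) eJ).comp
    (volume_measurePreserving_sumPiEquivProdPi_symm fun _ : JJ => ℂ)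
  let T := (MeasurableEquiv.sumPiEquivProdPi fun _ : JJ => ℂ).symm.trans
    (MeasurableEquiv.piCongrLeft (fun _ : Fin 20 => ℂ) eJ)
  have m' : MeasurePreserving T volume volume := m
  have t1 : ∀ x p, T x (eJ (.inl p)) = x.1 p := fun x p =>
    MeasurableEquiv.piCongrLeft_apply_apply eJ (β := fun _ => ℂ) _ _
  have t2 : ∀ x i, T x (eJ (.inr i)) = x.2 i := fun x p =>
    MeasurableEquiv.piCongrLeft_apply_apply eJ (β := fun _ => ℂ) _ _
  rw [← m'.integral_comp', Measure.volume_eq_prod,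
    integral_prod (fun x => (∏ i, (u i (QQ (T x) i) * ee (T x) i)) * ∏ p, h p (T x (eJ (.inl p))))
      ((m'.integrable_comp_emb T.measurableEmbedding).2 hi),
    ← integral_fintype_prod_volume_eq_prod (f := h), ← integral_const_mul]
  refine integral_congr_ae (Eventually.of_forall fun x => ?_)
  simp only [QQ, ee, ll, yy, ww, t1, t2]
  rw [integral_mul_const, integral_fintype_prod_volume_eq_prod (f := fun i (w : ℂ) =>
    u i (‖w‖ ^ 2 * Real.exp (-(∑ j, Real.log (x (i, j)).im) / 5)) *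
      Real.exp (-(∑ j, Real.log (x (i, j)).im) / 5))]
  simp only [scale _ (Real.exp_pos _)]

lemma tendsto_cut (P Ψ : ℝ → ℝ) (hP : Continuous P) (h1 : P 1 = 0) (hΨ : Continuous Ψ) {c : ℝ}
    (hc : ∀ x, 2 ≤ x → Ψ x = c) (h0 : ∀ x, x ≤ -1 → Ψ x = 0) :
    Tendsto (fun n : ℕ => ∫ q in (0 : ℝ)..1, P q * Ψ ((1 - q) * (n + 1) - 1)) atTop
      (𝓝 (∫ q in (0 : ℝ)..1, P q * c)) := by
  obtain ⟨M, hM⟩ := (isCompact_Icc (a := (-1 : ℝ)) (b := 2)).exists_bound_of_continuousOn
    hΨ.continuousOn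
  have hM' : ∀ x, ‖Ψ x‖ ≤ M := fun x => by
    rcases le_total 2 x with h | h
    · rw [hc x h, ← hc 2 le_rfl]; exact hM 2 ⟨by norm_num, le_rfl⟩
    · rcases le_total x (-1) with h' | h'
      · rw [h0 x h', ← h0 (-1) le_rfl]; exact hM _ ⟨le_rfl, by norm_num⟩
      · exact hM x ⟨h', h⟩
  refine intervalIntegral.tendsto_integral_filter_of_dominated_convergence (fun q => ‖P q‖ * M)
    (Eventually.of_forall fun n => Continuous.aestronglyMeasurable (by fun_prop))
    (Eventually.of_forall fun n => Eventually.of_forall fun q _ => ?_)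
    (Continuous.intervalIntegrable (by fun_prop) _ _) (Eventually.of_forall fun q hq => ?_)
  · rw [norm_mul]
    exact mul_le_mul_of_nonneg_left (hM' _) (norm_nonneg _)
  · rw [uIoc_of_le zero_le_one] at hq
    rcases hq.2.eq_or_lt with h | h
    · simp [h, h1]
    · refine tendsto_const_nhds.congr' ?_
      have : Tendsto (fun n : ℕ => (1 - q) * ((n : ℝ) + 1)) atTop atTop :=
        (tendsto_atTop_add_const_right _ _ tendsto_natCast_atTop_atTop).const_mul_atTop
          (sub_pos.2 h)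
      filter_upwards [this.eventually_ge_atTop 3] with n hn
      rw [hc _ (by linarith)]

/-- smooth cutoff -/
noncomputable def chi : ℝ → ℝ := Real.smoothTransition

noncomputable def chi1 (x : ℝ) : ℝ := 15 / 2 * chi x + (x + 1) * deriv chi x

lemma cd_chi : ContDiff ℝ ∞ chi := Real.smoothTransition.contDiff

lemma chi_neg {x : ℝ} (h : x < 0) : chi x = 0 ∧ chi1 x = 0 := by
  have e : chi =ᶠ[𝓝 x] fun _ => 0 := by
    filter_upwards [Iio_mem_nhds h] with y hy using Real.smoothTransition.zero_of_nonpos hy.le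
  simp [chi1, e.deriv_eq, e.eq_of_nhds]

lemma chi_big {x : ℝ} (h : 1 < x) : chi x = 1 ∧ chi1 x = 15 / 2 := by
  have e : chi =ᶠ[𝓝 x] fun _ => 1 := by
    filter_upwards [Ioi_mem_nhds h] with y hy using Real.smoothTransition.one_of_one_le hy.le
  simp [chi1, e.deriv_eq, e.eq_of_nhds]

lemma cont_chi1 : Continuous chi1 := by
  have h1 := cd_chi.continuous
  have h2 := cd_chi.continuous_deriv (by simp)
  unfold chi1
  fun_prop

noncomputable def u0 (L q : ℝ) : ℝ := (1 - q) ^ 4 * chi ((1 - q) * L - 1) ^ 2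

noncomputable def u1 (L q : ℝ) : ℝ := (1 - q) ^ 4 * q * chi1 ((1 - q) * L - 1) ^ 2

noncomputable def u2 (L q : ℝ) : ℝ := (1 - q) ^ 5 * chi ((1 - q) * L - 1) ^ 2

lemma exists_L {δ : ℝ} (hδ : 0 < δ) : ∃ L : ℝ, 1 ≤ L ∧ 0 < ∫ q in (0 : ℝ)..1, u0 L q ∧
    0 ≤ ∫ q in (0 : ℝ)..1, u2 L q ∧
    180 / 11 * (1 / 4 + δ) * (∫ q in (0 : ℝ)..1, u2 L q) + 4 / 11 * ∫ q in (0 : ℝ)..1, u1 L q ≤
      (75 / 11 + 14 * δ) * ∫ q in (0 : ℝ)..1, u0 L q := by
  have c := cd_chi.continuous
  have a0 := tendsto_cut (fun q => (1 - q) ^ 4) (fun x => chi x ^ 2) (by fun_prop) (by simp)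
    (by fun_prop) (c := 1) (fun x h => by rw [(chi_big (by linarith)).1]; norm_num)
    fun x h => by rw [(chi_neg (by linarith)).1]; norm_num
  have a1 := tendsto_cut (fun q => (1 - q) ^ 4 * q) (fun x => chi1 x ^ 2) (by fun_prop) (by simp)
    (cont_chi1.pow 2) (c := 225 / 4) (fun x h => by rw [(chi_big (by linarith)).2]; norm_num)
    fun x h => by rw [(chi_neg (by linarith)).2]; norm_num
  have a2 := tendsto_cut (fun q => (1 - q) ^ 5) (fun x => chi x ^ 2) (by fun_prop) (by simp)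
    (by fun_prop) (c := 1) (fun x h => by rw [(chi_big (by linarith)).1]; norm_num)
    fun x h => by rw [(chi_neg (by linarith)).1]; norm_num
  have ftc : ∀ (F f : ℝ → ℝ), Continuous f → (∀ x, HasDerivAt F (f x) x) →
      ∫ q in (0 : ℝ)..1, f q = F 1 - F 0 := fun F f hf h =>
    intervalIntegral.integral_eq_sub_of_hasDerivAt (fun x _ => h x) (hf.intervalIntegrable _ _)
  have hd := fun (n : ℕ) (x : ℝ) => ((hasDerivAt_id' x).const_sub 1).fun_pow n
  have b0 : ∫ q in (0 : ℝ)..1, (1 - q) ^ 4 * 1 = 1 / 5 := by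
    rw [ftc (fun q => (1 - q) ^ 5 / -5) _ (by fun_prop) fun x =>
      ((hd 5 x).div_const _).congr_deriv (by norm_num)]
    norm_num
  have b2 : ∫ q in (0 : ℝ)..1, (1 - q) ^ 5 * 1 = 1 / 6 := by
    rw [ftc (fun q => (1 - q) ^ 6 / -6) _ (by fun_prop) fun x =>
      ((hd 6 x).div_const _).congr_deriv (by norm_num)]
    norm_num
  have b1 : ∫ q in (0 : ℝ)..1, (1 - q) ^ 4 * q * (225 / 4) = 15 / 8 := by
    rw [ftc (fun q => ((1 - q) ^ 5 / -5 + (1 - q) ^ 6 / 6) * (225 / 4)) _ (by fun_prop) fun x =>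
      ((((hd 5 x).div_const _).fun_add ((hd 6 x).div_const _)).mul_const _).congr_deriv
        (by norm_num; ring)]
    norm_num
  rw [b0] at a0
  rw [b1] at a1
  rw [b2] at a2
  have l1 := ((a2.const_mul (180 / 11 * (1 / 4 + δ))).add (a1.const_mul (4 / 11))).eventually_lt
    (a0.const_mul (75 / 11 + 14 * δ)) (by linarith)
  have l2 := a0.eventually_const_lt (show (0 : ℝ) < 1 / 5 by norm_num)
  have l3 := a2.eventually_const_lt (show (0 : ℝ) < 1 / 6 by norm_num)
  obtain ⟨n, h1, h2, h3⟩ := (l1.and (l2.and l3)).exists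
  exact ⟨n + 1, by simp, h2, h3.le, h1.le⟩

end Pool.Agent.P.MP_164ed8_gt.Q1
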