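import Pool.Agent.P.MP_164ed8_gt.Q1Mat

namespace Pool.Agent.P.MP_164ed8_gt.Q1

open Set Filter Topology
open scoped ContDiff

abbrev R2 := Fin 2 → ℝ

/-- first order jet -/
def HD (F : R2 → ℝ) (c : Fin 2 → ℝ) (q : R2) : Prop := HasFDerivAt F (lin c) q

variable {F G : R2 → ℝ} {c c' : Fin 2 → ℝ} {q : R2}

lemma HD.congr (h : HD F c q) (e : ∀ i, c i = c' i) : HD F c' q := (funext e : c = c') ▸ h

lemma HD.add (h : HD F c q) (h' : HD G c' q) : HD (fun x => F x + G x) (fun i => c i + c' i) q :=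
  (HasFDerivAt.fun_add h h').congr_fderiv (by ext x; simp [lin_apply]; ring)

lemma HD.mul (h : HD F c q) (h' : HD G c' q) :
    HD (fun x => F x * G x) (fun i => c i * G q + F q * c' i) q :=
  (HasFDerivAt.fun_mul h h').congr_fderiv (by ext x; simp [lin_apply]; ring)

lemma HD.comp (h : HD F c q) {f : ℝ → ℝ} {f' : ℝ} (hf : HasDerivAt f f' (F q)) :
    HD (fun x => f (F x)) (fun i => f' * c i) q :=
  (hf.comp_hasFDerivAt q h).congr_fderiv (by ext x; simp [lin_apply]; ring)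

lemma HD.const (a : ℝ) (q : R2) : HD (fun _ => a) (fun _ => 0) q :=
  (hasFDerivAt_const a q).congr_fderiv (by ext x; simp [lin_apply])

lemma HD.cmul (a : ℝ) (h : HD F c q) : HD (fun x => a * F x) (fun i => a * c i) q :=
  ((HD.const a q).mul h).congr fun i => by simp

lemma HD.oneSub (k : Fin 2) (q : R2) : HD (fun x => 1 - x k) (fun i => if i = k then -1 else 0) q :=
  ((hasFDerivAt_apply (𝕜 := ℝ) k q).const_sub 1).congr_fderiv (by
    ext x; fin_cases k <;> simp [lin_apply])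

lemma HD.ev (p : List (List ℤ)) (q : R2) : HD (ev p) (fun i => Q1.ev (der i p) q) q :=
  hasFDerivAt_ev p q

/-- directional derivative -/
noncomputable def DD (i : Fin 2) (F : R2 → ℝ) (q : R2) : ℝ := fderiv ℝ F q (Pi.single i 1)

lemma HD.of_cd (h : ContDiff ℝ ∞ F) (q : R2) : HD F (fun i => DD i F q) q :=
  (h.differentiable (by simp) q).hasFDerivAt.congr_fderiv (by
    ext x
    have : x = x 0 • (Pi.single 0 1 : R2) + x 1 • (Pi.single 1 1 : R2) := by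
      funext i; fin_cases i <;> simp
    conv_lhs => rw [this]
    simp [lin_apply, DD, mul_comm])

lemma cd_DD (h : ContDiff ℝ ∞ F) (i : Fin 2) : ContDiff ℝ ∞ (DD i F) :=
  (h.fderiv_right (m := ∞) (by simp)).clm_apply contDiff_const

lemma DD_ev (p : List (List ℤ)) (i : Fin 2) : DD i (ev p) = ev (der i p) := by
  funext q
  rw [DD, (hasFDerivAt_ev p q).fderiv, lin_single]

lemma DD_zero (i : Fin 2) : DD i (fun _ => 0) = fun _ => 0 := by
  funext q; simp [DD]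

lemma GJ.add {F1 G1 : Fin 2 → R2 → ℝ} {F2 G2 : Fin 2 → Fin 2 → ℝ} (h : GJ F F1 F2 q)
    (h' : GJ G G1 G2 q) :
    GJ (fun x => F x + G x) (fun i x => F1 i x + G1 i x) (fun i k => F2 i k + G2 i k) q :=
  ⟨by filter_upwards [h.h1, h'.h1] with x a b using HD.add a b,
    fun k => HD.add (h.h2 k) (h'.h2 k)⟩

lemma GJ.cmul {F1 : Fin 2 → R2 → ℝ} {F2 : Fin 2 → Fin 2 → ℝ} (a : ℝ) (h : GJ F F1 F2 q) :
    GJ (fun x => a * F x) (fun i x => a * F1 i x) (fun i k => a * F2 i k) q :=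
  ⟨by filter_upwards [h.h1] with x b using HD.cmul a b, fun k => HD.cmul a (h.h2 k)⟩

lemma GJ.const (a : ℝ) (q : R2) : GJ (fun _ => a) (fun _ _ => 0) (fun _ _ => 0) q :=
  ⟨Eventually.of_forall fun x => HD.const a x, fun _ => HD.const 0 q⟩

lemma GJ.ev (p : List (List ℤ)) (q : R2) :
    GJ (ev p) (fun i => Q1.ev (der i p)) (fun i k => Q1.ev (der i (der k p)) q) q :=
  ⟨Eventually.of_forall fun x => HD.ev p x, fun k => HD.ev (der k p) q⟩

/-- the Einstein potential -/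
noncomputable def G0 (q : R2) : ℝ := -11 * (Real.log (1 - q 0) + Real.log (1 - q 1))

lemma GJ.g0 (hq : ∀ i, q i < 1) : GJ G0 (fun i x => 11 * (1 - x i)⁻¹)
    (fun i k => if i = k then 11 * ((1 - q i) ^ 2)⁻¹ else 0) q := by
  constructor
  · have : ∀ᶠ x in 𝓝 q, ∀ i, x i < 1 := eventually_all.2 fun i =>
      (continuous_apply i).continuousAt.eventually_lt continuousAt_const (hq i)
    filter_upwards [this] with x hx
    have h := fun k => (HD.oneSub k x).comp (Real.hasDerivAt_log (sub_pos.2 (hx k)).ne')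
    refine (((h 0).add (h 1)).cmul (-11)).congr fun i => ?_
    fin_cases i <;> simp
  · intro k
    refine (((HD.oneSub k q).comp (hasDerivAt_inv (sub_pos.2 (hq k)).ne')).cmul 11).congr
      fun i => ?_
    by_cases e : i = k <;> simp [e]

/-- a quadratic family of functions -/
noncomputable def PT (a : ℝ) (S0 S1 : R2 → ℝ) (t : ℝ) (q : R2) : ℝ := a + t * S0 q + t ^ 2 * S1 q

noncomputable def j1 (a : ℝ) (S0 S1 : R2 → ℝ) (t : ℝ) (i : Fin 2) (q : R2) : ℝ :=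
  (DD i S0 q + t * DD i S1 q) * (PT a S0 S1 t q)⁻¹

noncomputable def j2 (a : ℝ) (S0 S1 : R2 → ℝ) (t : ℝ) (i k : Fin 2) (q : R2) : ℝ :=
  (DD i (DD k S0) q + t * DD i (DD k S1) q) * (PT a S0 S1 t q)⁻¹ -
    t * (DD i S0 q + t * DD i S1 q) * (DD k S0 q + t * DD k S1 q) * (PT a S0 S1 t q ^ 2)⁻¹

lemma GJ.logPT {a t : ℝ} {S0 S1 : R2 → ℝ} (h0 : ContDiff ℝ ∞ S0) (h1 : ContDiff ℝ ∞ S1)
    (hq : PT a S0 S1 t q ≠ 0) : GJ (fun x => Real.log (PT a S0 S1 t x))
      (fun i x => t * j1 a S0 S1 t i x) (fun i k => t * j2 a S0 S1 t i k q) q := by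
  have hP : ∀ x, HD (PT a S0 S1 t) (fun i => t * (DD i S0 x + t * DD i S1 x)) x := fun x =>
    (((HD.const a x).add ((HD.of_cd h0 x).cmul t)).add ((HD.of_cd h1 x).cmul (t ^ 2))).congr
      fun i => by ring
  constructor
  · filter_upwards [(HasFDerivAt.continuousAt (hP q)).eventually_ne hq] with x hx
    exact ((hP x).comp (Real.hasDerivAt_log hx)).congr fun i => by unfold j1; ring
  · intro k
    exact ((((HD.of_cd (cd_DD h0 k) q).add ((HD.of_cd (cd_DD h1 k) q).cmul t)).mul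
      ((hP q).comp (hasDerivAt_inv hq))).cmul t).congr fun i => by unfold j2; ring

lemma cont_j {a : ℝ} (ha : a ≠ 0) {S0 S1 : R2 → ℝ} (h0 : ContDiff ℝ ∞ S0) (h1 : ContDiff ℝ ∞ S1)
    (q : R2) : (∀ i, ContinuousAt (fun p : ℝ × R2 => j1 a S0 S1 p.1 i p.2) (0, q)) ∧
      ∀ i k, ContinuousAt (fun p : ℝ × R2 => j2 a S0 S1 p.1 i k p.2) (0, q) := by
  have c0 := h0.continuous
  have c1 := h1.continuous
  have c2 := fun i => (cd_DD h0 i).continuous
  have c3 := fun i => (cd_DD h1 i).continuous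
  have c4 := fun i k => (cd_DD (cd_DD h0 k) i).continuous
  have c5 := fun i k => (cd_DD (cd_DD h1 k) i).continuous
  have hP : ContinuousAt (fun p : ℝ × R2 => PT a S0 S1 p.1 p.2) (0, q) := by
    unfold PT; fun_prop
  have hn : PT a S0 S1 (0, q).1 (0, q).2 ≠ 0 := by simpa [PT] using ha
  refine ⟨fun i => ContinuousAt.mul (by fun_prop) (hP.inv₀ hn), fun i k => ?_⟩
  exact (ContinuousAt.mul (by fun_prop) (hP.inv₀ hn)).sub
    (ContinuousAt.mul (by fun_prop) ((hP.pow 2).inv₀ (pow_ne_zero 2 hn)))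

noncomputable def v2 (i k : Fin 2) (q : R2) : ℝ := ev (der i (der k cV)) q

noncomputable def GG (t : ℝ) (q : R2) : ℝ := G0 q + t * ev cV q

noncomputable def G1 (t : ℝ) (i : Fin 2) (q : R2) : ℝ := 11 * (1 - q i)⁻¹ + t * ev (der i cV) q

noncomputable def G2 (t : ℝ) (q : R2) (i k : Fin 2) : ℝ :=
  (if i = k then 11 * ((1 - q i) ^ 2)⁻¹ else 0) + t * v2 i k q

lemma jet_GG (t : ℝ) (hq : ∀ i, q i < 1) : GJ (GG t) (G1 t) (G2 t q) q :=
  (GJ.g0 hq).add ((GJ.ev cV q).cmul t)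

noncomputable def CC (q : R2) : ℝ := (1 - q 0) ^ 2 * (1 - q 1) ^ 2 * (q 0 * q 1) * v2 0 1 q ^ 2

noncomputable def SS (q : R2) : ℝ := ev (pA 0) q * ev (pA 1) q - CC q

lemma cd_SS : ContDiff ℝ ∞ SS := by
  have := contDiff_ev
  unfold SS CC v2
  fun_prop

noncomputable def RR (i : Fin 2) : ℝ → R2 → ℝ := PT 11 (ev (pR i)) fun _ => 0

noncomputable def DT : ℝ → R2 → ℝ := PT 121 (ev pD) SS

/-- logarithm of the reduced volume -/
noncomputable def LL (t : ℝ) (q : R2) : ℝ :=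
  Real.log (4 / 10 ^ 18) + G0 q + 9 * Real.log (RR 0 t q) + 9 * Real.log (RR 1 t q) +
    Real.log (DT t q)

noncomputable def W1 (t : ℝ) (i : Fin 2) (q : R2) : ℝ :=
  ev (der i cV) q - 9 * j1 11 (ev (pR 0)) (fun _ => 0) t i q -
    9 * j1 11 (ev (pR 1)) (fun _ => 0) t i q - j1 121 (ev pD) SS t i q

noncomputable def W2 (t : ℝ) (q : R2) (i k : Fin 2) : ℝ :=
  v2 i k q - 9 * j2 11 (ev (pR 0)) (fun _ => 0) t i k q -
    9 * j2 11 (ev (pR 1)) (fun _ => 0) t i k q - j2 121 (ev pD) SS t i k q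

lemma jet_LL (t : ℝ) (hq : ∀ i, q i < 1) (hR : ∀ i, RR i t q ≠ 0) (hD : DT t q ≠ 0) :
    GJ (LL t) (fun i x => G1 t i x - t * W1 t i x) (fun i k => G2 t q i k - t * W2 t q i k) q := by
  have := ((((GJ.const (Real.log (4 / 10 ^ 18)) q).add (GJ.g0 hq)).add
    ((GJ.logPT (contDiff_ev _) contDiff_const (hR 0)).cmul 9)).add
    ((GJ.logPT (contDiff_ev _) contDiff_const (hR 1)).cmul 9)).add
    (GJ.logPT (contDiff_ev _) cd_SS hD)
  convert this using 1
  · rfl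
  · funext i x; unfold G1 W1; ring
  · funext i k; unfold G2 W2; ring

lemma W1_zero (i : Fin 2) (q : R2) : W1 0 i q = cK * ev (w1L i) q := by
  rw [← ident3 (cert4 i)]
  simp [W1, j1, PT, DD_ev, div_eq_mul_inv]

lemma W2_zero (i k : Fin 2) (q : R2) : W2 0 q i k = cK * ev (w2L i k) q := by
  rw [← ident3 (cert5 i k)]
  simp [W2, j2, PT, DD_ev, v2, div_eq_mul_inv]

lemma cont_W (q : R2) : (∀ i, ContinuousAt (fun p : ℝ × R2 => W1 p.1 i p.2) (0, q)) ∧
    ∀ i k, ContinuousAt (fun p : ℝ × R2 => W2 p.1 p.2 i k) (0, q) := by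
  have a := fun i => cont_j (a := 11) (by norm_num) (contDiff_ev (pR i))
    (contDiff_const (c := (0 : ℝ))) q
  have b := cont_j (a := 121) (by norm_num) (contDiff_ev pD) cd_SS q
  refine ⟨fun i => ?_, fun i k => ?_⟩
  · exact ((ContinuousAt.sub (by fun_prop) (continuousAt_const.mul ((a 0).1 i))).sub
      (continuousAt_const.mul ((a 1).1 i))).sub (b.1 i)
  · exact ((ContinuousAt.sub (by unfold v2; fun_prop) (continuousAt_const.mul ((a 0).2 i k))).sub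
      (continuousAt_const.mul ((a 1).2 i k))).sub (b.2 i k)

noncomputable def al (t : ℝ) (i : Fin 2) (q : R2) : ℝ :=
  ev (pR i) q / 11 * ∑ k ∈ Finset.range 9, (1 + t * (ev (pR i) q / 11)) ^ k

noncomputable def de (t : ℝ) (q : R2) : ℝ := (ev pD q + t * SS q) / 121

/-- relative variation of the volume -/
noncomputable def pp (t : ℝ) (q : R2) : ℝ :=
  al t 0 q + al t 1 q + de t q +
    t * (al t 0 q * al t 1 q + al t 0 q * de t q + al t 1 q * de t q) +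
    t ^ 2 * (al t 0 q * al t 1 q * de t q)

noncomputable def bt (t : ℝ) (i : Fin 2) (q : R2) : ℝ := -15 / 22 + t * ev (pB i) q

noncomputable def X0 (q : R2) : ℝ := ∑ i, (15 / 11 * (1 - q i + 10 * q i) + 45 / 11 * (1 - q i))

noncomputable def X1 (q : R2) : ℝ := -2 * ∑ i, ((1 - q i) * ev (pB i) q + 10 * q i * ev (pB i) q +
  (1 - q i) * q i * ev (der i (pB i)) q)

noncomputable def Y1 (t : ℝ) (q : R2) : ℝ :=
  ∑ i, (45 / 242 * ev (pR i) q * (1 - q i) + 2 * ev (pA i) q * q i * bt t i q ^ 2 +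
    22 * q i * (-15 / 11 * ev (pB i) q + t * ev (pB i) q ^ 2)) +
    4 * v2 0 1 q * (q 0 * q 1) * ((1 - q 0) * (1 - q 1)) * (bt t 0 q * bt t 1 q)

noncomputable def Xi (t : ℝ) (q : R2) : ℝ :=
  X1 q + X0 q * pp t q + t * X1 q * pp t q - Y1 t q - cC / 484 * (1 + t * pp t q) ^ 2 -
    75 / 11 * (2 * pp t q + t * pp t q ^ 2)

lemma Xi_zero (q : R2) : Xi 0 q = cC / 484 := by
  have h := ident2 q
  simp only [pL, pPi, ev_add, ev_smul, ev_mulA, ev_mulQ] at h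
  simp only [Xi, X1, X0, Y1, pp, al, de, bt, pD, v2, ev_add, ev_smul, Fin.sum_univ_two, zero_mul,
    add_zero, one_pow, Finset.sum_const, Finset.card_range, nsmul_eq_mul]
  push_cast at h ⊢
  linear_combination h / 242

lemma cont_Xi : Continuous fun p : ℝ × R2 => Xi p.1 p.2 := by
  have := cd_SS.continuous
  unfold Xi X1 X0 Y1 pp al de bt v2
  fun_prop

/-- conditions making the perturbed potential a complete metric -/
structure Good1 (t : ℝ) (q : R2) : Prop where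
  r : ∀ i, 0 ≤ 11 / 2 + t * ev (pR i) q
  a : ∀ i, 0 ≤ 11 / 2 + t * ev (pA i) q
  d : t ^ 2 * CC q ≤ (11 / 2 + t * ev (pA 0) q) * (11 / 2 + t * ev (pA 1) q)

/-- curvature and spectral conditions -/
structure Good2 (t : ℝ) (q : R2) : Prop where
  w1 : ∀ i, 0 ≤ W1 t i q
  w2 : ∀ i, 0 ≤ W1 t i q + q i * W2 t q i i
  w3 : q 0 * q 1 * ((W2 t q 0 1 + W2 t q 1 0) / 2) ^ 2 ≤
    (W1 t 0 q + q 0 * W2 t q 0 0) * (W1 t 1 q + q 1 * W2 t q 1 1)
  b : 0 ≤ Xi t q

lemma good1_zero (q : R2) : Good1 0 q := ⟨fun _ => by norm_num, fun _ => by norm_num, by norm_num⟩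

lemma exists_good : ∃ t > 0, ∀ q ∈ Icc (0 : R2) 1, Good1 t q ∧ Good2 t q := by
  have key : ∀ᶠ t in 𝓝 (0 : ℝ), ∀ q ∈ Icc (0 : R2) 1, Good1 t q ∧ Good2 t q := by
    refine isCompact_Icc.eventually_forall_of_forall_eventually fun q hq => ?_
    have ev0 : ∀ {f g : ℝ × R2 → ℝ}, ContinuousAt f (0, q) → ContinuousAt g (0, q) →
        f (0, q) < g (0, q) → ∀ᶠ p in 𝓝 ((0 : ℝ), q), f p ≤ g p := fun hf hg h =>
      (hf.eventually_lt hg h).mono fun _ h => h.le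
    obtain ⟨c1, c2⟩ := cont_W q
    have q0 : 0 ≤ q 0 := hq.1 0
    have q1 : 0 ≤ q 1 := hq.1 1
    have hK := cK_pos
    have a1 : ∀ᶠ p : ℝ × R2 in 𝓝 (0, q), ∀ i, 0 ≤ 11 / 2 + p.1 * ev (pR i) p.2 :=
      eventually_all.2 fun i => ev0 continuousAt_const (by fun_prop) (by simp)
    have a2 : ∀ᶠ p : ℝ × R2 in 𝓝 (0, q), ∀ i, 0 ≤ 11 / 2 + p.1 * ev (pA i) p.2 :=
      eventually_all.2 fun i => ev0 continuousAt_const (by fun_prop) (by simp)
    have a3 : ∀ᶠ p : ℝ × R2 in 𝓝 (0, q), p.1 ^ 2 * CC p.2 ≤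
        (11 / 2 + p.1 * ev (pA 0) p.2) * (11 / 2 + p.1 * ev (pA 1) p.2) :=
      ev0 (by unfold CC v2; fun_prop) (by fun_prop) (by norm_num)
    have a4 : ∀ᶠ p : ℝ × R2 in 𝓝 (0, q), ∀ i, 0 ≤ W1 p.1 i p.2 :=
      eventually_all.2 fun i => ev0 continuousAt_const (c1 i) (by
        fin_cases i <;> simp [W1_zero, w1L, ev, ev2, ev1, hK] <;> positivity)
    have c3 : ∀ i, ContinuousAt (fun p : ℝ × R2 => W1 p.1 i p.2 + p.2 i * W2 p.1 p.2 i i) (0, q) :=
      fun i => (c1 i).add (ContinuousAt.mul (by fun_prop) (c2 i i))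
    have a5 : ∀ᶠ p : ℝ × R2 in 𝓝 (0, q), ∀ i, 0 ≤ W1 p.1 i p.2 + p.2 i * W2 p.1 p.2 i i :=
      eventually_all.2 fun i => ev0 continuousAt_const (c3 i) (by
        fin_cases i <;> simp [W1_zero, W2_zero, w1L, w2L, ev, ev2, ev1] <;> positivity)
    have a6 : ∀ᶠ p : ℝ × R2 in 𝓝 (0, q),
        p.2 0 * p.2 1 * ((W2 p.1 p.2 0 1 + W2 p.1 p.2 1 0) / 2) ^ 2 ≤
        (W1 p.1 0 p.2 + p.2 0 * W2 p.1 p.2 0 0) * (W1 p.1 1 p.2 + p.2 1 * W2 p.1 p.2 1 1) := by
      refine ev0 (ContinuousAt.mul (by fun_prop) ((((c2 0 1).add (c2 1 0)).div_const 2).pow 2))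
        ((c3 0).mul (c3 1)) ?_
      rw [← sub_pos]
      simp only [W1_zero, W2_zero, w1L, w2L, ev, ev2, ev1, if_true, zero_ne_one, one_ne_zero,
        if_false]
      refine lt_of_lt_of_eq (b := (cK : ℝ) ^ 2 *
        (1 + 16000 * (q 0 ^ 3 * q 1 ^ 4 + q 0 ^ 4 * q 1 ^ 3))) (by positivity) ?_
      push_cast
      ring
    have a7 : ∀ᶠ p : ℝ × R2 in 𝓝 (0, q), 0 ≤ Xi p.1 p.2 :=
      ev0 continuousAt_const cont_Xi.continuousAt (by
        simp only [Xi_zero]; have := cC_pos; positivity)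
    filter_upwards [a1, a2, a3, a4, a5, a6, a7] with p b1 b2 b3 b4 b5 b6 b7
    exact ⟨⟨b1, b2, b3⟩, b4, b5, b6, b7⟩
  obtain ⟨t, h1, h2⟩ := ((key.filter_mono nhdsWithin_le_nhds).and
    (self_mem_nhdsWithin (s := Ioi (0 : ℝ)))).exists
  exact ⟨t, h2, h1⟩

end Pool.Agent.P.MP_164ed8_gt.Q1
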