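import Pool.Agent.P.MP_164ed8_gt.Q1Metric

namespace Pool.Agent.P.MP_164ed8_gt.Q1

open Set Filter Topology Complex Matrix Pool.Agent.Lib.Kahler
open scoped ComplexOrder ContDiff

variable {t : ℝ} {z : EE}

/-- an invariant vector field with weight -/
noncomputable def fld (ρ : EE → ℝ) (B C : Fin 2 → R2 → ℝ) (z : EE) : EE := fun j =>
  Sum.elim (fun p => (ρ z : ℂ) * (I * yy z p) * C p.1 (QQ z))
    (fun i => (ρ z : ℂ) * ww z i * B i (QQ z)) (eJ.symm j)

lemma fld_inl (ρ : EE → ℝ) (B C : Fin 2 → R2 → ℝ) (z : EE) (p : PP) :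
    fld ρ B C z (eJ (.inl p)) = (ρ z : ℂ) * (I * yy z p) * C p.1 (QQ z) := by simp [fld]

lemma fld_inr (ρ : EE → ℝ) (B C : Fin 2 → R2 → ℝ) (z : EE) (i : Fin 2) :
    fld ρ B C z (eJ (.inr i)) = (ρ z : ℂ) * ww z i * B i (QQ z) := by simp [fld]

lemma cd_EW (hz : z ∈ UH) : ContDiffAt ℝ ∞ EW z :=
  (contDiffAt_const.mul (ContDiffAt.sum fun i _ => cd_ll hz i)).exp

lemma dz_EW (hz : z ∈ UH) (α : JJ) :
    dz (eJ α) (fun w => (EW w : ℂ)) z = 11 * EW z * ∑ i, lam z i α := by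
  have h := fun i => dd (contDiffAt_ofReal (cd_ll hz i))
  have := dz_comp_real (φ := fun w => ∑ i, ll w i) (dd (ContDiffAt.sum fun i _ => cd_ll hz i))
    (F := fun x => Real.exp (-(11 / 5) * x))
    ((hasDerivAt_id' (∑ i, ll z i)).const_mul (-(11 / 5))).exp (eJ α)
  simp only [EW]
  rw [this]
  simp only [ofReal_sum]
  rw [dz_sum _ fun i _ => h i]
  simp only [dz_ll hz, Fin.sum_univ_two]
  push_cast
  ring

lemma divg_fld (hz : z ∈ UH) {B C : Fin 2 → R2 → ℝ} {b c : Fin 2 → Fin 2 → ℝ}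
    (hB : ∀ i, HD (B i) (b i) (QQ z)) (hC : ∀ i, HD (C i) (c i) (QQ z)) :
    divg (fld EW B C) z = EW z * ∑ i, (2 * B i (QQ z) + 2 * QQ z i * b i i +
      9 * (-6 / 5 * C i (QQ z) - QQ z i * c i i / 5)) := by
  have d0 := dd (contDiffAt_ofReal (cd_EW hz))
  have d1 := fun p => (dd (contDiffAt_ofReal (cd_yy z p))).const_mul I
  have d2 := fun i => diff_ofReal (diff_compQ hz (hB i))
  have d3 := fun i => diff_ofReal (diff_compQ hz (hC i))
  have d4 := fun i => dd (cd_ww z i)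
  rw [divg_eq, ← eJ.sum_comp, Fintype.sum_sum_type]
  · have e1 : ∀ p : PP, dz (eJ (.inl p)) (fun w => fld EW B C w (eJ (.inl p))) z =
        ((EW z * (-6 / 5 * C p.1 (QQ z) - QQ z p.1 * c p.1 p.1 / 5) / 2 : ℝ) : ℂ) := by
      rintro ⟨i, j⟩
      have y0 : (yy z (i, j) : ℂ) ≠ 0 := by exact_mod_cast (hz (i, j)).ne'
      simp only [fld_inl]
      rw [dz_mul (d0.fun_mul (d1 _)) (d3 _), dz_mul d0 (d1 _), dz_EW hz, dz_compQ hz (hC i),
        dz_const_mul (dd (contDiffAt_ofReal (cd_yy z _))), dz_yy (hasDerivAt_id' _), if_pos rfl]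
      have s1 : ∑ k, lam z k (.inl (i, j)) = I / (10 * yy z (i, j)) := by simp [lam]
      have s2 : ∑ k, (c i k : ℂ) * (ee z k * (starRingEnd ℂ) (ww z k) * th z k (.inl (i, j))) =
          c i i * QQ z i * (I / (10 * yy z (i, j))) := by
        simp only [th_inl, mul_ite, mul_zero, Finset.sum_ite_eq, Finset.mem_univ, if_true, QQ_coe]
        ring
      rw [s1, s2]
      push_cast
      field_simp
      ring_nf
      simp only [I_sq]
      ring
    have e2 : ∀ i, dz (eJ (.inr i)) (fun w => fld EW B C w (eJ (.inr i))) z =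
        ((EW z * (B i (QQ z) + QQ z i * b i i) : ℝ) : ℂ) := by
      intro i
      simp only [fld_inr]
      rw [dz_mul (d0.fun_mul (d4 _)) (d2 _), dz_mul d0 (d4 _), dz_EW hz, dz_compQ hz (hB i), dz_ww]
      simp only [th_inr, mul_ite, mul_zero, mul_one, Finset.sum_ite_eq, Finset.mem_univ, if_true,
        lam, Sum.elim_inr, del, Finset.sum_const_zero]
      push_cast
      rw [QQ_coe]
      ring
    simp only [e1, e2, ← ofReal_sum, ← ofReal_add, ofReal_re, Fintype.sum_prod_type,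
      Finset.sum_const, Finset.card_univ, Fintype.card_fin, nsmul_eq_mul, Fin.sum_univ_two]
    push_cast
    ring
  · intro j
    obtain ⟨α, rfl⟩ := eJ.surjective j
    rcases α with p | i
    · simp only [fld_inl]
      exact (d0.fun_mul (d1 _)).fun_mul (d3 _)
    · simp only [fld_inr]
      exact (d0.fun_mul (d4 _)).fun_mul (d2 _)

lemma nq_fld (hz : z ∈ UH) (ρ : EE → ℝ) (B C : Fin 2 → R2 → ℝ) (F1 : Fin 2 → ℝ)
    (F2 : Fin 2 → Fin 2 → ℝ) (κ : ℝ) : nq z F1 F2 κ (fld ρ B C z) = ρ z ^ 2 *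
      (∑ i, 9 / 2 * (QQ z i * F1 i / 5 + κ) * C i (QQ z) ^ 2 +
      2 * (∑ i, F1 i * QQ z i * (B i (QQ z) - 9 / 10 * C i (QQ z)) ^ 2 + ∑ i, ∑ k, F2 i k *
        (QQ z i * (B i (QQ z) - 9 / 10 * C i (QQ z))) *
        (QQ z k * (B k (QQ z) - 9 / 10 * C k (QQ z))))) := by
  have e1 : ∀ i, tv z i (fld ρ B C z) =
      ww z i * ((ρ z * (B i (QQ z) - 9 / 10 * C i (QQ z)) : ℝ) : ℂ) := by
    intro i
    have : ∀ j, (ρ z : ℂ) * (I * yy z (i, j)) * C i (QQ z) * (I / (10 * yy z (i, j))) =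
        -(ρ z * C i (QQ z) / 10) := by
      intro j
      have y0 : (yy z (i, j) : ℂ) ≠ 0 := by exact_mod_cast (hz (i, j)).ne'
      field_simp
      simp only [I_sq]
      ring
    simp only [tv_eq, lv_eq, fld_inl, fld_inr, this, Finset.sum_const, Finset.card_univ,
      Fintype.card_fin, nsmul_eq_mul]
    push_cast
    ring
  have e2 : ∀ i, zeta z i (fld ρ B C z) =
      ((QQ z i * (ρ z * (B i (QQ z) - 9 / 10 * C i (QQ z))) : ℝ) : ℂ) := by
    intro i
    rw [zeta, e1, ofReal_mul (QQ z i), QQ_coe]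
    ring
  have e3 : ∀ p : PP, ‖fld ρ B C z (eJ (.inl p))‖ ^ 2 / (2 * yy z p ^ 2) =
      ρ z ^ 2 * C p.1 (QQ z) ^ 2 / 2 := by
    intro p
    have y0 := (hz p).ne'
    simp only [fld_inl, norm_mul, norm_real, norm_I, Real.norm_eq_abs, mul_pow, sq_abs]
    field_simp
  have e4 : ∀ i, ee z i * ‖tv z i (fld ρ B C z)‖ ^ 2 =
      QQ z i * (ρ z * (B i (QQ z) - 9 / 10 * C i (QQ z))) ^ 2 := by
    intro i
    rw [e1, norm_mul, norm_real, Real.norm_eq_abs, mul_pow, sq_abs, QQ]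
    ring
  simp only [nq, vf, e2, e3, e4, conj_ofReal, ← ofReal_mul, ofReal_re, Fintype.sum_prod_type,
    Finset.sum_const, Finset.card_univ, Fintype.card_fin, nsmul_eq_mul, Fin.sum_univ_two]
  push_cast
  ring

/-- reduced volume density of the Einstein metric -/
noncomputable def mm (q : R2) : ℝ :=
  4 / 10 ^ 18 * 11 ^ 20 * (((1 - q 0) ^ 11)⁻¹ * ((1 - q 1) ^ 11)⁻¹)

lemma HD_mm {q : R2} (hq : ∀ i, q i < 1) : HD mm (fun i => 11 * mm q / (1 - q i)) q := by
  have h := fun k => (HD.oneSub k q).comp (f := fun x => (x ^ 11)⁻¹)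
    ((hasDerivAt_pow 11 _).fun_inv (pow_ne_zero 11 (sub_pos.2 (hq k)).ne'))
  refine (((h 0).mul (h 1)).cmul _).congr fun i => ?_
  have a0 := (sub_pos.2 (hq 0)).ne'
  have a1 := (sub_pos.2 (hq 1)).ne'
  fin_cases i <;> simp [mm] <;> field_simp

lemma one_add_pp (t : ℝ) (q : R2) :
    RR 0 t q ^ 9 * RR 1 t q ^ 9 * DT t q = 11 ^ 20 * (1 + t * pp t q) := by
  have h : ∀ i, RR i t q ^ 9 = 11 ^ 9 * (1 + t * al t i q) := fun i => by
    have := mul_geom_sum (1 + t * (ev (pR i) q / 11)) 9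
    rw [RR_eq, al, show 11 + t * ev (pR i) q = 11 * (1 + t * (ev (pR i) q / 11)) by ring, mul_pow]
    linear_combination (-11 ^ 9) * this
  have h2 : DT t q = 121 * (1 + t * de t q) := by unfold DT PT de; ring
  rw [h, h, h2, pp]
  ring

lemma lower (ht0 : 0 ≤ t) (hOK : OK t) (ht : ∀ q ∈ Icc (0 : R2) 1, 0 ≤ Xi t q) :
    75 / 11 + t * (cC / 484) ≤ lambda0 XX (gT t) := by
  let B : Fin 2 → R2 → ℝ := fun i q => (1 - q i) * (bt t i q + 9 / 22)
  let C : Fin 2 → R2 → ℝ := fun i q => 5 / 11 * (1 - q i)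
  have hdet : ∀ z ∈ XX, (gT t z).det.re = EW z * (mm (QQ z) * (1 + t * pp t (QQ z))) := by
    intro z hz
    rw [det_gT t hz, one_add_pp, mm]
    ring
  have hP : ∀ z ∈ XX, 0 < 1 + t * pp t (QQ z) := by
    intro z hz
    have hG := hOK _ (Q_mem hz)
    have r0 : 0 < RR 0 t (QQ z) := by linarith [RR_ge hG 0]
    have r1 : 0 < RR 1 t (QQ z) := by linarith [RR_ge hG 1]
    have d := DT_pos hG
    have : 0 < RR 0 t (QQ z) ^ 9 * RR 1 t (QQ z) ^ 9 * DT t (QQ z) := by positivity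
    rw [one_add_pp] at this
    linarith
  refine le_lambda0 isOpen_XX ⟨_, base_mem⟩ (fun j k => (cont_gT t j k).continuousOn)
    (fun z hz => posDef_gT hOK hz) (fld (fun z => (1 + t * pp t (QQ z))⁻¹) B C)
    (fld EW (fun i q => mm q * B i q) fun i q => mm q * C i q) (fun z hz => ?_) (fun z hz => ?_) _
    (fun z hz => ?_)
  · have c1 := fun i => contDiffAt_const (c := (1 : ℝ)).sub (cd_QQ hz.1 i)
    have c2 : ContDiffAt ℝ ∞ (fun w => mm (QQ w)) z := contDiffAt_const.mul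
      ((((c1 0).pow 11).inv (pow_ne_zero 11 (sub_pos.2 (hz.2 0)).ne')).mul
        (((c1 1).pow 11).inv (pow_ne_zero 11 (sub_pos.2 (hz.2 1)).ne')))
    refine (ContDiffAt.of_le (n := ∞) (contDiffAt_pi.2 fun j => ?_) (by simp)).contDiffWithinAt
    obtain ⟨α, rfl⟩ := eJ.surjective j
    rcases α with p | i
    · simp only [fld_inl]
      exact ((contDiffAt_ofReal (cd_EW hz.1)).mul (contDiffAt_const.mul
        (contDiffAt_ofReal (cd_yy z p)))).mul
        (contDiffAt_ofReal (c2.mul (contDiffAt_const.mul (c1 _))))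
    · simp only [fld_inr]
      exact ((contDiffAt_ofReal (cd_EW hz.1)).mul (cd_ww z i)).mul (contDiffAt_ofReal (c2.mul
        ((c1 i).mul ((contDiffAt_const.add (contDiffAt_const.mul
          ((contDiff_ev _).contDiffAt.comp z (cd_Q hz.1)))).add contDiffAt_const))))
  · have : ((1 + t * pp t (QQ z) : ℝ) : ℂ) ≠ 0 := by exact_mod_cast (hP z hz).ne'
    funext j
    obtain ⟨α, rfl⟩ := eJ.surjective j
    rcases α with p | i
    · simp only [Pi.smul_apply, fld_inl, hdet z hz, real_smul, ofReal_mul, ofReal_inv]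
      field_simp
    · simp only [Pi.smul_apply, fld_inr, hdet z hz, real_smul, ofReal_mul, ofReal_inv]
      field_simp
  · have hB := fun i => (HD_mm hz.2).mul ((HD.oneSub i (QQ z)).mul (((HD.const (-15 / 22) _).add
      ((HD.ev (pB i) (QQ z)).cmul t)).add (HD.const (9 / 22) _)))
    have hC := fun i => (HD_mm hz.2).mul ((HD.oneSub i (QQ z)).cmul (5 / 11))
    have a0 := sub_pos.2 (hz.2 0)
    have a1 := sub_pos.2 (hz.2 1)
    have p0 := hP z hz
    have hm : 0 < mm (QQ z) := by unfold mm; positivity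
    have e1 := divg_fld hz.1 (B := fun i q => mm q * B i q) (C := fun i q => mm q * C i q) hB hC
    have e2 : divg (fld EW (fun i q => mm q * B i q) fun i q => mm q * C i q) z =
        -(EW z * mm (QQ z) * (X0 (QQ z) + t * X1 (QQ z))) := by
      rw [e1]
      simp only [B, C, bt, X0, X1, Fin.sum_univ_two, if_true]
      field_simp
      ring
    have e3 : normSq (gT t) z (fld (fun z => (1 + t * pp t (QQ z))⁻¹) B C z) =
        (1 + t * pp t (QQ z))⁻¹ ^ 2 * (X0 (QQ z) - 75 / 11 + t * Y1 t (QQ z)) := by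
      rw [normSq_gT t hz, nq_fld hz.1]
      congr 1
      have m0 := m_eq t (hz.2 0)
      have m1 := m_eq t (hz.2 1)
      rw [eq_div_iff (by positivity)] at m0 m1
      simp only [Fin.sum_univ_two, T_eq t (hz.2 _), G2_01, G2_10, RR_eq, B, C, X0, Y1]
      have b0 : bt t 0 (QQ z) = -15 / 22 + t * ev (pB 0) (QQ z) := rfl
      have b1 : bt t 1 (QQ z) = -15 / 22 + t * ev (pB 1) (QQ z) := rfl
      have t0 : ∀ i, 0 < 1 - QQ z i → 9 / 2 * ((11 + t * ev (pR i) (QQ z)) / (5 * (1 - QQ z i))) *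
          (5 / 11 * (1 - QQ z i)) ^ 2 = 45 / 242 * (11 + t * ev (pR i) (QQ z)) * (1 - QQ z i) := by
        intro i hi
        field_simp
        ring
      rw [t0 0 a0, t0 1 a1]
      linear_combination 2 * QQ z 0 * bt t 0 (QQ z) ^ 2 * m0 + 2 * QQ z 1 * bt t 1 (QQ z) ^ 2 * m1 +
        22 * QQ z 0 * (bt t 0 (QQ z) + (-15 / 22 + t * ev (pB 0) (QQ z))) * b0 +
        22 * QQ z 1 * (bt t 1 (QQ z) + (-15 / 22 + t * ev (pB 1) (QQ z))) * b1
    have e4 := mul_nonneg ht0 (ht _ (Q_mem hz))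
    rw [e2, e3, hdet z hz, ← sub_nonneg]
    have e5 : - -(EW z * mm (QQ z) * (X0 (QQ z) + t * X1 (QQ z))) -
        EW z * (mm (QQ z) * (1 + t * pp t (QQ z))) * ((1 + t * pp t (QQ z))⁻¹ ^ 2 *
          (X0 (QQ z) - 75 / 11 + t * Y1 t (QQ z))) - (75 / 11 + t * (cC / 484)) *
          (EW z * (mm (QQ z) * (1 + t * pp t (QQ z)))) =
        EW z * mm (QQ z) * (1 + t * pp t (QQ z))⁻¹ * (t * Xi t (QQ z)) := by
      unfold Xi
      field_simp
      ring
    rw [e5]
    have := EW_pos z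
    positivity

end Pool.Agent.P.MP_164ed8_gt.Q1
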