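import Pool.Agent.P.MP_164ed8_gt.Q1Dom

namespace Pool.Agent.P.MP_164ed8_gt.Q1

open Set Filter Topology Complex Matrix Pool.Agent.Lib.Kahler
open scoped ComplexOrder ContDiff

/-- the adapted coframe -/
noncomputable def Bm (z : EE) : Matrix JJ JJ ℂ :=
  of fun α => Sum.elim (fun p => if α = .inl p then 1 else 0) fun i => th z i α

/-- the Hessian in the adapted coframe -/
noncomputable def Mid (z : EE) (F1 : Fin 2 → ℝ) (F2 : Fin 2 → Fin 2 → ℝ) (κ : ℝ) :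
    Matrix JJ JJ ℂ :=
  fromBlocks (diagonal fun p => (((QQ z p.1 * F1 p.1 / 5 + κ) / (2 * yy z p ^ 2) : ℝ) : ℂ)) 0 0
    (of fun i k => 2 * (F2 i k * (ee z i * (starRingEnd ℂ) (ww z i)) * (ee z k * ww z k) +
      if i = k then (F1 i * ee z i : ℂ) else 0))

lemma th_inr (z : EE) (i k : Fin 2) : th z i (.inr k) = if k = i then 1 else 0 := by
  simp [th, del, lam]

lemma th_inl (z : EE) (i : Fin 2) (p : PP) :
    th z i (.inl p) = if p.1 = i then ww z i * (I / (10 * yy z p)) else 0 := by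
  simp [th, del, lam]

lemma det_Bm (z : EE) : (Bm z).det = 1 := by
  have : Bm z = fromBlocks 1 (of fun p i => th z i (.inl p)) 0 1 := by
    ext α β
    rcases α with p | k <;> rcases β with p' | k' <;> simp [Bm, th_inr, one_apply]
  rw [this, det_fromBlocks_zero₂₁]
  simp

lemma sum_eta (z : EE) (c : Fin 2 → ℂ) (α β : JJ) : ∑ k, c k * eta z k α β =
    ∑ p : PP, (if α = .inl p then 1 else 0) * (c p.1 / (4 * (yy z p : ℂ) ^ 2)) *
      (if β = .inl p then 1 else 0) := by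
  rcases β with p | k
  · rw [Finset.sum_eq_single p.1, Finset.sum_eq_single p]
    · by_cases h : α = .inl p <;> simp [eta, h]
      ring
    · intro b _ hb; simp [hb.symm]
    · simp
    · intro b _ hb; simp [eta, hb.symm]
    · simp
  · simp [eta]

lemma hess_fact {z : EE} (hz : z ∈ UH) {F : (Fin 2 → ℝ) → ℝ} {F1 : Fin 2 → (Fin 2 → ℝ) → ℝ}
    {F2 : Fin 2 → Fin 2 → ℝ} (h : GJ F F1 F2 (QQ z)) (κ : ℝ) :
    hess (pot F κ) z =
      (Bm z * Mid z (fun i => F1 i (QQ z)) F2 κ * (Bm z)ᴴ).submatrix eJ.symm eJ.symm := by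
  ext j k
  obtain ⟨α, rfl⟩ := eJ.surjective j
  obtain ⟨β, rfl⟩ := eJ.surjective k
  have e := sum_eta z (fun k => 2 * (QQ z k * F1 k (QQ z) / 5 + κ)) α β
  have e2 : ∑ p : PP, (if α = .inl p then 1 else 0) *
      (2 * ((QQ z p.1 : ℂ) * F1 p.1 (QQ z) / 5 + κ) / (4 * (yy z p : ℂ) ^ 2)) *
      (if β = .inl p then 1 else 0) = ∑ p : PP, (if α = .inl p then 1 else 0) *
      (((QQ z p.1 * F1 p.1 (QQ z) / 5 + κ) / (2 * yy z p ^ 2) : ℝ) : ℂ) *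
      star (if β = .inl p then (1 : ℂ) else 0) := by
    refine Finset.sum_congr rfl fun p _ => ?_
    congr 1
    · push_cast; ring
    · split_ifs <;> simp
  rw [hess_pot hz h, submatrix_apply, Equiv.symm_apply_apply, Equiv.symm_apply_apply, mul_apply,
    Fintype.sum_sum_type]
  simp only [mul_apply, Fintype.sum_sum_type, Mid, Bm, of_apply, Sum.elim_inl, Sum.elim_inr,
    fromBlocks_apply₁₁, fromBlocks_apply₁₂, fromBlocks_apply₂₁, fromBlocks_apply₂₂,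
    conjTranspose_apply, Matrix.zero_apply, mul_zero, Finset.sum_const_zero, add_zero, zero_add,
    diagonal_apply, mul_ite, Finset.sum_ite_eq', Finset.mem_univ, if_true]
  rw [← e2, ← e]
  simp only [Fin.sum_univ_two, RCLike.star_def]
  simp
  ring

lemma quad_conj {ι : Type} [Fintype ι] (B M : Matrix ι ι ℂ) (u : ι → ℂ) :
    ∑ α, ∑ β, (B * M * Bᴴ) α β * u α * (starRingEnd ℂ) (u β) =
      ∑ γ, ∑ δ, M γ δ * (u ᵥ* B) γ * (starRingEnd ℂ) ((u ᵥ* B) δ) := by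
  have key : ∀ (A : Matrix ι ι ℂ) (x : ι → ℂ), ∑ α, ∑ β, A α β * x α * (starRingEnd ℂ) (x β) =
      x ⬝ᵥ A *ᵥ star x := by
    intro A x
    simp only [dotProduct, mulVec, Finset.mul_sum, Pi.star_apply, RCLike.star_def]
    exact Finset.sum_congr rfl fun j _ => Finset.sum_congr rfl fun k _ => by ring
  rw [key, key, star_vecMul, ← mulVec_mulVec, ← mulVec_mulVec, dotProduct_mulVec]

/-- vertical component of a tangent vector -/
noncomputable def tv (z : EE) (i : Fin 2) (v : EE) : ℂ := ∑ α, v (eJ α) * th z i α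

noncomputable def zeta (z : EE) (i : Fin 2) (v : EE) : ℂ :=
  ee z i * (starRingEnd ℂ) (ww z i) * tv z i v

/-- vertical part of the Hessian form -/
noncomputable def vf (z : EE) (F1 : Fin 2 → ℝ) (F2 : Fin 2 → Fin 2 → ℝ) (v : EE) : ℝ :=
  ∑ i, F1 i * (ee z i * ‖tv z i v‖ ^ 2) +
    ∑ i, ∑ k, F2 i k * (zeta z i v * (starRingEnd ℂ) (zeta z k v)).re

/-- the Hessian form -/
noncomputable def nq (z : EE) (F1 : Fin 2 → ℝ) (F2 : Fin 2 → Fin 2 → ℝ) (κ : ℝ) (v : EE) : ℝ :=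
  ∑ p : PP, (QQ z p.1 * F1 p.1 / 5 + κ) * (‖v (eJ (.inl p))‖ ^ 2 / (2 * yy z p ^ 2)) +
    2 * vf z F1 F2 v

lemma normSq_fact {g : EE → Matrix (Fin 20) (Fin 20) ℂ} {z : EE} {F1 : Fin 2 → ℝ}
    {F2 : Fin 2 → Fin 2 → ℝ} {κ : ℝ}
    (h : g z = (Bm z * Mid z F1 F2 κ * (Bm z)ᴴ).submatrix eJ.symm eJ.symm) (v : EE) :
    normSq g z v = nq z F1 F2 κ v := by
  have e1 : ∀ p, ((fun α => v (eJ α)) ᵥ* Bm z) (.inl p) = v (eJ (.inl p)) := by
    intro p; simp [vecMul, dotProduct, Bm]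
  have e2 : ∀ i, ((fun α => v (eJ α)) ᵥ* Bm z) (.inr i) = tv z i v := by
    intro i; simp [vecMul, dotProduct, Bm, tv]
  have e3 := quad_conj (Bm z) (Mid z F1 F2 κ) fun α => v (eJ α)
  have e4 : ∑ j, ∑ k, g z j k * v j * (starRingEnd ℂ) (v k) = ∑ α, ∑ β,
      (Bm z * Mid z F1 F2 κ * (Bm z)ᴴ) α β * v (eJ α) * (starRingEnd ℂ) (v (eJ β)) := by
    rw [← eJ.sum_comp]
    refine Finset.sum_congr rfl fun α _ => ?_
    rw [← eJ.sum_comp]
    simp [h]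
  rw [Lib.Kahler.normSq, e4, e3]
  simp only [Fintype.sum_sum_type, e1, e2, Mid, fromBlocks_apply₁₁, fromBlocks_apply₁₂,
    fromBlocks_apply₂₁, fromBlocks_apply₂₂, Matrix.zero_apply, zero_mul, Finset.sum_const_zero,
    add_zero,
    zero_add, diagonal_apply, ite_mul, Finset.sum_ite_eq, Finset.mem_univ, if_true, of_apply,
    add_re, nq]
  congr 1
  · rw [re_sum]
    refine Finset.sum_congr rfl fun p _ => ?_
    rw [mul_assoc, mul_conj', ← ofReal_pow, ← ofReal_mul, ofReal_re]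
    ring
  · have : ∑ i, ∑ k, 2 * (F2 i k * (ee z i * (starRingEnd ℂ) (ww z i)) * (ee z k * ww z k) +
        if i = k then (F1 i * ee z i : ℂ) else 0) * tv z i v * (starRingEnd ℂ) (tv z k v) =
        2 * (∑ i, ((F1 i * (ee z i * ‖tv z i v‖ ^ 2) : ℝ) : ℂ) +
          ∑ i, ∑ k, (F2 i k : ℂ) * (zeta z i v * (starRingEnd ℂ) (zeta z k v))) := by
      simp only [zeta, Fin.sum_univ_two, ofReal_mul, ofReal_pow, ← mul_conj', map_mul, conj_conj,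
        conj_ofReal]
      simp
      ring
    rw [this, vf]
    simp only [mul_re, re_ofNat, im_ofNat, zero_mul, sub_zero, add_re, re_sum, ofReal_re,
      ofReal_im]

lemma norm_zeta (z : EE) (i : Fin 2) (v : EE) :
    ‖zeta z i v‖ ^ 2 = QQ z i * (ee z i * ‖tv z i v‖ ^ 2) := by
  simp only [zeta, norm_mul, norm_real, Complex.norm_conj, QQ, Real.norm_eq_abs, mul_pow, sq_abs]
  ring

lemma vf_ge (z : EE) (F1 : Fin 2 → ℝ) (F2 : Fin 2 → Fin 2 → ℝ) (c : Fin 2 → ℝ)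
    (h : ∀ i, c i ≤ F1 i + QQ z i * F2 i i)
    (hd : QQ z 0 * QQ z 1 * ((F2 0 1 + F2 1 0) / 2) ^ 2 ≤
      (F1 0 + QQ z 0 * F2 0 0 - c 0) * (F1 1 + QQ z 1 * F2 1 1 - c 1)) (v : EE) :
    ∑ i, c i * (ee z i * ‖tv z i v‖ ^ 2) ≤ vf z F1 F2 v := by
  have a : ∀ i, (zeta z i v * (starRingEnd ℂ) (zeta z i v)).re =
      QQ z i * (ee z i * ‖tv z i v‖ ^ 2) := fun i => by
    rw [mul_conj', ← ofReal_pow, ofReal_re, norm_zeta]
  have b : (zeta z 1 v * (starRingEnd ℂ) (zeta z 0 v)).re =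
      (zeta z 0 v * (starRingEnd ℂ) (zeta z 1 v)).re := by simp; ring
  have c1 : (zeta z 0 v * (starRingEnd ℂ) (zeta z 1 v)).re ^ 2 ≤
      (QQ z 0 * (ee z 0 * ‖tv z 0 v‖ ^ 2)) * (QQ z 1 * (ee z 1 * ‖tv z 1 v‖ ^ 2)) := by
    rw [← norm_zeta, ← norm_zeta, ← mul_pow, ← sq_abs]
    refine pow_le_pow_left₀ (abs_nonneg _) ((abs_re_le_norm _).trans_eq ?_) 2
    simp
  simp only [vf, Fin.sum_univ_two, a, b]
  have p0 : 0 ≤ ee z 0 * ‖tv z 0 v‖ ^ 2 := mul_nonneg (ee_pos z 0).le (sq_nonneg _)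
  have p1 : 0 ≤ ee z 1 * ‖tv z 1 v‖ ^ 2 := mul_nonneg (ee_pos z 1).le (sq_nonneg _)
  generalize ee z 0 * ‖tv z 0 v‖ ^ 2 = x0 at *
  generalize ee z 1 * ‖tv z 1 v‖ ^ 2 = x1 at *
  generalize (zeta z 0 v * (starRingEnd ℂ) (zeta z 1 v)).re = R at *
  have h0 := sub_nonneg.2 (h 0)
  have h1 := sub_nonneg.2 (h 1)
  set m0 := F1 0 + QQ z 0 * F2 0 0 - c 0 with hm0
  set m1 := F1 1 + QQ z 1 * F2 1 1 - c 1 with hm1
  set μ := (F2 0 1 + F2 1 0) / 2 with hμ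
  have k1 : (2 * μ * R) ^ 2 ≤ (m0 * x0 + m1 * x1) ^ 2 := by
    have t1 := mul_le_mul_of_nonneg_left c1 (sq_nonneg μ)
    have t2 := mul_le_mul_of_nonneg_right hd (mul_nonneg p0 p1)
    nlinarith [sq_nonneg (m0 * x0 - m1 * x1)]
  have k2 := (abs_le_of_sq_le_sq' k1 (by positivity)).1
  have : F1 0 * x0 + F1 1 * x1 + (F2 0 0 * (QQ z 0 * x0) + F2 0 1 * R +
      (F2 1 0 * R + F2 1 1 * (QQ z 1 * x1))) - (c 0 * x0 + c 1 * x1) =
      m0 * x0 + m1 * x1 + 2 * μ * R := by rw [hm0, hm1, hμ]; ring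
  linarith

/-- weight of the volume form -/
noncomputable def EW (z : EE) : ℝ := Real.exp (-(11 / 5) * ∑ i, ll z i)

lemma EW_pos (z : EE) : 0 < EW z := Real.exp_pos _

lemma EW_eq {z : EE} (hz : z ∈ UH) : EW z = (∏ p, (yy z p ^ 2)⁻¹) * (ee z 0 * ee z 1) := by
  have : ∀ p, (yy z p ^ 2)⁻¹ = Real.exp (-2 * Real.log (yy z p)) := fun p => by
    rw [neg_mul, Real.exp_neg, show (2 : ℝ) = (2 : ℕ) by norm_num, Real.exp_nat_mul,
      Real.exp_log (hz p)]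
  simp only [this, ← Real.exp_sum, ee, ← Real.exp_add, EW, Fintype.sum_prod_type, ← Finset.mul_sum,
    ll, Fin.sum_univ_two]
  congr 1
  ring

lemma det_fact {z : EE} (hz : z ∈ UH) (F1 : Fin 2 → ℝ) (F2 : Fin 2 → Fin 2 → ℝ) (κ : ℝ) :
    ((Bm z * Mid z F1 F2 κ * (Bm z)ᴴ).submatrix eJ.symm eJ.symm).det.re =
      EW z * (4 * ((QQ z 0 * F1 0 / 5 + κ) / 2) ^ 9 * ((QQ z 1 * F1 1 / 5 + κ) / 2) ^ 9 *
        ((F1 0 + QQ z 0 * F2 0 0) * (F1 1 + QQ z 1 * F2 1 1) -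
          QQ z 0 * QQ z 1 * (F2 0 1 * F2 1 0))) := by
  rw [det_submatrix_equiv_self, det_mul, det_mul, det_conjTranspose, det_Bm, star_one, one_mul,
    mul_one, Mid, det_fromBlocks_zero₂₁, det_diagonal, det_fin_two, ← ofReal_prod]
  have e1 : ∏ p : PP, (QQ z p.1 * F1 p.1 / 5 + κ) / (2 * yy z p ^ 2) =
      (∏ p, (yy z p ^ 2)⁻¹) * (((QQ z 0 * F1 0 / 5 + κ) / 2) ^ 9 *
        ((QQ z 1 * F1 1 / 5 + κ) / 2) ^ 9) := by
    have : ∏ p : PP, (QQ z p.1 * F1 p.1 / 5 + κ) / 2 = ((QQ z 0 * F1 0 / 5 + κ) / 2) ^ 9 *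
        ((QQ z 1 * F1 1 / 5 + κ) / 2) ^ 9 := by
      simp [Fintype.prod_prod_type, Fin.prod_univ_two]
      ring
    rw [← this, ← Finset.prod_mul_distrib]
    exact Finset.prod_congr rfl fun p _ => by ring
  have e2 : (4 * (ee z 0 * ee z 1) * ((F1 0 + QQ z 0 * F2 0 0) * (F1 1 + QQ z 1 * F2 1 1) -
      QQ z 0 * QQ z 1 * (F2 0 1 * F2 1 0)) : ℝ) = (2 * (F2 0 0 * (ee z 0 * (starRingEnd ℂ) (ww z 0)) *
        (ee z 0 * ww z 0) + F1 0 * ee z 0) * (2 * (F2 1 1 * (ee z 1 * (starRingEnd ℂ) (ww z 1)) *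
        (ee z 1 * ww z 1) + F1 1 * ee z 1)) - 2 * (F2 0 1 * (ee z 0 * (starRingEnd ℂ) (ww z 0)) *
        (ee z 1 * ww z 1) + 0) * (2 * (F2 1 0 * (ee z 1 * (starRingEnd ℂ) (ww z 1)) *
        (ee z 0 * ww z 0) + 0)) : ℂ) := by
    push_cast
    rw [QQ_coe, QQ_coe]
    ring
  simp only [of_apply, if_true, zero_ne_one, one_ne_zero, if_false]
  rw [← e2, ← ofReal_mul, ofReal_re, e1, EW_eq hz]
  ring

lemma gradSq_fact {g : EE → Matrix (Fin 20) (Fin 20) ℂ} {z : EE} {d : JJ → ℝ} (hd : ∀ α, d α ≠ 0)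
    (h : g z = (Bm z * diagonal (fun α => (d α : ℂ)) * (Bm z)ᴴ).submatrix eJ.symm eJ.symm)
    {φ : EE → ℝ} {π : JJ → ℂ} (hπ : ∀ α, dz (eJ α) (fun w => (φ w : ℂ)) z = (Bm z *ᵥ π) α) :
    gradSq g φ z = 4 * ∑ α, ‖π α‖ ^ 2 / d α := by
  have e : (diagonal fun α => (d α : ℂ))⁻¹ = diagonal fun α => (((d α)⁻¹ : ℝ) : ℂ) := by
    apply inv_eq_right_inv
    rw [diagonal_mul_diagonal, ← diagonal_one]
    congr 1
    funext j
    rw [← ofReal_mul, mul_inv_cancel₀ (hd j), ofReal_one]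
  have e2 := inv_form (Bm z) (diagonal fun α => (d α : ℂ)) (det_Bm z) π
  have e3 : ∑ j, ∑ k, (starRingEnd ℂ) (dz j (fun w => (φ w : ℂ)) z) * (g z)⁻¹ j k *
      dz k (fun w => (φ w : ℂ)) z = star (Bm z *ᵥ π) ⬝ᵥ
        (Bm z * diagonal (fun α => (d α : ℂ)) * (Bm z)ᴴ)⁻¹ *ᵥ (Bm z *ᵥ π) := by
    rw [← eJ.sum_comp, dotProduct]
    refine Finset.sum_congr rfl fun α _ => ?_
    rw [← eJ.sum_comp, mulVec, dotProduct, Finset.mul_sum]
    refine Finset.sum_congr rfl fun β _ => ?_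
    rw [h, inv_submatrix_equiv, hπ, hπ, submatrix_apply, Equiv.symm_apply_apply,
      Equiv.symm_apply_apply, mul_assoc]
    rfl
  rw [gradSq, e3, e2, e, dotProduct, re_sum]
  congr 1
  refine Finset.sum_congr rfl fun α _ => ?_
  rw [mulVec_diagonal, Pi.star_apply, RCLike.star_def, mul_left_comm, conj_mul', ← ofReal_pow,
    ← ofReal_mul, ofReal_re]
  ring

end Pool.Agent.P.MP_164ed8_gt.Q1
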