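import Pool.Agent.P.MP_164ed8_gt.Q1Jet

namespace Pool.Agent.P.MP_164ed8_gt.Q1

open Set Filter Topology Complex Matrix Pool.Agent.Lib.Kahler
open scoped ComplexOrder ContDiff

/-- the family of metrics -/
noncomputable def gT (t : ℝ) : EE → Matrix (Fin 20) (Fin 20) ℂ := hess (pot (GG t) (11 / 5))

/-- the parameter is admissible -/
def OK (t : ℝ) : Prop := ∀ q ∈ Icc (0 : R2) 1, Good1 t q

lemma OK_zero : OK 0 := fun q _ => good1_zero q

variable {t : ℝ} {z : EE}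

lemma Q_mem (hz : z ∈ XX) : QQ z ∈ Icc (0 : R2) 1 := ⟨QQ_nonneg z, fun i => (hz.2 i).le⟩

lemma gT_fact (t : ℝ) (hz : z ∈ XX) : gT t z = (Bm z * Mid z (fun i => G1 t i (QQ z))
    (G2 t (QQ z)) (11 / 5) * (Bm z)ᴴ).submatrix eJ.symm eJ.symm :=
  hess_fact hz.1 (jet_GG t hz.2) _

lemma RR_eq (i : Fin 2) (t : ℝ) (q : R2) : RR i t q = 11 + t * ev (pR i) q := by simp [RR, PT]

lemma DT_eq (t : ℝ) (q : R2) :
    DT t q = (11 + t * ev (pA 0) q) * (11 + t * ev (pA 1) q) - t ^ 2 * CC q := by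
  simp only [DT, PT, pD, SS, ev_smul, ev_add]; push_cast; ring

lemma T_eq (t : ℝ) {q : R2} {i : Fin 2} (hq : q i < 1) :
    q i * G1 t i q / 5 + 11 / 5 = RR i t q / (5 * (1 - q i)) := by
  have := (sub_pos.2 hq).ne'
  rw [RR_eq, pR, ev_mulA, ev_mulQ, G1]
  field_simp
  ring

lemma m_eq (t : ℝ) {q : R2} {i : Fin 2} (hq : q i < 1) :
    G1 t i q + q i * G2 t q i i = (11 + t * ev (pA i) q) / (1 - q i) ^ 2 := by
  have := (sub_pos.2 hq).ne'
  rw [pA, ev_mulA, ev_mulA, ev_add, ev_mulQ, G1, G2, if_pos rfl, v2]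
  field_simp
  ring

lemma G2_01 (t : ℝ) (q : R2) : G2 t q 0 1 = t * v2 0 1 q := by simp [G2]

lemma G2_10 (t : ℝ) (q : R2) : G2 t q 1 0 = t * v2 0 1 q := by simp [G2, v2, ev_symm]

lemma RR_ge {q : R2} (h : Good1 t q) (i : Fin 2) : 11 / 2 ≤ RR i t q := by
  rw [RR_eq]; linarith [h.r i]

lemma DT_pos {q : R2} (h : Good1 t q) : 0 < DT t q := by
  rw [DT_eq]; nlinarith [h.a 0, h.a 1, h.d]

lemma normSq_gT (t : ℝ) (hz : z ∈ XX) (v : EE) :
    normSq (gT t) z v = nq z (fun i => G1 t i (QQ z)) (G2 t (QQ z)) (11 / 5) v :=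
  normSq_fact (gT_fact t hz) v

lemma low (ht : OK t) (hz : z ∈ XX) (v : EE) :
    ∑ p : PP, ‖v (eJ (.inl p))‖ ^ 2 / (2 * yy z p ^ 2) +
      ∑ i, ee z i * ‖tv z i v‖ ^ 2 / (1 - QQ z i) ^ 2 ≤ normSq (gT t) z v := by
  have hG := ht _ (Q_mem hz)
  have ha := fun i => sub_pos.2 (hz.2 i)
  rw [normSq_gT t hz, nq]
  refine add_le_add (Finset.sum_le_sum fun p _ => le_mul_of_one_le_left (by positivity) ?_) ?_
  · rw [T_eq t (hz.2 _), le_div_iff₀ (by have := ha p.1; positivity)]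
    linarith [RR_ge hG p.1, QQ_nonneg z p.1]
  · have := vf_ge z (fun i => G1 t i (QQ z)) (G2 t (QQ z)) (fun i => 11 / 2 / (1 - QQ z i) ^ 2)
      (fun i => by
        rw [m_eq t (hz.2 i)]
        exact div_le_div_of_nonneg_right (by linarith [hG.a i]) (sq_nonneg _)) (by
        have a0 := ha 0
        have a1 := ha 1
        rw [m_eq t (hz.2 0), m_eq t (hz.2 1), G2_01, G2_10, ← sub_div, ← sub_div, div_mul_div_comm,
          le_div_iff₀ (by positivity)]
        have := hG.d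
        unfold CC at this
        linarith) v
    refine le_trans ?_ (mul_le_mul_of_nonneg_left this zero_le_two)
    rw [Finset.mul_sum]
    refine Finset.sum_le_sum fun i _ => ?_
    have : 0 ≤ ee z i * ‖tv z i v‖ ^ 2 / (1 - QQ z i) ^ 2 := by have := ee_pos z i; positivity
    calc _ ≤ 11 * (ee z i * ‖tv z i v‖ ^ 2 / (1 - QQ z i) ^ 2) := by linarith
      _ = _ := by ring

lemma low1 (ht : OK t) (hz : z ∈ XX) (v : EE) (p : PP) :
    ‖v (eJ (.inl p))‖ ^ 2 / (2 * yy z p ^ 2) ≤ normSq (gT t) z v := by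
  refine le_trans ?_ (low ht hz v)
  refine le_add_of_le_of_nonneg (Finset.single_le_sum
    (f := fun p : PP => ‖v (eJ (.inl p))‖ ^ 2 / (2 * yy z p ^ 2)) (fun _ _ => by positivity)
    (Finset.mem_univ p)) (Finset.sum_nonneg fun i _ => ?_)
  have := ee_pos z i
  positivity

lemma low2 (ht : OK t) (hz : z ∈ XX) (v : EE) (i : Fin 2) :
    ee z i * ‖tv z i v‖ ^ 2 / (1 - QQ z i) ^ 2 ≤ normSq (gT t) z v := by
  refine le_trans ?_ (low ht hz v)
  refine le_add_of_nonneg_of_le (Finset.sum_nonneg fun i _ => by positivity) (Finset.single_le_sum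
    (f := fun i => ee z i * ‖tv z i v‖ ^ 2 / (1 - QQ z i) ^ 2) (fun i _ => ?_) (Finset.mem_univ i))
  have := ee_pos z i
  positivity

/-- horizontal correction -/
noncomputable def lv (z : EE) (i : Fin 2) (v : EE) : ℂ := ∑ α, v (eJ α) * lam z i α

lemma tv_eq (z : EE) (i : Fin 2) (v : EE) : tv z i v = v (eJ (.inr i)) + ww z i * lv z i v := by
  simp only [tv, th, lv, mul_add, Finset.sum_add_distrib, Finset.mul_sum, del]
  congr 1
  · simp
  · exact Finset.sum_congr rfl fun _ _ => by ring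

lemma lv_eq (z : EE) (i : Fin 2) (v : EE) :
    lv z i v = ∑ j, v (eJ (.inl (i, j))) * (I / (10 * yy z (i, j))) := by
  fin_cases i <;> simp [lv, lam, Fintype.sum_sum_type, Fintype.sum_prod_type]

lemma cd_pot (t : ℝ) (hz : z ∈ XX) : ContDiffAt ℝ ∞ (pot (GG t) (11 / 5)) z := by
  have h := fun i => (contDiffAt_const (c := (1 : ℝ)).sub (cd_QQ hz.1 i)).log
    (sub_pos.2 (hz.2 i)).ne'
  exact ((contDiffAt_const.mul ((h 0).add (h 1))).add (contDiffAt_const.mul
    ((contDiff_ev cV).contDiffAt.comp z (cd_Q hz.1)))).sub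
    (contDiffAt_const.mul (ContDiffAt.sum fun i _ => cd_ll hz.1 i))

lemma posDef_gT (ht : OK t) (hz : z ∈ XX) : (gT t z).PosDef := by
  refine posDef_of (hess_herm (cd_pot t hz)) fun v hv => ?_
  by_contra h
  apply hv
  have h1 : ∀ p, v (eJ (.inl p)) = 0 := fun p => by
    have := (low1 ht hz v p).trans (not_lt.1 h)
    have y0 := hz.1 p
    rw [div_le_iff₀ (by positivity), zero_mul] at this
    simpa using le_antisymm this (sq_nonneg _)
  have h2 : ∀ i, tv z i v = 0 := fun i => by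
    have := (low2 ht hz v i).trans (not_lt.1 h)
    have a0 := sub_pos.2 (hz.2 i)
    rw [div_le_iff₀ (by positivity), zero_mul] at this
    have := nonpos_of_mul_nonpos_right this (ee_pos z i)
    simpa using le_antisymm this (sq_nonneg _)
  funext j
  obtain ⟨α, rfl⟩ := eJ.surjective j
  rcases α with p | i
  · exact h1 p
  · simpa [tv_eq, lv_eq, h1] using h2 i

lemma cont_gT (t : ℝ) (j k : Fin 20) : ContDiffOn ℝ ∞ (fun z => gT t z j k) XX :=
  fun _ hz => (contDiffAt_hess (cd_pot t hz) j k).contDiffWithinAt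

lemma isKahler_gT (ht : OK t) : IsKahler XX (gT t) :=
  ⟨cont_gT t, fun _ hz => posDef_gT ht hz, fun _ hz => hess_closed (cd_pot t hz)⟩

lemma det_gT (t : ℝ) (hz : z ∈ XX) : (gT t z).det.re = EW z * (4 / 10 ^ 18 *
    (((1 - QQ z 0) ^ 11)⁻¹ * ((1 - QQ z 1) ^ 11)⁻¹) *
      (RR 0 t (QQ z) ^ 9 * RR 1 t (QQ z) ^ 9 * DT t (QQ z))) := by
  have a0 := (sub_pos.2 (hz.2 0)).ne'
  have a1 := (sub_pos.2 (hz.2 1)).ne'
  rw [gT_fact t hz, det_fact hz.1, T_eq t (hz.2 0), T_eq t (hz.2 1), m_eq t (hz.2 0),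
    m_eq t (hz.2 1), G2_01, G2_10, DT_eq, CC]
  generalize 1 - QQ z 0 = a at *
  generalize 1 - QQ z 1 = b at *
  field_simp
  ring

lemma logdet_gT (ht : OK t) (hz : z ∈ XX) :
    Real.log (gT t z).det.re = pot (LL t) (11 / 5) z := by
  have hG := ht _ (Q_mem hz)
  have a0 := sub_pos.2 (hz.2 0)
  have a1 := sub_pos.2 (hz.2 1)
  have r0 : 0 < RR 0 t (QQ z) := by linarith [RR_ge hG 0]
  have r1 : 0 < RR 1 t (QQ z) := by linarith [RR_ge hG 1]
  have d := DT_pos hG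
  rw [det_gT t hz, Real.log_mul (EW_pos z).ne' (by positivity),
    Real.log_mul (by positivity) (by positivity), Real.log_mul (by positivity) (by positivity),
    Real.log_mul (by positivity) (by positivity), Real.log_mul (by positivity) (by positivity),
    Real.log_mul (by positivity) (by positivity), EW, Real.log_exp, Real.log_inv, Real.log_inv,
    Real.log_pow, Real.log_pow, Real.log_pow, Real.log_pow, pot, LL, G0]
  push_cast
  ring

lemma ricci_gT (ht : OK t) (hz : z ∈ XX) (v : EE) : ricci (gT t) z v =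
    - normSq (gT t) z v + t * nq z (fun i => W1 t i (QQ z)) (W2 t (QQ z)) 0 v := by
  have hG := ht _ (Q_mem hz)
  have e : (fun w => Real.log (gT t w).det.re) =ᶠ[𝓝 z] pot (LL t) (11 / 5) := by
    filter_upwards [isOpen_XX.mem_nhds hz] with w hw using logdet_gT ht hw
  have h := (hess_congr e).trans (hess_fact hz.1 (jet_LL t hz.2
    (fun i => by linarith [RR_ge hG i]) (DT_pos hG).ne') (11 / 5))
  rw [ricci_eq, normSq_fact h, normSq_gT t hz]
  simp only [nq, vf, Fin.sum_univ_two, mul_add, Finset.mul_sum]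
  have : ∑ p : PP, (QQ z p.1 * G1 t p.1 (QQ z) / 5 + 11 / 5) *
      (‖v (eJ (.inl p))‖ ^ 2 / (2 * yy z p ^ 2)) =
      ∑ p : PP, (QQ z p.1 * (G1 t p.1 (QQ z) - t * W1 t p.1 (QQ z)) / 5 + 11 / 5) *
      (‖v (eJ (.inl p))‖ ^ 2 / (2 * yy z p ^ 2)) +
      ∑ p : PP, t * ((QQ z p.1 * W1 t p.1 (QQ z) / 5 + 0) *
      (‖v (eJ (.inl p))‖ ^ 2 / (2 * yy z p ^ 2))) := by
    rw [← Finset.sum_add_distrib]
    exact Finset.sum_congr rfl fun _ _ => by ring
  rw [this]
  ring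

lemma ricci_ge (ht : OK t) (ht0 : 0 ≤ t) (hz : z ∈ XX) (h2 : Good2 t (QQ z)) (v : EE) :
    - normSq (gT t) z v ≤ ricci (gT t) z v := by
  rw [ricci_gT ht hz]
  refine le_add_of_nonneg_right (mul_nonneg ht0 (add_nonneg (Finset.sum_nonneg fun p _ => ?_) ?_))
  · have := h2.w1 p.1
    have := QQ_nonneg z p.1
    positivity
  · have := vf_ge z (fun i => W1 t i (QQ z)) (W2 t (QQ z)) (fun _ => 0) h2.w2
      (by simpa using h2.w3) v
    simpa using this

lemma base_mem : (fun j => Sum.elim (fun _ => I) (fun _ => 0) (eJ.symm j) : EE) ∈ XX :=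
  ⟨fun p => by simp [yy], fun i => by simp [QQ, ww]⟩

lemma not_isCompact_XX : ¬ IsCompact XX := by
  intro h
  have := IsClopen.eq_univ ⟨h.isClosed, isOpen_XX⟩ ⟨_, base_mem⟩
  have h0 : (0 : EE) ∈ XX := this ▸ mem_univ _
  simpa [yy] using h0.1 (0, 0)

lemma isConnected_XX : IsConnected XX := by
  refine ⟨⟨_, base_mem⟩, isPreconnected_of_forall
    (fun j => Sum.elim (fun _ => I) (fun _ => 0) (eJ.symm j)) fun z hz => ?_⟩
  let X0 : Set EE := {z | z ∈ UH ∧ ∀ i, ww z i = 0}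
  have c0 : Convex ℝ X0 := by
    intro x hx y hy a b ha hb hab
    refine ⟨fun p => ?_, fun i => ?_⟩
    · simpa [yy] using convex_Ioi (0 : ℝ) (hx.1 p) (hy.1 p) ha hb hab
    · have h1 := hx.2 i
      have h2 := hy.2 i
      unfold ww at h1 h2
      simp [ww, h1, h2]
  let γ : ℝ → EE := fun τ j =>
    Sum.elim (fun p => z (eJ (.inl p))) (fun i => τ * z (eJ (.inr i))) (eJ.symm j)
  have hγ : Continuous γ := continuous_pi fun j => by
    obtain ⟨α, rfl⟩ := eJ.surjective j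
    rcases α with p | i <;> simp only [γ, Equiv.symm_apply_apply, Sum.elim_inl, Sum.elim_inr] <;>
      fun_prop
  have hy : ∀ τ p, yy (γ τ) p = yy z p := fun τ p => by simp [γ, yy]
  have hw : ∀ τ i, ww (γ τ) i = τ * ww z i := fun τ p => by simp [γ, ww]
  refine ⟨X0 ∪ γ '' Icc 0 1, union_subset (fun x hx => ⟨hx.1, fun i => by simp [QQ, hx.2 i]⟩) ?_,
    Or.inl ⟨base_mem.1, fun i => by simp [ww]⟩, Or.inr ⟨1, by simp, ?_⟩,
    IsPreconnected.union (γ 0) ⟨fun p => by rw [hy]; exact hz.1 p, fun i => by simp [hw]⟩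
      ⟨0, by simp, rfl⟩ c0.isPreconnected (isPreconnected_Icc.image _ hγ.continuousOn)⟩
  · rintro _ ⟨τ, hτ, rfl⟩
    refine ⟨fun p => by rw [hy]; exact hz.1 p, fun i => ?_⟩
    have e : QQ (γ τ) i = τ ^ 2 * QQ z i := by
      simp only [QQ, ee, ll, hy, hw, norm_mul, norm_real, Real.norm_eq_abs, mul_pow, sq_abs]
      ring
    rw [e]
    exact (mul_le_of_le_one_left (QQ_nonneg z i) (pow_le_one₀ hτ.1 hτ.2)).trans_lt (hz.2 i)
  · funext j
    obtain ⟨α, rfl⟩ := eJ.surjective j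
    rcases α with p | i <;> simp [γ]

end Pool.Agent.P.MP_164ed8_gt.Q1
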