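import Pool.Agent.P.MP_164ed8_gt.Q1Int
import Pool.Agent.P.MP_164ed8_gt.Q1Metric

namespace Pool.Agent.P.MP_164ed8_gt.Q1

open Set Filter Topology Complex Matrix Pool.Agent.Lib.Kahler MeasureTheory
open scoped ComplexOrder ContDiff

noncomputable def psi (L a : ℝ) : ℝ := a ^ 7 * √a * chi (a * L - 1)

noncomputable def psi1 (L a : ℝ) : ℝ := a ^ 6 * √a * chi1 (a * L - 1)

lemma hasDerivAt_psi (L : ℝ) {a : ℝ} (ha : 0 < a) : HasDerivAt (psi L) (psi1 L a) a := by
  have h := ((hasDerivAt_pow 7 a).fun_mul (Real.hasDerivAt_sqrt ha.ne')).fun_mul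
    ((cd_chi.differentiable (by simp) _).hasDerivAt.comp a
      (((hasDerivAt_id' a).mul_const L).sub_const 1))
  refine (show HasDerivAt (psi L) _ a from h).congr_deriv ?_
  have h1 := Real.sqrt_pos.2 ha
  have h2 : 1 / (2 * √a) = √a / (2 * a) := by
    field_simp
    exact (Real.sq_sqrt ha.le).symm
  simp only [psi1, chi1, h2, Function.comp]
  field_simp
  ring

lemma cd_psi (L : ℝ) {a : ℝ} (ha : 0 < a) : ContDiffAt ℝ ∞ (psi L) a :=
  ((contDiffAt_id.pow 7).mul (Real.contDiffAt_sqrt ha.ne')).mul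
    (cd_chi.contDiffAt.comp a ((contDiffAt_id.mul contDiffAt_const).sub contDiffAt_const))

lemma psi_sq (L : ℝ) {q : ℝ} (hq : q < 1) : psi L (1 - q) ^ 2 = (1 - q) ^ 11 * u0 L q := by
  rw [psi, mul_pow, mul_pow, Real.sq_sqrt (sub_pos.2 hq).le, u0]; ring

lemma psi1_sq (L : ℝ) {q : ℝ} (hq : q < 1) : psi1 L (1 - q) ^ 2 * q = (1 - q) ^ 9 * u1 L q := by
  rw [psi1, mul_pow, mul_pow, Real.sq_sqrt (sub_pos.2 hq).le, u1]; ring

/-- diagonal entries of the Einstein metric in the adapted coframe -/
noncomputable def dK (z : EE) : JJ → ℝ :=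
  Sum.elim (fun p => 11 / (10 * (1 - QQ z p.1) * yy z p ^ 2)) fun i => 22 * ee z i / (1 - QQ z i) ^ 2

lemma gT_zero {z : EE} (hz : z ∈ XX) : gT 0 z =
    (Bm z * diagonal (fun α => (dK z α : ℂ)) * (Bm z)ᴴ).submatrix eJ.symm eJ.symm := by
  rw [gT_fact 0 hz]
  congr 3
  ext α β
  rcases α with p | i <;> rcases β with p' | k
  · by_cases h : p = p'
    · subst h
      simp only [Mid, fromBlocks_apply₁₁, diagonal_apply_eq, dK, Sum.elim_inl, T_eq 0 (hz.2 _),
        RR_eq]
      congr 1
      rw [div_div]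
      ring
    · simp [Mid, h]
  · simp [Mid]
  · simp [Mid]
  · by_cases h : i = k
    · subst h
      have m := m_eq 0 (hz.2 i)
      have : (dK z (.inr i) : ℝ) = 2 * ee z i * (G1 0 i (QQ z) + QQ z i * G2 0 (QQ z) i i) := by
        rw [m, dK, Sum.elim_inr]; ring
      simp only [Mid, fromBlocks_apply₂₂, of_apply, if_true, diagonal_apply_eq, this]
      push_cast
      rw [QQ_coe]
      ring
    · simp [Mid, G2, h]

lemma det_zero {z : EE} (hz : z ∈ XX) : (gT 0 z).det.re = 4 / 10 ^ 18 * 11 ^ 20 *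
    ((∏ p, (yy z p ^ 2)⁻¹) * (ee z 0 * ee z 1) / ((1 - QQ z 0) ^ 11 * (1 - QQ z 1) ^ 11)) := by
  rw [det_gT 0 hz, EW_eq hz.1, RR_eq, RR_eq, DT_eq, div_eq_mul_inv _ (_ * _), mul_inv]
  ring

lemma upper : lambda0 XX (gT 0) ≤ 75 / 11 := by
  refine le_of_forall_pos_le_add fun ε hε => ?_
  obtain ⟨δ, hδ, rfl⟩ : ∃ δ > 0, ε = 14 * δ := ⟨ε / 14, by positivity, by ring⟩
  obtain ⟨L, hL, p0, p2, hI⟩ := exists_L hδ
  obtain ⟨a, ha, hac, -, hapos, hale⟩ := exists_flat_bump (ε := δ / 2) (by positivity)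
  obtain ⟨b, hb, hbc, hbs, ib, hbpos, hb1, hb2⟩ := exists_vert' (ε := δ / 2) (by positivity)
  have sqint : ∀ u : ℝ → ℝ, ContDiff ℝ ∞ u → HasCompactSupport u →
      Integrable (fun x => u x ^ 2) ∧ Integrable (fun x => deriv u x ^ 2) := fun u hu hc =>
    ⟨Continuous.integrable_of_hasCompactSupport (f := fun s => u s ^ 2) (hu.continuous.pow 2)
      (hc.comp_left (g := fun x : ℝ => x ^ 2) (by simp)),
    Continuous.integrable_of_hasCompactSupport (f := fun s => deriv u s ^ 2)
      ((hu.continuous_deriv (by simp)).pow 2)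
      (hc.deriv.comp_left (g := fun x : ℝ => x ^ 2) (by simp))⟩
  obtain ⟨ia, ia'⟩ := sqint a ha hac
  obtain ⟨ib0, ib'⟩ := sqint b hb hbc
  let f : ℂ → ℝ := fun w => a w.re * b w.im
  have hf : ContDiff ℝ ∞ f := (ha.comp reCLM.contDiff).mul (hb.comp imCLM.contDiff)
  have hfd : ∀ w, HasFDerivAt f (a w.re • (deriv b w.im • imCLM) + b w.im • (deriv a w.re • reCLM))
      w := fun w =>
    ((ha.differentiable (by simp) _).hasDerivAt.comp_hasFDerivAt w reCLM.hasFDerivAt).fun_mul
      (hasFDerivAt_im (hb.differentiable (by simp) _).hasDerivAt)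
  let H : EE → ℝ := fun z => ∏ p, f (z (eJ (.inl p)))
  have hH : ContDiff ℝ ∞ H := contDiff_prod fun k _ => hf.comp (contDiff_apply ℝ ℂ _)
  let φ : EE → ℝ := fun z => psi L (1 - QQ z 0) * psi L (1 - QQ z 1) * H z
  let Kc : Set ℂ := tsupport a ×ℂ tsupport b
  have hKc : IsCompact Kc := hac.isCompact.reProdIm hbc.isCompact
  let K0 : Set EE := Set.pi univ fun j =>
    Sum.elim (fun _ => Kc) (fun _ => Metric.closedBall 0 1) (eJ.symm j)
  have hK0 : IsCompact K0 := isCompact_univ_pi fun j => by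
    obtain ⟨α, rfl⟩ := eJ.surjective j
    rcases α with p | i
    · simpa using hKc
    · simpa using isCompact_closedBall (0 : ℂ) 1
  have hK0U : K0 ⊆ UH := fun z hz p => by
    have := hz (eJ (.inl p)) trivial
    simp only [Equiv.symm_apply_apply, Sum.elim_inl] at this
    exact (hbs this.2).1
  let K : Set EE := K0 ∩ QQ ⁻¹' {q | ∀ i, 1 ≤ (1 - q i) * L}
  have hKcl : IsClosed K := by
    refine ContinuousOn.preimage_isClosed_of_isClosed
      (fun z hz => (cd_Q (hK0U hz)).continuousAt.continuousWithinAt) hK0.isClosed ?_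
    rw [ofPred_forall]
    exact isClosed_iInter fun i => isClosed_le continuous_const (by fun_prop)
  have hK : IsCompact K := hK0.of_isClosed_subset hKcl inter_subset_left
  have hlt : ∀ q : ℝ, 1 ≤ (1 - q) * L → q < 1 := fun q h => by
    by_contra h2
    nlinarith
  have hKX : K ⊆ XX := fun z hz => ⟨hK0U hz.1, fun i => hlt _ (hz.2 i)⟩
  have memK : ∀ z : EE, (∀ p, z (eJ (.inl p)) ∈ Kc) → (∀ i, 1 ≤ (1 - QQ z i) * L) → z ∈ K := by
    intro z h1 h2
    refine ⟨fun j _ => ?_, h2⟩
    obtain ⟨α, rfl⟩ := eJ.surjective j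
    rcases α with p | i
    · simpa using h1 p
    · have e1 : ll z i ≤ 0 := Finset.sum_nonpos fun j _ =>
        Real.log_nonpos (hbs (h1 (i, j)).2).1.le (hbs (h1 (i, j)).2).2.le
      have e2 : 1 ≤ ee z i := Real.one_le_exp (by linarith)
      have e3 := (le_mul_of_one_le_right (sq_nonneg ‖ww z i‖) e2).trans (hlt _ (h2 i)).le
      simpa [ww] using (sq_le_one_iff₀ (norm_nonneg _)).1 e3
  have hpsi : ∀ q, psi L (1 - q) ≠ 0 → 1 ≤ (1 - q) * L := fun q h => by
    by_contra h2
    exact h (by simp [psi, (chi_neg (show (1 - q) * L - 1 < 0 by linarith)).1])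
  have hφK : ∀ z ∉ K, φ z = 0 := by
    intro z hz
    by_contra h
    refine hz (memK z (fun p => ?_) ?_)
    · have h1 : f (z (eJ (.inl p))) ≠ 0 :=
        Finset.prod_ne_zero_iff.1 (right_ne_zero_of_mul h) p (Finset.mem_univ p)
      exact ⟨subset_tsupport _ (left_ne_zero_of_mul h1), subset_tsupport _ (right_ne_zero_of_mul h1)⟩
    · rw [Fin.forall_fin_two]
      exact ⟨hpsi _ (left_ne_zero_of_mul (left_ne_zero_of_mul h)),
        hpsi _ (right_ne_zero_of_mul (left_ne_zero_of_mul h))⟩
  have hsup : tsupport φ ⊆ K := closure_minimal (fun z hz => by_contra fun h => hz (hφK z h)) hKcl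
  have hcs : HasCompactSupport φ := hK.of_isClosed_subset (isClosed_tsupport _) hsup
  have hX : tsupport φ ⊆ XX := hsup.trans hKX
  have hφ : ContDiff ℝ ∞ φ := by
    rw [contDiff_iff_contDiffAt]
    intro z
    by_cases hz : z ∈ XX
    · have c := fun i => (cd_psi L (sub_pos.2 (hz.2 i))).comp z
        (contDiffAt_const (c := (1 : ℝ)).sub (cd_QQ hz.1 i))
      exact ((c 0).mul (c 1)).mul hH.contDiffAt
    · refine (contDiffAt_const (c := (0 : ℝ))).congr_of_eventuallyEq ?_
      filter_upwards [hKcl.isOpen_compl.mem_nhds fun h => hz (hKX h)] with v hv using hφK v hv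
  let Φ : (Fin 2 → ℝ → ℝ) → (PP → ℂ → ℝ) → EE → ℝ := fun u h z =>
    (∏ i, (u i (QQ z i) * ee z i)) * ∏ p, h p (z (eJ (.inl p)))
  let GU : (ℝ → ℝ) → Prop := fun u => Continuous u ∧ ∀ q, (1 - q) * L - 1 < 0 → u q = 0
  let GH : (ℂ → ℝ) → Prop := fun h => ContinuousOn h {w | 0 < w.im} ∧ ∀ w ∉ Kc, h w = 0
  set c := volume.real (Metric.ball (0 : ℂ) 1) with hc
  have c0 : 0 < c := ENNReal.toReal_pos (Metric.measure_ball_pos _ _ one_pos).ne'
    measure_ball_lt_top.ne
  have fub : ∀ u h, (∀ i, GU (u i)) → (∀ p, GH (h p)) → (∀ z ∉ K, Φ u h z = 0) ∧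
      Integrable (Φ u h) ∧
      ∫ z, Φ u h z = (∏ i, c * ∫ q in (0 : ℝ)..1, u i q) * ∏ p, ∫ w, h p w := by
    intro u h hu hh
    have z0 : ∀ z ∉ K, Φ u h z = 0 := by
      intro z hz
      by_contra h0
      refine hz (memK z (fun p => by_contra fun h1 => ?_) fun i => by_contra fun h1 => ?_)
      · exact Finset.prod_ne_zero_iff.1 (right_ne_zero_of_mul h0) p (Finset.mem_univ p)
          ((hh p).2 _ h1)
      · exact left_ne_zero_of_mul (Finset.prod_ne_zero_iff.1 (left_ne_zero_of_mul h0) i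
          (Finset.mem_univ i)) ((hu i).2 _ (by linarith))
    have i0 : Integrable (Φ u h) := by
      refine integrable_of_supp hK hKX (ContinuousOn.mul
        (continuousOn_finsetProd _ fun i _ z hz => ContinuousAt.continuousWithinAt ?_)
        (continuousOn_finsetProd _ fun p _ => (hh p).1.comp (continuous_apply _).continuousOn
          fun z hz => hz.1 p)) z0
      exact ((hu i).1.continuousAt.comp (cd_QQ hz.1 i).continuousAt).mul
        (cd_ee hz.1 i).continuousAt
    refine ⟨z0, i0, (fubini u h i0).trans ?_⟩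
    congr 1
    exact Finset.prod_congr rfl fun i _ => radial _ fun q hq => (hu i).2 q (by nlinarith)
  have cc := cd_chi.continuous
  have cc1 := cont_chi1
  have g0 : GU (u0 L) := ⟨by unfold u0; fun_prop, fun q h => by simp [u0, (chi_neg h).1]⟩
  have g1 : GU (u1 L) := ⟨by unfold u1; fun_prop, fun q h => by simp [u1, (chi_neg h).2]⟩
  have g2 : GU (u2 L) := ⟨by unfold u2; fun_prop, fun q h => by simp [u2, (chi_neg h).1]⟩
  let h1 : ℂ → ℝ := fun w => deriv a w.re ^ 2 * b w.im ^ 2 + a w.re ^ 2 * deriv b w.im ^ 2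
  let h2 : ℂ → ℝ := fun w => a w.re ^ 2 * (b w.im ^ 2 * (w.im ^ 2)⁻¹)
  have out : ∀ w ∉ Kc, h1 w = 0 ∧ h2 w = 0 := by
    intro w hw
    have z1 : ∀ (u : ℝ → ℝ) x, x ∉ tsupport u → u x = 0 ∧ deriv u x = 0 := fun u x h =>
      ⟨image_eq_zero_of_notMem_tsupport h, by
        rw [(notMem_tsupport_iff_eventuallyEq.1 h).deriv_eq]; simp⟩
    rcases not_and_or.1 hw with h | h
    · simp [h1, h2, z1 a _ h]
    · simp [h1, h2, z1 b _ h]
  have ca := ha.continuous
  have cb := hb.continuous
  have ca' := ha.continuous_deriv (by simp)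
  have cb' := hb.continuous_deriv (by simp)
  have k1 : GH h1 := ⟨Continuous.continuousOn (by fun_prop), fun w h => (out w h).1⟩
  have k2 : GH h2 := ⟨ContinuousOn.mul (by fun_prop) (ContinuousOn.mul (by fun_prop)
    (ContinuousOn.inv₀ (by fun_prop) fun w hw => pow_ne_zero 2 (ne_of_gt hw))),
    fun w h => (out w h).2⟩
  obtain ⟨j1, l1⟩ := integral_re_im ia' ib0
  obtain ⟨j2, l2⟩ := integral_re_im ia ib'
  obtain ⟨j3, l3⟩ := integral_re_im ia ib
  set D := ∫ w, h2 w with hD
  have hD0 : 0 < D := by rw [l3]; positivity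
  have hA : ∫ w, h1 w ≤ (1 / 4 + δ) * D := by
    rw [integral_add j1 j2, l1, l2, l3]
    have t1 := hale 0
    simp only [zero_mul, zero_add, ne_eq, OfNat.ofNat_ne_zero, not_false_eq_true, zero_pow] at t1
    have t2 := mul_le_mul t1 hb1 (integral_nonneg fun _ => sq_nonneg _) (by positivity)
    have t3 := mul_le_mul_of_nonneg_left hb2 hapos.le
    linarith
  set I0 := ∫ q in (0 : ℝ)..1, u0 L q
  set I1 := ∫ q in (0 : ℝ)..1, u1 L q
  set I2 := ∫ q in (0 : ℝ)..1, u2 L q
  have hden : ∫ z, φ z ^ 2 * (gT 0 z).det.re = 4 / 10 ^ 18 * 11 ^ 20 * ((c * I0) ^ 2 * D ^ 18) := by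
    obtain ⟨z0, -, e⟩ := fub (fun _ => u0 L) (fun _ => h2) (fun _ => g0) fun _ => k2
    have : ∀ z, φ z ^ 2 * (gT 0 z).det.re =
        4 / 10 ^ 18 * 11 ^ 20 * Φ (fun _ => u0 L) (fun _ => h2) z := by
      intro z
      by_cases hz : z ∈ XX
      · have a0 := (sub_pos.2 (hz.2 0)).ne'
        have a1 := (sub_pos.2 (hz.2 1)).ne'
        have e : ∏ p, h2 (z (eJ (.inl p))) = H z ^ 2 * ∏ p, (yy z p ^ 2)⁻¹ := by
          rw [← Finset.prod_pow, ← Finset.prod_mul_distrib]
          exact Finset.prod_congr rfl fun k _ => by simp only [f, h2, yy]; ring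
        simp only [φ, Φ, mul_pow, psi_sq L (hz.2 _), det_zero hz, e, Fin.prod_univ_two]
        field_simp
      · rw [hφK z fun h => hz (hKX h), z0 z fun h => hz (hKX h)]
        simp
    simp only [this]
    rw [integral_const_mul, e]
    simp [hD, I0]
  let uA : PP → Fin 2 → ℝ → ℝ := fun p i => if i = p.1 then u2 L else u0 L
  let hA' : PP → PP → ℂ → ℝ := fun p k => if k = p then h1 else h2
  let uB : Fin 2 → Fin 2 → ℝ → ℝ := fun i k => if k = i then u1 L else u0 L
  have fA := fun p => fub (uA p) (hA' p) (fun i => by simp only [uA]; split_ifs; exacts [g2, g0])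
    fun i => by simp only [hA']; split_ifs; exacts [k1, k2]
  have fB := fun i => fub (uB i) (fun _ => h2)
    (fun i => by simp only [uB]; split_ifs; exacts [g1, g0]) fun _ => k2
  have hnum : ∫ z, gradSq (gT 0) φ z * (gT 0 z).det.re = 4 / 10 ^ 18 * 11 ^ 20 *
      (10 / 11 * (18 * (c * I2 * (c * I0) * ((∫ w, h1 w) * D ^ 17))) +
        2 / 11 * (2 * (c * I1 * (c * I0) * D ^ 18))) := by
    have : ∀ z, gradSq (gT 0) φ z * (gT 0 z).det.re = 4 / 10 ^ 18 * 11 ^ 20 *
        (10 / 11 * ∑ p, Φ (uA p) (hA' p) z + 2 / 11 * ∑ i, Φ (uB i) (fun _ => h2) z) := by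
      intro z
      by_cases hz : z ∈ XX
      · have a0 := sub_pos.2 (hz.2 0)
        have a1 := sub_pos.2 (hz.2 1)
        have hF := ((HD.oneSub 0 (QQ z)).comp (hasDerivAt_psi L a0)).mul
          ((HD.oneSub 1 (QQ z)).comp (hasDerivAt_psi L a1))
        let cF : Fin 2 → ℝ := fun i =>
          (psi1 L (1 - QQ z 0) * if i = 0 then -1 else 0) * psi L (1 - QQ z 1) +
            psi L (1 - QQ z 0) * (psi1 L (1 - QQ z 1) * if i = 1 then -1 else 0)
        let R : PP → ℝ := fun p => ∏ k ∈ Finset.univ.erase p, f (z (eJ (.inl k)))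
        let π : JJ → ℂ := Sum.elim (fun p => (psi L (1 - QQ z 0) * psi L (1 - QQ z 1) * R p : ℝ) *
          ((((b (yy z p) * deriv a (z (eJ (.inl p))).re : ℝ) : ℂ) -
            I * (a (z (eJ (.inl p))).re * deriv b (yy z p) : ℝ)) / 2))
          fun i => (H z * cF i * ee z i : ℝ) * (starRingEnd ℂ) (ww z i)
        have dH : ∀ α, dz (eJ α) (fun w => (H w : ℂ)) z = ∑ p, if α = .inl p then (R p : ℂ) *
            ((((b (yy z p) * deriv a (z (eJ (.inl p))).re : ℝ) : ℂ) -
            I * (a (z (eJ (.inl p))).re * deriv b (yy z p) : ℝ)) / 2) else 0 := by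
          intro α
          have := HasFDerivAt.finsetProd (u := Finset.univ)
            (g := fun k (w : EE) => f (w (eJ (.inl k)))) fun k _ => HasFDerivAt.comp (g := f)
              (f := fun w : EE => w (eJ (.inl k))) z (hfd _) (hasFDerivAt_apply _ z)
          rw [dz_real (dd hH.contDiffAt), this.fderiv]
          simp only [_root_.sum_apply, ofReal_sum, Finset.mul_sum, ← Finset.sum_sub_distrib,
            Finset.sum_div]
          refine Finset.sum_congr rfl fun p _ => ?_
          by_cases h : α = .inl p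
          · subst h
            simp [R, yy]
            ring
          · have : eJ (.inl p) ≠ eJ α := fun e => h (eJ.injective e).symm
            simp [h, this]
        have hπ : ∀ α, dz (eJ α) (fun w => (φ w : ℂ)) z = (Bm z *ᵥ π) α := by
          intro α
          simp only [φ, ofReal_mul (_ * _)]
          rw [dz_mul (diff_ofReal (diff_compQ hz.1 hF)) (diff_ofReal (dd hH.contDiffAt)),
            dz_compQ hz.1 hF, dH]
          simp only [mulVec, dotProduct, Fintype.sum_sum_type, Bm, of_apply, Sum.elim_inl,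
            Sum.elim_inr, π, Finset.mul_sum, Finset.sum_mul]
          rw [add_comm]
          congr 1
          · refine Finset.sum_congr rfl fun p _ => ?_
            split_ifs
            · push_cast; ring
            · simp
          · refine Finset.sum_congr rfl fun i _ => ?_
            simp only [cF]
            push_cast
            ring
        have hd : ∀ α, dK z α ≠ 0 := by
          rintro (p | i)
          · have := sub_pos.2 (hz.2 p.1)
            have := hz.1 p
            simp only [dK, Sum.elim_inl]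
            positivity
          · have := sub_pos.2 (hz.2 i)
            have := ee_pos z i
            simp only [dK, Sum.elim_inr]
            positivity
        rw [gradSq_fact hd (gT_zero hz) hπ, Fintype.sum_sum_type, det_zero hz]
        have eA : ∀ p : PP, ‖π (.inl p)‖ ^ 2 / dK z (.inl p) * ((∏ p, (yy z p ^ 2)⁻¹) *
            (ee z 0 * ee z 1) / ((1 - QQ z 0) ^ 11 * (1 - QQ z 1) ^ 11)) =
            10 / 44 * Φ (uA p) (hA' p) z := by
          intro p
          have y0 := (hz.1 p).ne'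
          have a2 := (sub_pos.2 (hz.2 p.1)).ne'
          have e1 : ∏ i, uA p i (QQ z i) * ee z i =
              (1 - QQ z p.1) * (u0 L (QQ z 0) * u0 L (QQ z 1) * (ee z 0 * ee z 1)) := by
            obtain ⟨i, j⟩ := p
            fin_cases i <;> simp [uA, u0, u2] <;> ring
          have e2 : ∏ k, hA' p k (z (eJ (.inl k))) = h1 (z (eJ (.inl p))) *
              (R p ^ 2 * ∏ k ∈ Finset.univ.erase p, (yy z k ^ 2)⁻¹) := by
            rw [← Finset.mul_prod_erase _ _ (Finset.mem_univ p), ← Finset.prod_pow,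
              ← Finset.prod_mul_distrib]
            congr 1
            · simp [hA']
            · refine Finset.prod_congr rfl fun k hk => ?_
              simp only [hA', Finset.ne_of_mem_erase hk, if_false, f, h2, yy]
              ring
          have e3 : ‖π (.inl p)‖ ^ 2 = psi L (1 - QQ z 0) ^ 2 * psi L (1 - QQ z 1) ^ 2 * R p ^ 2 *
              (h1 (z (eJ (.inl p))) / 4) := by
            simp only [π, Sum.elim_inl, norm_mul, norm_real, Real.norm_eq_abs, mul_pow, sq_abs]
            congr 1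
            rw [Complex.sq_norm, normSq_apply]
            simp [h1, yy]
            ring
          simp only [Φ, e1, e2, e3, psi_sq L (hz.2 _), dK, Sum.elim_inl]
          rw [← Finset.mul_prod_erase _ _ (Finset.mem_univ p)]
          field_simp
          ring
        have eB : ∀ i, ‖π (.inr i)‖ ^ 2 / dK z (.inr i) * ((∏ p, (yy z p ^ 2)⁻¹) *
            (ee z 0 * ee z 1) / ((1 - QQ z 0) ^ 11 * (1 - QQ z 1) ^ 11)) =
            2 / 44 * Φ (uB i) (fun _ => h2) z := by
          intro i
          have e0 := (ee_pos z i).ne'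
          have e : ∏ p, h2 (z (eJ (.inl p))) = H z ^ 2 * ∏ p, (yy z p ^ 2)⁻¹ := by
            rw [← Finset.prod_pow, ← Finset.prod_mul_distrib]
            exact Finset.prod_congr rfl fun k _ => by simp only [f, h2, yy]; ring
          have e3 : ‖π (.inr i)‖ ^ 2 = H z ^ 2 * ee z i * (cF i ^ 2 * QQ z i) := by
            simp only [π, Sum.elim_inr, norm_mul, norm_real, Real.norm_eq_abs, mul_pow, sq_abs,
              Complex.norm_conj, QQ]
            ring
          have e4 : cF i ^ 2 * QQ z i * (1 - QQ z i) ^ 2 = (1 - QQ z 0) ^ 11 * (1 - QQ z 1) ^ 11 *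
              (uB i 0 (QQ z 0) * uB i 1 (QQ z 1)) := by
            have s0 := psi_sq L (hz.2 0)
            have s1 := psi_sq L (hz.2 1)
            have t0 := psi1_sq L (hz.2 0)
            have t1 := psi1_sq L (hz.2 1)
            fin_cases i
            · simp only [cF, uB, Fin.zero_eta, if_true, zero_ne_one, one_ne_zero, if_false]
              linear_combination (1 - QQ z 0) ^ 2 * psi L (1 - QQ z 1) ^ 2 * t0 +
                (1 - QQ z 0) ^ 11 * u1 L (QQ z 0) * s1
            · simp only [cF, uB, Fin.mk_one, if_true, zero_ne_one, one_ne_zero, if_false]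
              linear_combination (1 - QQ z 1) ^ 2 * psi L (1 - QQ z 0) ^ 2 * t1 +
                (1 - QQ z 1) ^ 11 * u1 L (QQ z 1) * s0
          have a2 := (sub_pos.2 (hz.2 i)).ne'
          rw [← eq_div_iff (pow_ne_zero 2 a2)] at e4
          simp only [Φ, e, e3, e4, dK, Sum.elim_inr, Fin.prod_univ_two]
          field_simp
          ring
        rw [mul_left_comm, mul_assoc 4, add_mul, Finset.sum_mul, Finset.sum_mul]
        simp only [eA, eB, ← Finset.mul_sum]
        ring
      · rw [gradSq_eq_zero fun h => hz (hX h), zero_mul]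
        simp [fun p => (fA p).1 z fun h => hz (hKX h), fun i => (fB i).1 z fun h => hz (hKX h)]
    simp only [this]
    have iA := integrable_finsetSum Finset.univ fun p _ => (fA p).2.1
    have iB := integrable_finsetSum Finset.univ fun p _ => (fB p).2.1
    rw [integral_const_mul, integral_add (iA.const_mul _) (iB.const_mul _), integral_const_mul,
      integral_const_mul, integral_finsetSum _ fun p _ => (fA p).2.1,
      integral_finsetSum _ fun p _ => (fB p).2.1]
    have sA : ∀ p, ∫ z, Φ (uA p) (hA' p) z = c * I2 * (c * I0) * ((∫ w, h1 w) * D ^ 17) := by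
      intro p
      rw [(fA p).2.2]
      congr 1
      · obtain ⟨i, j⟩ := p
        fin_cases i <;> simp [uA, I0, I2, mul_comm]
      · rw [← Finset.mul_prod_erase _ _ (Finset.mem_univ p), Finset.prod_congr rfl (g := fun _ => D)
          (fun k hk => by simp only [hA', Finset.ne_of_mem_erase hk, if_false, hD])]
        simp [hA']
    have sB : ∀ i, ∫ z, Φ (uB i) (fun _ => h2) z = c * I1 * (c * I0) * D ^ 18 := by
      intro i
      rw [(fB i).2.2]
      congr 1
      · fin_cases i <;> simp [uB, I0, I1, mul_comm]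
      · simp [hD]
    simp [sA, sB]
  have hne : φ ≠ 0 := by
    intro h
    rw [h] at hden
    have : (0 : ℝ) < 4 / 10 ^ 18 * 11 ^ 20 * ((c * I0) ^ 2 * D ^ 18) := by positivity
    rw [← hden] at this
    simp at this
  refine (lambda0_le (fun z hz => posDef_gT OK_zero hz) hφ hcs hX hne).trans ?_
  rw [hnum, hden, mul_div_mul_left _ _ (by positivity), div_le_iff₀ (by positivity)]
  have t1 := mul_le_mul_of_nonneg_left hA
    (show 0 ≤ 180 / 11 * (c * I2 * (c * I0)) * D ^ 17 by positivity)
  have t2 := mul_le_mul_of_nonneg_left hI (show 0 ≤ c ^ 2 * I0 * D ^ 18 by positivity)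
  linarith

end Pool.Agent.P.MP_164ed8_gt.Q1
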