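import Pool.Agent.P.MP_164ed8_gt.Q1Hess

namespace Pool.Agent.P.MP_164ed8_gt.Vol

open Set Filter Topology Complex Matrix Pool.Agent.Lib.Kahler Pool.Agent.P.MP_164ed8_gt.Q1
open scoped ComplexOrder ContDiff

variable {n : ℕ} {X : Set (Fin n → ℂ)} {g : (Fin n → ℂ) → Matrix (Fin n) (Fin n) ℂ}

lemma contDiffAt_det {z : Fin n → ℂ} (h : ∀ j k, ContDiffAt ℝ ∞ (fun w => g w j k) z) :
    ContDiffAt ℝ ∞ (fun w => (g w).det) z := by
  simp only [det_apply']
  exact ContDiffAt.sum fun σ _ => contDiffAt_const.mul (contDiffAt_prod fun i _ => h _ _)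

lemma contDiffAt_adj {z : Fin n → ℂ} (h : ∀ j k, ContDiffAt ℝ ∞ (fun w => g w j k) z)
    (a b : Fin n) : ContDiffAt ℝ ∞ (fun w => (g w).adjugate a b) z := by
  simp only [adjugate_apply]
  refine contDiffAt_det (g := fun w => (g w).updateRow b (Pi.single a 1)) fun j k => ?_
  by_cases e : j = b
  · simp only [updateRow_apply, if_pos e]; exact contDiffAt_const
  · simp only [updateRow_apply, if_neg e]; exact h j k

/-- Jacobi formula -/
lemma dz_det {z : Fin n → ℂ} (h : ∀ j k, ContDiffAt ℝ ∞ (fun w => g w j k) z) (a : Fin n) :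
    dz a (fun w => (g w).det) z =
      ∑ i, ∑ c, (g z).adjugate i c * dz a (fun w => g w c i) z := by
  have hd : ∀ j k, DifferentiableAt ℝ (fun w => g w j k) z := fun j k =>
    (h j k).differentiableAt (by simp)
  have hp : ∀ σ : Equiv.Perm (Fin n), dz a (fun w => ∏ i, g w (σ i) i) z =
      ∑ i, (∏ j ∈ Finset.univ.erase i, g z (σ j) j) * dz a (fun w => g w (σ i) i) z := by
    intro σ
    rw [dz_of (HasFDerivAt.finsetProd (u := Finset.univ) fun i _ => (hd (σ i) i).hasFDerivAt)]
    simp only [_root_.sum_apply, _root_.smul_apply, smul_eq_mul, dz, Finset.mul_sum,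
      ← Finset.sum_sub_distrib, Finset.sum_div]
    exact Finset.sum_congr rfl fun i _ => by ring
  have e1 : ∀ i, ∑ c, (g z).adjugate i c * dz a (fun w => g w c i) z =
      ((g z).updateCol i fun c => dz a (fun w => g w c i) z).det := by
    intro i
    rw [← cramer_apply, cramer_eq_adjugate_mulVec]; rfl
  simp only [e1, det_apply']
  rw [dz_sum _ fun σ _ => (differentiableAt_const _).fun_mul
    ((contDiffAt_prod fun i _ => h (σ i) i).differentiableAt (by simp)), Finset.sum_comm]
  refine Finset.sum_congr rfl fun σ _ => ?_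
  rw [dz_const_mul ((contDiffAt_prod fun i _ => h (σ i) i).differentiableAt (by simp)), hp,
    Finset.mul_sum]
  refine Finset.sum_congr rfl fun i _ => ?_
  congr 1
  rw [← Finset.prod_erase_mul _ _ (Finset.mem_univ i), updateCol_self]
  congr 1
  exact Finset.prod_congr rfl fun j hj => by rw [updateCol_ne (Finset.ne_of_mem_erase hj)]

lemma kahler_at (hX : IsOpen X) (hg : IsKahler X g) {z : Fin n → ℂ} (hz : z ∈ X) (j k : Fin n) :
    ContDiffAt ℝ ∞ (fun w => g w j k) z := (hg.1 j k).contDiffAt (hX.mem_nhds hz)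

/-- the cofactor matrix of a Kaehler metric is divergence free -/
lemma div_adj (hX : IsOpen X) (hg : IsKahler X g) {z : Fin n → ℂ} (hz : z ∈ X) (b : Fin n) :
    ∑ c, dz c (fun w => (g w).adjugate b c) z = 0 := by
  have h := kahler_at hX hg hz
  have hd : ∀ j k, DifferentiableAt ℝ (fun w => g w j k) z := fun j k =>
    (h j k).differentiableAt (by simp)
  have ha : ∀ j k, DifferentiableAt ℝ (fun w => (g w).adjugate j k) z := fun j k =>
    (contDiffAt_adj h j k).differentiableAt (by simp)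
  have key : g z *ᵥ (fun b => ∑ c, dz c (fun w => (g w).adjugate b c) z) = 0 := by
    funext a
    have e : ∀ c, ∑ b, (dz c (fun w => g w a b) z * (g z).adjugate b c +
        g z a b * dz c (fun w => (g w).adjugate b c) z) =
        if a = c then dz c (fun w => (g w).det) z else 0 := by
      intro c
      have : (fun w => ∑ b, g w a b * (g w).adjugate b c) =
          fun w => if a = c then (g w).det else 0 := by
        funext w
        have := congrFun (congrFun (mul_adjugate (g w)) a) c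
        simpa [mul_apply, one_apply] using this
      have h2 := dz_sum Finset.univ (fun b _ => (hd a b).fun_mul (ha b c)) c
      rw [this] at h2
      simp only [dz_mul (hd _ _) (ha _ _)] at h2
      rw [← h2]
      by_cases hac : a = c
      · simp [hac]
      · simp [hac, dz_const]
    have e2 := Finset.sum_congr rfl fun c (_ : c ∈ Finset.univ) => e c
    rw [Finset.sum_ite_eq, if_pos (Finset.mem_univ _), dz_det h] at e2
    simp only [Finset.sum_add_distrib] at e2
    have e3 : ∑ c, ∑ b, dz c (fun w => g w a b) z * (g z).adjugate b c =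
        ∑ i, ∑ c, (g z).adjugate i c * dz a (fun w => g w c i) z := by
      rw [Finset.sum_comm]
      exact Finset.sum_congr rfl fun b _ => Finset.sum_congr rfl fun c _ => by
        rw [hg.2.2 z hz a b c, mul_comm]
    rw [e3, add_eq_left, Finset.sum_comm] at e2
    simpa [mulVec, dotProduct, Finset.mul_sum] using e2
  have := (Matrix.eq_zero_of_mulVec_eq_zero (hg.2.1 z hz).det_pos.ne' key)
  exact congrFun this b

/-- gradient vector field of a real function times the volume density -/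
noncomputable def WW (g : (Fin n → ℂ) → Matrix (Fin n) (Fin n) ℂ) (ψ : (Fin n → ℂ) → ℝ)
    (z : Fin n → ℂ) : Fin n → ℂ :=
  fun k => 2 * ∑ j, dzbar j (fun w => (ψ w : ℂ)) z * (g z).adjugate j k

lemma adj_eq {G : Matrix (Fin n) (Fin n) ℂ} (hG : G.PosDef) (j k : Fin n) :
    G.adjugate j k = (G.det.re : ℂ) * G⁻¹ j k := by
  have h1 : (G.det.re : ℂ) = G.det :=
    Complex.ext (by simp) (by simpa using (Complex.pos_iff.1 hG.det_pos).2)
  rw [h1, Matrix.inv_def, Ring.inverse_eq_inv', Matrix.smul_apply, smul_eq_mul,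
    mul_inv_cancel_left₀ hG.det_pos.ne']

lemma contDiffAt_WW {ψ : (Fin n → ℂ) → ℝ} {z : Fin n → ℂ}
    (h : ∀ j k, ContDiffAt ℝ ∞ (fun w => g w j k) z) (hψ : ContDiffAt ℝ ∞ ψ z) (k : Fin n) :
    ContDiffAt ℝ ∞ (fun w => WW g ψ w k) z :=
  contDiffAt_const.mul (ContDiffAt.sum fun j _ =>
    (contDiffAt_dzbar (contDiffAt_ofReal hψ) j).mul (contDiffAt_adj h j k))

lemma fderiv_WW {ψ : (Fin n → ℂ) → ℝ} {z : Fin n → ℂ} (hG : (g z).PosDef)
    (hψ : DifferentiableAt ℝ ψ z) :
    fderiv ℝ ψ z (WW g ψ z) = gradSq g ψ z * (g z).det.re := by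
  have : ∑ k, dz k (fun w => (ψ w : ℂ)) z * WW g ψ z k = ((2 * (g z).det.re : ℝ) : ℂ) *
      ∑ j, ∑ k, (starRingEnd ℂ) (dz j (fun w => (ψ w : ℂ)) z) * (g z)⁻¹ j k *
        dz k (fun w => (ψ w : ℂ)) z := by
    rw [Finset.sum_comm]
    simp only [WW, dzbar_eq_conj hψ, adj_eq hG, Finset.mul_sum]
    exact Finset.sum_congr rfl fun k _ => Finset.sum_congr rfl fun j _ => by push_cast; ring
  rw [fderiv_eq_dz hψ, this, re_ofReal_mul, gradSq]
  ring

lemma divg_WW (hX : IsOpen X) (hg : IsKahler X g) {ψ : (Fin n → ℂ) → ℝ} {z : Fin n → ℂ}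
    (hz : z ∈ X) (hψ : ContDiffAt ℝ ∞ ψ z) :
    divg (WW g ψ) z = 2 * ((g z)⁻¹ * hess ψ z).trace.re * (g z).det.re := by
  have h := kahler_at hX hg hz
  have h1 : ∀ j, DifferentiableAt ℝ (dzbar j fun w => (ψ w : ℂ)) z := fun j =>
    (contDiffAt_dzbar (contDiffAt_ofReal hψ) j).differentiableAt (by simp)
  have ha : ∀ j k, DifferentiableAt ℝ (fun w => (g w).adjugate j k) z := fun j k =>
    (contDiffAt_adj h j k).differentiableAt (by simp)
  rw [divg_eq fun k => (contDiffAt_WW h hψ k).differentiableAt (by simp)]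
  have e : ∀ k, dz k (fun w => WW g ψ w k) z =
      ∑ j, (hess ψ z k j * (g z).adjugate j k + 2 * (dzbar j (fun w => (ψ w : ℂ)) z *
        dz k (fun w => (g w).adjugate j k) z)) := by
    intro k
    simp only [WW]
    rw [dz_const_mul (DifferentiableAt.fun_sum fun j _ => (h1 j).fun_mul (ha j k)),
      dz_sum _ fun j _ => (h1 j).fun_mul (ha j k), Finset.mul_sum]
    refine Finset.sum_congr rfl fun j _ => ?_
    rw [dz_mul (h1 j) (ha j k), hess, of_apply]; ring
  have e2 : ∑ k, dz k (fun w => WW g ψ w k) z =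
      ((g z).det.re : ℂ) * ((g z)⁻¹ * hess ψ z).trace := by
    simp only [e]
    rw [Finset.sum_comm]
    simp only [Finset.sum_add_distrib, ← Finset.mul_sum, div_adj hX hg hz, mul_zero,
      add_zero, adj_eq (hg.2.1 z hz), trace, diag_apply, mul_apply]
    simp only [Finset.mul_sum]
    exact Finset.sum_congr rfl fun j _ => Finset.sum_congr rfl fun k _ => by ring
  rw [e2, re_ofReal_mul]; ring

lemma trace_nonneg_of {G A : Matrix (Fin n) (Fin n) ℂ} (hG : G.PosDef) (hA : A.IsHermitian)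
    (h : ∀ v : Fin n → ℂ, 0 ≤ (∑ j, ∑ k, A j k * v j * (starRingEnd ℂ) (v k)).re) :
    0 ≤ (G⁻¹ * A).trace.re := by
  have hP : A.PosSemidef := by
    refine PosSemidef.of_dotProduct_mulVec_nonneg hA fun x => ?_
    have e : star x ⬝ᵥ A *ᵥ x = ∑ j, ∑ k, A j k * (star x) j * (starRingEnd ℂ) ((star x) k) := by
      simp only [dotProduct, mulVec, Finset.mul_sum, Pi.star_apply, RCLike.star_def, conj_conj]
      exact Finset.sum_congr rfl fun j _ => Finset.sum_congr rfl fun k _ => by ring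
    rw [Complex.nonneg_iff]
    exact ⟨by rw [e]; exact h _, (hA.im_star_dotProduct_mulVec_self x).symm⟩
  obtain ⟨B, hB⟩ : ∃ B : Matrix (Fin n) (Fin n) ℂ, G⁻¹ = star B * B := by
    open scoped MatrixOrder Matrix.Norms.L2Operator in
    exact CStarAlgebra.nonneg_iff_eq_star_mul_self.1 hG.inv.posSemidef.nonneg
  rw [hB, Matrix.mul_assoc, trace_mul_comm]
  exact (Complex.nonneg_iff.1 (hP.mul_mul_conjTranspose_same B).trace_nonneg).1

lemma trace_sub_eq {G H : Matrix (Fin n) (Fin n) ℂ} (hG : G.PosDef) :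
    (G⁻¹ * (G - H)).trace.re = n - (G⁻¹ * H).trace.re := by
  rw [Matrix.mul_sub, nonsing_inv_mul _ ((isUnit_iff_isUnit_det _).1 hG.isUnit), trace_sub]
  simp

lemma sum_sub_form (G H : Matrix (Fin n) (Fin n) ℂ) (v : Fin n → ℂ) :
    (∑ j, ∑ k, (G - H) j k * v j * (starRingEnd ℂ) (v k)).re =
      (∑ j, ∑ k, G j k * v j * (starRingEnd ℂ) (v k)).re -
      (∑ j, ∑ k, H j k * v j * (starRingEnd ℂ) (v k)).re := by
  simp only [Matrix.sub_apply, sub_mul, Finset.sum_sub_distrib, sub_re]

/-- logarithm of the volume density -/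
noncomputable def ld (g : (Fin n → ℂ) → Matrix (Fin n) (Fin n) ℂ) (z : Fin n → ℂ) : ℝ :=
  Real.log (g z).det.re

lemma contDiffAt_ld (hX : IsOpen X) (hg : IsKahler X g) {z : Fin n → ℂ} (hz : z ∈ X) :
    ContDiffAt ℝ ∞ (ld g) z :=
  (reCLM.contDiff.contDiffAt.comp z (contDiffAt_det (kahler_at hX hg hz))).log
    (det_re_pos (hg.2.1 z hz)).ne'

lemma divg_le (hX : IsOpen X) (hg : IsKahler X g) {z : Fin n → ℂ} (hz : z ∈ X)
    (hR : ∀ v, - normSq g z v ≤ ricci g z v) : divg (WW g (ld g)) z ≤ 2 * n * (g z).det.re := by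
  have hG := hg.2.1 z hz
  have h := trace_nonneg_of hG (hG.isHermitian.sub (hess_herm (contDiffAt_ld hX hg hz))) fun v => by
    have := hR v
    rw [ricci_eq] at this
    rw [sum_sub_form]
    exact sub_nonneg.2 (neg_le_neg_iff.1 this)
  rw [trace_sub_eq hG] at h
  rw [divg_WW hX hg hz (contDiffAt_ld hX hg hz)]
  exact mul_le_mul_of_nonneg_right (by linarith) (det_re_pos hG).le

lemma divg_ge (hX : IsOpen X) (hg : IsKahler X g) {z : Fin n → ℂ} (hz : z ∈ X)
    (hR : ∀ v, ricci g z v ≤ - normSq g z v) : 2 * n * (g z).det.re ≤ divg (WW g (ld g)) z := by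
  have hG := hg.2.1 z hz
  have h := trace_nonneg_of hG ((hess_herm (contDiffAt_ld hX hg hz)).sub hG.isHermitian) fun v => by
    have := hR v
    rw [ricci_eq] at this
    rw [sum_sub_form]
    exact sub_nonneg.2 (neg_le_neg_iff.1 this)
  rw [← neg_sub, Matrix.mul_neg, trace_neg, neg_re, trace_sub_eq hG] at h
  rw [divg_WW hX hg hz (contDiffAt_ld hX hg hz)]
  exact mul_le_mul_of_nonneg_right (by linarith) (det_re_pos hG).le

end Pool.Agent.P.MP_164ed8_gt.Vol
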