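import Pool.Agent.P.MP_164ed8_gt.VolA

namespace Pool.Agent.P.MP_164ed8_gt.Vol

open Set Filter Topology MeasureTheory Matrix Pool.Agent.Lib.Kahler Pool.Agent.P.MP_164ed8_gt.Q1
open scoped ComplexOrder ContDiff

variable {n : ℕ} {X : Set (Fin n → ℂ)} {g : (Fin n → ℂ) → Matrix (Fin n) (Fin n) ℂ}

lemma exists_profile {β : ℝ} (hβ : 0 < β) : ∃ (F H : ℝ → ℝ) (M C : ℝ), ContDiff ℝ ∞ F ∧
    ContDiff ℝ 1 H ∧ (∀ s, 1 ≤ s → F s = 0) ∧ (∀ s, 1 ≤ s → H s = 0) ∧
    (∀ s, HasDerivAt H (-(deriv F s) ^ 2) s) ∧ (∀ s, 0 ≤ H s) ∧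
    (∀ s, s ≤ 0 → F s ^ 2 = Real.exp (-β * s)) ∧ (∀ s, F s ^ 2 ≤ Real.exp (-β * s)) ∧
    (∀ s, s ≤ 0 → H s = β / 4 * Real.exp (-β * s) + M) ∧ ∀ s, H s ≤ C * Real.exp (-β * s) := by
  set F : ℝ → ℝ := fun s => Real.exp (-β * s / 2) * Real.smoothTransition (1 - s) with hFd
  have hF : ContDiff ℝ ∞ F := by
    refine ContDiff.mul (by fun_prop) (Real.smoothTransition.contDiff.comp (by fun_prop))
  have hF1 : ∀ s, 1 ≤ s → F s = 0 := fun s hs => by
    simp [hFd, Real.smoothTransition.zero_of_nonpos (sub_nonpos.2 hs)]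
  have hF0 : ∀ s, s ≤ 0 → F s = Real.exp (-β * s / 2) := fun s hs => by
    simp only [hFd, Real.smoothTransition.one_of_one_le (show 1 ≤ 1 - s by linarith), mul_one]
  have hsq : ∀ s, Real.exp (-β * s / 2) ^ 2 = Real.exp (-β * s) := fun s => by
    rw [← Real.exp_nat_mul]; congr 1; push_cast; ring
  have hc : Continuous fun s => -(deriv F s) ^ 2 := ((hF.continuous_deriv (by simp)).pow 2).neg
  set H : ℝ → ℝ := fun s => ∫ t in (1 : ℝ)..s, -(deriv F t) ^ 2 with hHd
  have hH : ∀ s, HasDerivAt H (-(deriv F s) ^ 2) s := fun s =>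
    (hc.integral_hasStrictDerivAt 1 s).hasDerivAt
  have hd : Differentiable ℝ H := fun s => (hH s).differentiableAt
  have hanti : Antitone H := antitone_of_deriv_nonpos hd fun s => by
    rw [(hH s).deriv]; exact neg_nonpos.2 (sq_nonneg _)
  have hH1 : ∀ s, 1 ≤ s → H s = 0 := by
    intro s hs
    refine intervalIntegral.integral_zero_ae (Eventually.of_forall fun t ht => ?_)
    rw [uIoc_of_le hs] at ht
    have : F =ᶠ[𝓝 t] fun _ => 0 := by
      filter_upwards [Ioi_mem_nhds ht.1] with u hu using hF1 u hu.le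
    simp [this.deriv_eq]
  have hH0 : ∀ s, 0 ≤ H s := fun s => by
    rw [← hH1 (max s 1) (le_max_right _ _)]; exact hanti (le_max_left _ _)
  have hneg : ∀ s, s ≤ 0 → H s = β / 4 * Real.exp (-β * s) + (H 0 - β / 4) := by
    intro s hs
    have h1 : ∀ t, HasDerivAt (fun t => H t - β / 4 * Real.exp (-β * t))
        (-(deriv F t) ^ 2 - β / 4 * (Real.exp (-β * t) * -β)) t := fun t =>
      (hH t).sub (((by simpa using (hasDerivAt_id t).const_mul (-β) :
        HasDerivAt (fun t => -β * t) (-β) t).exp).const_mul _)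
    have := constant_of_has_deriv_right_zero (f := fun t => H t - β / 4 * Real.exp (-β * t))
      (a := s) (b := 0) (fun t _ => (h1 t).continuousAt.continuousWithinAt) (fun t ht => ?_) 0
      ⟨hs, le_rfl⟩
    · simp only [mul_zero, Real.exp_zero] at this; linarith
    have e : F =ᶠ[𝓝 t] fun u => Real.exp (-β * u / 2) := by
      filter_upwards [Iio_mem_nhds ht.2] with u hu using hF0 u hu.le
    have e2 : HasDerivAt (fun u => Real.exp (-β * u / 2)) (Real.exp (-β * t / 2) * (-β / 2)) t :=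
      (by simpa using ((hasDerivAt_id t).const_mul (-β)).div_const 2 :
        HasDerivAt (fun u => -β * u / 2) (-β / 2) t).exp
    have e3 := h1 t
    rw [e.deriv_eq, e2.deriv, mul_pow, hsq,
      show -(Real.exp (-β * t) * (-β / 2) ^ 2) - β / 4 * (Real.exp (-β * t) * -β) = 0 by ring] at e3
    exact e3.hasDerivWithinAt
  refine ⟨F, H, H 0 - β / 4, β / 4 + H 0 * Real.exp β, hF, ?_, hF1, hH1, hH, hH0,
    fun s hs => by rw [hF0 s hs, hsq], fun s => ?_, hneg, fun s => ?_⟩
  · rw [contDiff_one_iff_deriv]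
    exact ⟨hd, by rw [funext fun s => (hH s).deriv]; exact hc⟩
  · simp only [hFd, mul_pow, hsq]
    exact mul_le_of_le_one_right (Real.exp_pos _).le
      (pow_le_one₀ (Real.smoothTransition.nonneg _) (Real.smoothTransition.le_one _))
  · have h0 := hH0 0
    have hp := Real.exp_pos (-β * s)
    rcases le_total 1 s with hs | hs
    · rw [hH1 s hs]; positivity
    have h2 : H 0 ≤ H 0 * Real.exp β * Real.exp (-β * s) := by
      rw [mul_assoc, ← Real.exp_add]
      exact le_mul_of_one_le_right h0 (Real.one_le_exp (by nlinarith))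
    rcases le_total s 0 with hs0 | hs0
    · rw [hneg s hs0]; nlinarith
    · have := hanti hs0
      nlinarith [mul_pos hβ hp]

lemma cut (hX : IsOpen X) (hg : IsKahler X g)
    (hK : ∀ t, IsCompact {z | z ∈ X ∧ (g z).det.re ≤ t}) {m : WithTop ℕ∞} (hm : m ≤ ∞)
    {G : ℝ → ℝ} (hG : ContDiff ℝ m G) (h1 : ∀ s, 1 ≤ s → G s = 0) (k : ℝ) :
    ContDiff ℝ m (X.indicator fun z => G (ld g z - k)) ∧
    HasCompactSupport (X.indicator fun z => G (ld g z - k)) ∧
    tsupport (X.indicator fun z => G (ld g z - k)) ⊆ X := by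
  have hc := hK (Real.exp (k + 1))
  have hs : tsupport (X.indicator fun z => G (ld g z - k)) ⊆
      {z | z ∈ X ∧ (g z).det.re ≤ Real.exp (k + 1)} := by
    refine closure_minimal (fun z hz => ?_) hc.isClosed
    have hzX : z ∈ X := by by_contra h; exact hz (indicator_of_notMem h _)
    refine ⟨hzX, ?_⟩
    by_contra h
    apply hz
    rw [indicator_of_mem hzX]
    apply h1
    have := (Real.le_log_iff_exp_le (det_re_pos (hg.2.1 z hzX))).2 (not_le.1 h).le
    unfold ld; linarith
  refine ⟨contDiff_iff_contDiffAt.2 fun z => ?_, hc.of_isClosed_subset (isClosed_tsupport _) hs,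
    fun z hz => (hs hz).1⟩
  by_cases hz : z ∈ X
  · refine (hG.contDiffAt.comp z (((contDiffAt_ld hX hg hz).of_le hm).sub
      (contDiffAt_const (c := k)))).congr_of_eventuallyEq ?_
    filter_upwards [hX.mem_nhds hz] with w hw using indicator_of_mem hw _
  · exact (contDiffAt_const (c := (0 : ℝ))).congr_of_eventuallyEq
      (notMem_tsupport_iff_eventuallyEq.1 fun h => hz (hs h).1)

lemma gradSq_comp {φ ψ : (Fin n → ℂ) → ℝ} {z : Fin n → ℂ} (h : DifferentiableAt ℝ ψ z)
    {F : ℝ → ℝ} {F' : ℝ} (hF : HasDerivAt F F' (ψ z)) (e : φ =ᶠ[𝓝 z] fun w => F (ψ w)) :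
    gradSq g φ z = F' ^ 2 * gradSq g ψ z := by
  have e1 : ∀ j, dz j (fun w => (φ w : ℂ)) z = F' * dz j (fun w => (ψ w : ℂ)) z := fun j => by
    rw [← dz_comp_real h hF]
    exact dz_congr (by filter_upwards [e] with w hw; rw [hw]) j
  simp only [gradSq, e1, map_mul, Complex.conj_ofReal]
  rw [mul_left_comm (F' ^ 2), ← Complex.re_ofReal_mul (F' ^ 2), Finset.mul_sum]
  congr 2
  refine Finset.sum_congr rfl fun j _ => ?_
  rw [Finset.mul_sum]
  exact Finset.sum_congr rfl fun k _ => by push_cast; ring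

lemma step (hX : IsOpen X) (hg : IsKahler X g) (hR : ∀ z ∈ X, ∀ v, - normSq g z v ≤ ricci g z v)
    (hK : ∀ t, IsCompact {z | z ∈ X ∧ (g z).det.re ≤ t}) {F H : ℝ → ℝ} (hF : ContDiff ℝ ∞ F)
    (hH : ContDiff ℝ 1 H) (hF1 : ∀ s, 1 ≤ s → F s = 0) (hH1 : ∀ s, 1 ≤ s → H s = 0)
    (hd : ∀ s, HasDerivAt H (-(deriv F s) ^ 2) s) (h0 : ∀ s, 0 ≤ H s) (k : ℝ) :
    0 ≤ ∫ z in X, (2 * n * H (ld g z - k) - lambda0 X g * F (ld g z - k) ^ 2) * (g z).det.re := by
  obtain ⟨a1, a2, a3⟩ := cut hX hg hK le_rfl hF hF1 k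
  obtain ⟨b1, b2, b3⟩ := cut hX hg hK (by simp) hH hH1 k
  set φ := X.indicator fun z => F (ld g z - k) with hφ
  set η := X.indicator fun z => H (ld g z - k) with hη
  have hc : ∀ j k, ContinuousOn (fun z => g z j k) X := fun j k => (hg.1 j k).continuousOn
  have hW : ContDiffOn ℝ 1 (WW g (ld g)) X := fun z hz => (contDiffAt_pi.2 fun j =>
    (contDiffAt_WW (kahler_at hX hg hz) (contDiffAt_ld hX hg hz) j).of_le (by simp)).contDiffWithinAt
  obtain ⟨i1, e1⟩ := ibp hX hW b1 b2 b3
  have i2 : Integrable fun z => φ z ^ 2 * (g z).det.re :=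
    integrable_of_supp a2 a3 ((a1.continuous.pow 2).continuousOn.mul (contOn_det hc))
      fun z hz => by simp [image_eq_zero_of_notMem_tsupport hz]
  have i3 : Integrable fun z => gradSq g φ z * (g z).det.re :=
    integrable_of_supp a2 a3 ((contOn_gradSq hc hg.2.1 a1).mul (contOn_det hc))
      fun z hz => by simp [gradSq_eq_zero hz]
  have i4 : Integrable fun z => 2 * n * η z * (g z).det.re :=
    integrable_of_supp b2 b3 ((continuous_const.mul b1.continuous).continuousOn.mul (contOn_det hc))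
      fun z hz => by simp [image_eq_zero_of_notMem_tsupport hz]
  have h1 : lambda0 X g * ∫ z, φ z ^ 2 * (g z).det.re ≤ ∫ z, gradSq g φ z * (g z).det.re := by
    by_cases h : φ = 0
    · have : ∀ z, gradSq g φ z = 0 := fun z => gradSq_eq_zero (by simp [h])
      simp only [this]; simp [h]
    · exact (le_div_iff₀ (den_pos hX hc hg.2.1 a1 a2 a3 h)).1 (lambda0_le hg.2.1 a1 a2 a3 h)
  have h2 : ∫ z, gradSq g φ z * (g z).det.re ≤ ∫ z, 2 * n * η z * (g z).det.re := by
    rw [← add_zero (∫ z, gradSq g φ z * _), ← e1, ← integral_add i3 i1]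
    refine integral_mono (i3.add i1) i4 fun z => ?_
    by_cases hz : z ∈ X
    · have hl : DifferentiableAt ℝ (ld g) z := (contDiffAt_ld hX hg hz).differentiableAt (by simp)
      have f1 : HasDerivAt (fun s => F (s - k)) (deriv F (ld g z - k)) (ld g z) :=
        (hF.differentiable (by simp) _).hasDerivAt.comp_sub_const _ _
      have f2 : HasDerivAt (fun s => H (s - k)) (-(deriv F (ld g z - k)) ^ 2) (ld g z) :=
        (hd _).comp_sub_const _ _
      have g1 := gradSq_comp (g := g) (φ := φ) hl f1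
        (by filter_upwards [hX.mem_nhds hz] with w hw using indicator_of_mem hw _)
      have g2 : η =ᶠ[𝓝 z] (fun s => H (s - k)) ∘ ld g := by
        filter_upwards [hX.mem_nhds hz] with w hw using indicator_of_mem hw _
      have g3 : 0 ≤ η z := by rw [hη, indicator_of_mem hz]; exact h0 _
      have g4 := mul_le_mul_of_nonneg_right (divg_le hX hg hz (hR z hz)) g3
      simp only [g1, g2.fderiv_eq, (f2.comp_hasFDerivAt z hl.hasFDerivAt).fderiv,
        _root_.smul_apply, smul_eq_mul, fderiv_WW (hg.2.1 z hz) hl]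
      linarith
    · have n1 : z ∉ tsupport φ := fun h => hz (a3 h)
      have n2 : z ∉ tsupport η := fun h => hz (b3 h)
      simp [gradSq_eq_zero n1, image_eq_zero_of_notMem_tsupport n2,
        (notMem_tsupport_iff_eventuallyEq.1 n2).fderiv_eq]
  have h3 : ∫ z in X, (2 * n * H (ld g z - k) - lambda0 X g * F (ld g z - k) ^ 2) * (g z).det.re =
      ∫ z, (2 * n * η z * (g z).det.re - lambda0 X g * (φ z ^ 2 * (g z).det.re)) := by
    rw [← integral_indicator hX.measurableSet]
    refine integral_congr_ae (Eventually.of_forall fun z => ?_)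
    by_cases hz : z ∈ X
    · simp only [hφ, hη, indicator_of_mem hz]; ring
    · simp [hφ, hη, indicator_of_notMem hz]
  rw [h3, integral_sub i4 (i2.const_mul _), integral_const_mul (lambda0 X g)]
  linarith

/-- upper bound for the bottom of the spectrum from integrability of a power of the volume density -/
theorem lambda0_le_of_integrable (hX : IsOpen X) (hne : X.Nonempty) (hg : IsKahler X g)
    (hR : ∀ z ∈ X, ∀ v, - normSq g z v ≤ ricci g z v)
    (hK : ∀ t, IsCompact {z | z ∈ X ∧ (g z).det.re ≤ t}) {β : ℝ} (hβ : 0 < β)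
    (hI : IntegrableOn (fun z => (g z).det.re ^ (1 - β)) X) : lambda0 X g ≤ β * n / 2 := by
  obtain ⟨F, H, M, C, hF, hH, hF1, hH1, hd, h0, hF0, hFb, hH0, hHb⟩ := exists_profile hβ
  set L := lambda0 X g
  have hc : ∀ j k, ContinuousOn (fun z => g z j k) X := fun j k => (hg.1 j k).continuousOn
  have hl : ContinuousOn (ld g) X := fun z hz =>
    (contDiffAt_ld hX hg hz).continuousAt.continuousWithinAt
  have ep : ∀ z ∈ X, ∀ k : ℝ, Real.exp (-β * k) * Real.exp (-β * (ld g z - k)) * (g z).det.re =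
      (g z).det.re ^ (1 - β) := by
    intro z hz k
    have hp := det_re_pos (hg.2.1 z hz)
    rw [Real.rpow_def_of_pos hp, ← Real.exp_add]
    nth_rewrite 1 [← Real.exp_log hp]
    rw [← Real.exp_add, ld]; congr 1; ring
  have lim := tendsto_integral_of_dominated_convergence (μ := volume.restrict X)
    (F := fun (k : ℕ) z => Real.exp (-β * k) *
      ((2 * n * H (ld g z - k) - L * F (ld g z - k) ^ 2) * (g z).det.re))
    (f := fun z => (β * n / 2 - L) * (g z).det.re ^ (1 - β))
    (fun z => (2 * n * C + |L|) * (g z).det.re ^ (1 - β)) (fun k => ?_) (hI.const_mul _)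
    (fun k => ?_) ?_
  · have h1 : 0 ≤ ∫ z in X, (β * n / 2 - L) * (g z).det.re ^ (1 - β) := by
      refine ge_of_tendsto' lim fun k => ?_
      rw [integral_const_mul]
      exact mul_nonneg (Real.exp_pos _).le (step hX hg hR hK hF hH hF1 hH1 hd h0 k)
    have h2 : 0 < ∫ z in X, (g z).det.re ^ (1 - β) := by
      have hp : ∀ z ∈ X, 0 < (g z).det.re ^ (1 - β) := fun z hz =>
        Real.rpow_pos_of_pos (det_re_pos (hg.2.1 z hz)) _
      rw [setIntegral_pos_iff_support_of_nonneg_ae
        (ae_restrict_of_forall_mem hX.measurableSet fun z hz => (hp z hz).le) hI]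
      exact (hX.measure_pos volume hne).trans_le (measure_mono fun z hz => ⟨(hp z hz).ne', hz⟩)
    rw [integral_const_mul] at h1
    linarith [nonneg_of_mul_nonneg_left h1 h2]
  · have h1 : ContinuousOn (fun z => ld g z - k) X := hl.sub continuousOn_const
    exact (continuousOn_const.mul (((continuousOn_const.mul
      (hH.continuous.comp_continuousOn h1)).sub (continuousOn_const.mul
      ((hF.continuous.comp_continuousOn h1).pow 2))).mul (contOn_det hc))).aestronglyMeasurable
      hX.measurableSet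
  · refine ae_restrict_of_forall_mem hX.measurableSet fun z hz => ?_
    have hp := det_re_pos (hg.2.1 z hz)
    rw [← ep z hz k, Real.norm_eq_abs, abs_mul, abs_mul, abs_of_pos (Real.exp_pos _), abs_of_pos hp]
    have h1 : |2 * n * H (ld g z - k) - L * F (ld g z - k) ^ 2| ≤
        (2 * n * C + |L|) * Real.exp (-β * (ld g z - k)) := by
      refine (abs_sub _ _).trans ?_
      rw [abs_of_nonneg (mul_nonneg (by positivity) (h0 _)), abs_mul L, abs_sq,
        add_mul, mul_assoc (2 * (n : ℝ))]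
      exact add_le_add (mul_le_mul_of_nonneg_left (hHb _) (by positivity))
        (mul_le_mul_of_nonneg_left (hFb _) (abs_nonneg _))
    calc _ ≤ Real.exp (-β * k) * ((2 * n * C + |L|) * Real.exp (-β * (ld g z - k)) *
          (g z).det.re) := by gcongr
      _ = _ := by ring
  · refine ae_restrict_of_forall_mem hX.measurableSet fun z hz => ?_
    have h1 : Tendsto (fun k : ℕ => Real.exp (-β * k)) atTop (𝓝 0) :=
      Real.tendsto_exp_atBot.comp
        (tendsto_natCast_atTop_atTop.const_mul_atTop_of_neg (neg_lt_zero.2 hβ))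
    have h2 := (h1.mul_const (2 * n * M * (g z).det.re)).const_add
      ((β * n / 2 - L) * (g z).det.re ^ (1 - β))
    rw [zero_mul, add_zero] at h2
    refine h2.congr' ?_
    filter_upwards [tendsto_natCast_atTop_atTop.eventually_ge_atTop (ld g z)] with k hk
    rw [hH0 _ (sub_nonpos.2 hk), hF0 _ (sub_nonpos.2 hk), ← ep z hz k]
    ring

end Pool.Agent.P.MP_164ed8_gt.Vol
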