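import Pool.Agent.P.MP_164ed8_gt.VolB

namespace Pool.Agent.P.MP_164ed8_gt.Vol

open Set Filter Topology MeasureTheory Matrix Pool.Agent.Lib.Kahler Pool.Agent.P.MP_164ed8_gt.Q1
open scoped ComplexOrder ContDiff

variable {n : ℕ} {X : Set (Fin n → ℂ)} {g : (Fin n → ℂ) → Matrix (Fin n) (Fin n) ℂ}

lemma normSq_WW {ψ : (Fin n → ℂ) → ℝ} {z : Fin n → ℂ} (hG : (g z).PosDef)
    (hψ : DifferentiableAt ℝ ψ z) :
    normSq g z (WW g ψ z) = gradSq g ψ z * (g z).det.re ^ 2 := by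
  have h1 : ((g z).det.re : ℂ) = (g z).det :=
    Complex.ext (by simp) (by simpa using (Complex.pos_iff.1 hG.det_pos).2)
  have e : ∀ k, ∑ j, g z j k * WW g ψ z j =
      2 * ((g z).det.re : ℂ) * dzbar k (fun w => (ψ w : ℂ)) z := by
    intro k
    have := congrFun (vecMul_vecMul (fun j => dzbar j (fun w => (ψ w : ℂ)) z) (g z).adjugate (g z)) k
    rw [adjugate_mul, vecMul_smul, vecMul_one, ← h1] at this
    simp only [vecMul, dotProduct, Pi.smul_apply, smul_eq_mul] at this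
    rw [mul_assoc, ← this, Finset.mul_sum]
    exact Finset.sum_congr rfl fun j _ => by rw [WW]; ring
  have e2 : ∑ j, ∑ k, g z j k * WW g ψ z j * (starRingEnd ℂ) (WW g ψ z k) =
      ((2 * (g z).det.re : ℝ) : ℂ) *
        (starRingEnd ℂ) (∑ k, dz k (fun w => (ψ w : ℂ)) z * WW g ψ z k) := by
    rw [Finset.sum_comm, map_sum, Finset.mul_sum]
    refine Finset.sum_congr rfl fun k _ => ?_
    rw [← Finset.sum_mul, e, dzbar_eq_conj hψ, map_mul]; push_cast; ring
  have e3 := fderiv_WW hG hψ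
  rw [fderiv_eq_dz hψ] at e3
  rw [Lib.Kahler.normSq, e2, Complex.re_ofReal_mul, Complex.conj_re]
  linear_combination (g z).det.re * e3

lemma gradSq_le {ψ : (Fin n → ℂ) → ℝ} {z : Fin n → ℂ} (hG : (g z).PosDef)
    (hψ : DifferentiableAt ℝ ψ z) {K : ℝ} (hK : 0 ≤ K)
    (h : ∀ v, fderiv ℝ ψ z v ^ 2 ≤ K * normSq g z v) : gradSq g ψ z ≤ K := by
  have h1 := h (WW g ψ z)
  rw [fderiv_WW hG hψ, normSq_WW hG hψ, mul_pow, ← mul_assoc] at h1
  have h2 := le_of_mul_le_mul_right h1 (pow_pos (det_re_pos hG) 2)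
  by_contra h3
  nlinarith [not_le.1 h3]

/-- Barta bound for an Einstein metric -/
lemma barta (hX : IsOpen X) (hne : X.Nonempty) (hg : IsKahler X g)
    (hR : ∀ z ∈ X, ∀ v, ricci g z v ≤ - normSq g z v) {β : ℝ} (hβ : 0 ≤ β)
    (h : ∀ z ∈ X, β * gradSq g (ld g) z ≤ 2 * n) : β * n / 2 ≤ lambda0 X g := by
  have hW : ∀ z ∈ X, ∀ j, ContDiffAt ℝ ∞ (fun w => WW g (ld g) w j) z := fun z hz j =>
    contDiffAt_WW (kahler_at hX hg hz) (contDiffAt_ld hX hg hz) j
  refine le_lambda0 hX hne (fun j k => (hg.1 j k).continuousOn) hg.2.1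
    (fun z => (-β / 2 / (g z).det.re) • WW g (ld g) z)
    (fun z j => ((-β / 2 : ℝ) : ℂ) * WW g (ld g) z j) (fun z hz => ?_) (fun z hz => ?_) _
    fun z hz => ?_
  · exact (contDiffAt_pi.2 fun j =>
      (contDiffAt_const.mul (hW z hz j)).of_le (by simp)).contDiffWithinAt
  · funext j
    have := (det_re_pos (hg.2.1 z hz)).ne'
    rw [smul_smul, mul_div_cancel₀ _ this]; rfl
  · have hp := det_re_pos (hg.2.1 z hz)
    have hd : ∀ j, DifferentiableAt ℝ (fun w => WW g (ld g) w j) z := fun j =>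
      (hW z hz j).differentiableAt (by simp)
    have e : divg (fun z j => ((-β / 2 : ℝ) : ℂ) * WW g (ld g) z j) z =
        -β / 2 * divg (WW g (ld g)) z := by
      rw [divg_eq fun j => (hd j).const_mul _, divg_eq hd]
      simp only [dz_const_mul (hd _), ← Finset.mul_sum, Complex.re_ofReal_mul]
      ring
    rw [e, normSq_smul,
      normSq_WW (hg.2.1 z hz) ((contDiffAt_ld hX hg hz).differentiableAt (by simp))]
    have h1 := mul_le_mul_of_nonneg_left (divg_ge hX hg hz (hR z hz)) hβ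
    have h2 := mul_le_mul_of_nonneg_left (h z hz) (mul_nonneg hβ hp.le)
    have h3 : (-β / 2 / (g z).det.re) ^ 2 * (gradSq g (ld g) z * (g z).det.re ^ 2) =
        β ^ 2 / 4 * gradSq g (ld g) z := by field_simp; ring
    rw [h3]
    nlinarith

lemma complete_of_ld (hX : IsOpen X) (hg : IsKahler X g)
    (hK : ∀ t, IsCompact {z | z ∈ X ∧ (g z).det.re ≤ t})
    (hlow : ∀ z ∈ X, ∀ v j, ‖v j‖ ^ 2 ≤ normSq g z v) {K : ℝ} (hK0 : 0 < K)
    (h : ∀ z ∈ X, ∀ v, fderiv ℝ (ld g) z v ^ 2 ≤ K ^ 2 * normSq g z v) :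
    IsCompleteMetric X g := by
  refine complete_of hX (fun j k => (hg.1 j k).continuousOn) hlow fun q _ => ?_
  refine (closure_minimal (fun z hz => ?_) (hK (Real.exp (ld g q + K))).isClosed).trans
    fun z hz => hz.1
  have key := le_rdist hX (g := g) (f := fun z => K⁻¹ * ld g z) (fun z hz =>
    ((contDiffAt_const.mul (contDiffAt_ld hX hg hz)).of_le (by simp)).contDiffWithinAt)
    (fun z hz v => by
      rw [(((contDiffAt_ld hX hg hz).differentiableAt (by simp)).hasFDerivAt.const_mul K⁻¹).fderiv]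
      simp only [_root_.smul_apply, smul_eq_mul, mul_pow, inv_pow]
      rw [inv_mul_le_iff₀ (by positivity)]
      exact h z hz v) q z
  have h1 := key.trans_lt hz.2
  rw [ENNReal.ofReal_lt_one, ← mul_sub, abs_mul, abs_of_pos (inv_pos.2 hK0),
    inv_mul_lt_iff₀ hK0, mul_one, abs_lt] at h1
  refine ⟨hz.1, (Real.log_le_iff_le_exp (det_re_pos (hg.2.1 z hz.1))).1 ?_⟩
  have := h1.2
  unfold ld at this ⊢
  linarith

/-- limit form of the upper bound -/
theorem le_of_volume (hX : IsOpen X) (hne : X.Nonempty) (hg : IsKahler X g)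
    (hR : ∀ z ∈ X, ∀ v, - normSq g z v ≤ ricci g z v)
    (hK : ∀ t, IsCompact {z | z ∈ X ∧ (g z).det.re ≤ t}) {β0 : ℝ} (hβ : 0 ≤ β0) (hβ1 : β0 < 1)
    (hI : ∀ s, 0 < s → s < 1 - β0 → IntegrableOn (fun z => (g z).det.re ^ s) X) :
    lambda0 X g ≤ β0 * n / 2 := by
  have lim : Tendsto (fun β : ℝ => β * n / 2) (𝓝[>] β0) (𝓝 (β0 * n / 2)) :=
    (Continuous.tendsto (by fun_prop) β0).mono_left nhdsWithin_le_nhds
  refine ge_of_tendsto lim ?_
  filter_upwards [Ioo_mem_nhdsGT hβ1] with β hb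
  exact lambda0_le_of_integrable hX hne hg hR hK (hβ.trans_lt hb.1)
    (hI _ (sub_pos.2 hb.2) (by linarith [hb.1]))

end Pool.Agent.P.MP_164ed8_gt.Vol
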