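import Pool.Agent.P.MP_164ed8_gt.VolC

namespace Pool.Agent.P.MP_164ed8_gt.Vol

open Set Filter Topology MeasureTheory Matrix Complex Pool.Agent.Lib.Kahler
  Pool.Agent.P.MP_164ed8_gt.Q1
open scoped ComplexOrder ContDiff

set_option linter.unusedSectionVars false

lemma integrable_equiv {E F : Type} [NormedAddCommGroup E] [NormedSpace ℝ E]
    [FiniteDimensional ℝ E] [MeasurableSpace E] [BorelSpace E] [NormedAddCommGroup F]
    [NormedSpace ℝ F] [FiniteDimensional ℝ F] [MeasurableSpace F] [BorelSpace F]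
    (μ : Measure E) [μ.IsAddHaarMeasure] (ν : Measure F) [ν.IsAddHaarMeasure] (L : E ≃L[ℝ] F)
    {f : F → ℝ} (hf : Integrable f ν) : Integrable (fun x => f (L x)) μ := by
  have h : Integrable f (μ.map L) := by
    rw [Measure.isAddLeftInvariant_eq_smul (μ.map L) ν]
    exact hf.smul_measure_nnreal
  exact (integrable_map_equiv L.toHomeomorph.toMeasurableEquiv f).1 h

lemma integrable_ball {m : ℕ} (hm : 1 ≤ m) {s : ℝ} (h0 : 0 ≤ s) (hs : s < 1) :
    Integrable fun x : Fin m → ℂ =>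
      if ∑ a, ‖x a‖ ^ 2 < 1 then (1 - ∑ a, ‖x a‖ ^ 2) ^ (-s) else 0 := by
  have : Nonempty (Fin m) := ⟨⟨0, hm⟩⟩
  let L := (PiLp.continuousLinearEquiv 2 ℝ fun _ : Fin m => ℂ).symm
  have h1 : IntegrableOn (fun y : ℝ => (1 - y) ^ (-s)) (Ioo 0 1) := by
    have := (intervalIntegral.intervalIntegrable_rpow' (a := 1) (b := 0)
      (show -1 < -s by linarith)).comp_sub_left 1
    simp only [sub_self, sub_zero] at this
    exact (intervalIntegrable_iff_integrableOn_Ioo_of_le zero_le_one).1 this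
  have h2 : IntegrableOn (fun x : PiLp 2 fun _ : Fin m => ℂ => (1 - ‖x‖ ^ 2) ^ (-s))
      (Metric.ball 0 1) (Measure.map L volume) := by
    rw [integrableOn_fun_norm_addHaar (Measure.map L volume) (f := fun y : ℝ => (1 - y ^ 2) ^ (-s))]
    refine h1.mono' (Measurable.aestronglyMeasurable (by fun_prop))
      (ae_restrict_of_forall_mem measurableSet_Ioo fun y hy => ?_)
    have p : 0 < 1 - y := sub_pos.2 hy.2
    have q : 1 - y ≤ 1 - y ^ 2 := by nlinarith [hy.1, hy.2]
    rw [smul_eq_mul, Real.norm_eq_abs, abs_of_nonneg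
      (mul_nonneg (pow_nonneg hy.1.le _) (Real.rpow_nonneg (p.le.trans q) _))]
    exact (mul_le_of_le_one_left (Real.rpow_nonneg (p.le.trans q) _)
      (pow_le_one₀ hy.1.le hy.2.le)).trans (Real.rpow_le_rpow_of_nonpos p q (neg_nonpos.2 h0))
  have h3 := integrable_equiv volume _ L ((integrable_indicator_iff measurableSet_ball).2 h2)
  refine h3.congr (Eventually.of_forall fun x => ?_)
  have e : ‖L x‖ ^ 2 = ∑ a, ‖x a‖ ^ 2 := PiLp.norm_sq_eq_of_L2 _ _
  simp only [indicator, mem_ball_zero_iff, ← e, sq_lt_one_iff₀ (norm_nonneg _)]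

variable {n m : ℕ} {ι : Type} [Fintype ι] [DecidableEq ι] (e : ι × Fin m ≃ Fin n)

/-- block of a coordinate -/
def blk (j : Fin n) : ι := (e.symm j).1

/-- defining function of the i-th ball -/
noncomputable def rh (i : ι) (z : Fin n → ℂ) : ℝ := 1 - ∑ a, ‖z (e (i, a))‖ ^ 2

/-- product of balls -/
def XB : Set (Fin n → ℂ) := {z | ∀ i, 0 < rh e i z}

/-- Kaehler-Einstein potential -/
noncomputable def pot (z : Fin n → ℂ) : ℝ := -(m + 1 : ℝ) * ∑ i, Real.log (rh e i z)

lemma sum_blk {M : Type} [AddCommMonoid M] (i : ι) (f : Fin n → M) :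
    ∑ j, (if blk e j = i then f j else 0) = ∑ a, f (e (i, a)) := by
  rw [← e.sum_comp, Fintype.sum_prod_type, Finset.sum_eq_single i]
  · simp [blk]
  · intro b _ hb; simp [blk, hb]
  · simp

lemma contDiff_rh (i : ι) : ContDiff ℝ ∞ (rh e i) := by
  refine contDiff_const.sub (ContDiff.sum fun a _ => ?_)
  exact (contDiff_apply ℝ ℂ (e (i, a))).norm_sq ℂ

lemma rh_le (i : ι) (z : Fin n → ℂ) : rh e i z ≤ 1 :=
  sub_le_self _ (Finset.sum_nonneg fun _ _ => sq_nonneg _)

lemma isOpen_XB : IsOpen (XB e) := by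
  have : XB e = ⋂ i, {z | 0 < rh e i z} := by ext; simp [XB]
  rw [this]
  exact isOpen_iInter_of_finite fun i => isOpen_lt continuous_const (contDiff_rh e i).continuous

lemma zero_mem : (0 : Fin n → ℂ) ∈ XB e := fun i => by simp [rh]

lemma dz_rh (i : ι) (z : Fin n → ℂ) (j : Fin n) : dz j (fun w => (rh e i w : ℂ)) z =
    -(if blk e j = i then (starRingEnd ℂ) (z j) else 0) := by
  have : (fun w => (rh e i w : ℂ)) =
      fun w => 1 - ∑ l, if blk e l = i then (starRingEnd ℂ) (w l) * w l else 0 := by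
    funext w
    rw [sum_blk e i fun l => (starRingEnd ℂ) (w l) * w l]
    simp [rh, conj_mul']
  have hd : ∀ l, DifferentiableAt ℝ
      (fun w : Fin n → ℂ => if blk e l = i then (starRingEnd ℂ) (w l) * w l else 0) z := by
    intro l
    split_ifs
    · exact (diff_conj_coord z l).differentiableAt.fun_mul (differentiableAt_apply l z)
    · exact differentiableAt_const _
  rw [this, dz_sub (differentiableAt_const _) (DifferentiableAt.fun_sum fun l _ => hd l), dz_const,
    dz_sum _ fun l _ => hd l, zero_sub, Finset.sum_eq_single j]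
  · split_ifs
    · rw [dz_mul (diff_conj_coord z j).differentiableAt (differentiableAt_apply j z), dz_conj_coord,
        dz_coord]; simp
    · rw [dz_const]
  · intro l _ hl
    split_ifs
    · rw [dz_mul (diff_conj_coord z l).differentiableAt (differentiableAt_apply l z), dz_conj_coord,
        dz_coord]; simp [hl.symm]
    · rw [dz_const]
  · simp

variable {e} {z : Fin n → ℂ}

lemma contDiffAt_pot (hz : z ∈ XB e) : ContDiffAt ℝ ∞ (pot e) z :=
  contDiffAt_const.mul (ContDiffAt.sum fun i _ => (contDiff_rh e i).contDiffAt.log (hz i).ne')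

lemma dz_pot (hz : z ∈ XB e) (j : Fin n) : dz j (fun w => (pot e w : ℂ)) z =
    (m + 1 : ℂ) * ((starRingEnd ℂ) (z j) * ((rh e (blk e j) z)⁻¹ : ℝ)) := by
  have hd : ∀ i, DifferentiableAt ℝ (fun w => (Real.log (rh e i w) : ℂ)) z := fun i =>
    (contDiffAt_ofReal ((contDiff_rh e i).contDiffAt.log (hz i).ne')).differentiableAt (by simp)
  have : (fun w => (pot e w : ℂ)) = fun w => -(m + 1 : ℂ) * ∑ i, (Real.log (rh e i w) : ℂ) := by
    funext w; simp [pot]
  rw [this, dz_const_mul (DifferentiableAt.fun_sum fun i _ => hd i), dz_sum _ fun i _ => hd i]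
  simp only [fun i => dz_comp_real ((contDiff_rh e i).differentiable (by simp) z)
    (Real.hasDerivAt_log (hz i).ne') j, dz_rh, mul_neg, mul_ite, mul_zero, Finset.sum_neg_distrib,
    Finset.sum_ite_eq, Finset.mem_univ, if_true]
  ring

lemma hess_pot (hz : z ∈ XB e) (j l : Fin n) : hess (pot e) z j l =
    2 * (m + 1 : ℂ) * ((rh e (blk e j) z)⁻¹ : ℝ) * ((if j = l then 1 else 0) +
      if blk e j = blk e l then (starRingEnd ℂ) (z j) * ((rh e (blk e j) z)⁻¹ : ℝ) * z l else 0) := by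
  have e1 : (dzbar l fun w => (pot e w : ℂ)) =ᶠ[𝓝 z]
      fun w => (m + 1 : ℂ) * (w l * ((rh e (blk e l) w)⁻¹ : ℝ)) := by
    filter_upwards [(isOpen_XB e).mem_nhds hz] with w hw
    rw [dzbar_eq_conj ((contDiffAt_pot hw).differentiableAt (by simp)), dz_pot hw]
    simp
  have hd : DifferentiableAt ℝ (fun w => (((rh e (blk e l) w)⁻¹ : ℝ) : ℂ)) z :=
    (contDiffAt_ofReal ((contDiff_rh e _).contDiffAt.inv (hz _).ne')).differentiableAt (by simp)
  rw [hess, of_apply, dz_congr e1, dz_const_mul ((differentiableAt_apply l z).fun_mul hd),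
    dz_mul (differentiableAt_apply l z) hd, dz_coord,
    dz_comp_real ((contDiff_rh e _).differentiable (by simp) z) (hasDerivAt_inv (hz _).ne'), dz_rh]
  by_cases h : blk e j = blk e l
  · simp only [h, if_true]; push_cast; ring
  · have : j ≠ l := fun h' => h (h' ▸ rfl)
    simp [h, this]

lemma normSq_pot (hz : z ∈ XB e) (v : Fin n → ℂ) : normSq (hess (pot e)) z v =
    2 * (m + 1 : ℝ) * (∑ j, (rh e (blk e j) z)⁻¹ * ‖v j‖ ^ 2 + ∑ i, ‖∑ j, if blk e j = i then
      (starRingEnd ℂ) (z j) * ((rh e (blk e j) z)⁻¹ : ℝ) * v j else 0‖ ^ 2) := by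
  rw [Lib.Kahler.normSq, ← ofReal_re (2 * (m + 1 : ℝ) * _)]
  congr 1
  simp only [ofReal_mul, ofReal_add, ofReal_sum, ofReal_pow, ← mul_conj', map_sum,
    Finset.sum_mul_sum, hess_pot hz]
  rw [Finset.sum_comm (s := (Finset.univ : Finset ι)) (t := (Finset.univ : Finset (Fin n))),
    ← Finset.sum_add_distrib, Finset.mul_sum]
  refine Finset.sum_congr (M := ℂ) rfl fun j _ => ?_
  rw [Finset.sum_comm (s := (Finset.univ : Finset ι)) (t := (Finset.univ : Finset (Fin n)))]
  simp only [mul_add, add_mul, Finset.sum_add_distrib, mul_ite, ite_mul, mul_zero, zero_mul,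
    Finset.sum_ite_eq, Finset.mem_univ, if_true, Finset.mul_sum]
  congr 1
  · push_cast; ring
  · rw [← Finset.sum_add_distrib]
    refine Finset.sum_congr rfl fun l _ => ?_
    by_cases h : blk e j = blk e l
    · simp only [h, if_true, map_mul, conj_conj, conj_ofReal]; push_cast; ring
    · simp [h, Ne.symm h]

lemma le_normSq_pot (hz : z ∈ XB e) (v : Fin n → ℂ) (j : Fin n) :
    ‖v j‖ ^ 2 ≤ normSq (hess (pot e)) z v := by
  rw [normSq_pot hz]
  have h1 : ‖v j‖ ^ 2 ≤ ∑ j, (rh e (blk e j) z)⁻¹ * ‖v j‖ ^ 2 :=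
    (le_mul_of_one_le_left (sq_nonneg _) ((one_le_inv₀ (hz _)).2 (rh_le e _ z))).trans
      (Finset.single_le_sum (f := fun j => (rh e (blk e j) z)⁻¹ * ‖v j‖ ^ 2)
        (fun j _ => mul_nonneg (inv_pos.2 (hz _)).le (sq_nonneg _)) (Finset.mem_univ j))
  have h2 : (0 : ℝ) ≤ m := Nat.cast_nonneg m
  refine (h1.trans (le_add_of_nonneg_right (Finset.sum_nonneg fun _ _ => sq_nonneg _))).trans
    (le_mul_of_one_le_left ?_ (by linarith))
  exact add_nonneg ((sq_nonneg _).trans h1) (Finset.sum_nonneg fun _ _ => sq_nonneg _)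

lemma isKahler_pot : IsKahler (XB e) (hess (pot e)) := by
  refine ⟨fun j k z hz => (contDiffAt_hess (contDiffAt_pot hz) j k).contDiffWithinAt,
    fun z hz => posDef_of (hess_herm (contDiffAt_pot hz)) fun v hv => ?_,
    fun z hz j k l => hess_closed (contDiffAt_pot hz) j k l⟩
  obtain ⟨j, hj⟩ := Function.ne_iff.1 hv
  exact (pow_pos (norm_pos_iff.2 hj) 2).trans_le (le_normSq_pot hz v j)

lemma fderiv_pot_sq (hz : z ∈ XB e) (v : Fin n → ℂ) :
    fderiv ℝ (pot e) z v ^ 2 ≤ 2 * (m + 1 : ℝ) * Fintype.card ι * normSq (hess (pot e)) z v := by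
  set S : ι → ℂ := fun i => ∑ j, if blk e j = i then
    (starRingEnd ℂ) (z j) * ((rh e (blk e j) z)⁻¹ : ℝ) * v j else 0 with hS
  have e1 : fderiv ℝ (pot e) z v = 2 * (m + 1 : ℝ) * ∑ i, (S i).re := by
    rw [fderiv_eq_dz ((contDiffAt_pot hz).differentiableAt (by simp)), ← re_sum, mul_assoc,
      ← re_ofReal_mul (m + 1 : ℝ), hS, Finset.sum_comm]
    congr 2
    simp only [dz_pot hz, Finset.sum_ite_eq, Finset.mem_univ, if_true, Finset.mul_sum]
    exact Finset.sum_congr rfl fun j _ => by push_cast; ring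
  have h1 : (∑ i, (S i).re) ^ 2 ≤ Fintype.card ι * ∑ i, ‖S i‖ ^ 2 :=
    sq_sum_le_card_mul_sum_sq.trans (mul_le_mul_of_nonneg_left (Finset.sum_le_sum fun i _ => by
      rw [← sq_abs]; exact pow_le_pow_left₀ (abs_nonneg _) (abs_re_le_norm _) 2) (by positivity))
  have h2 : 0 ≤ ∑ j, (rh e (blk e j) z)⁻¹ * ‖v j‖ ^ 2 :=
    Finset.sum_nonneg fun j _ => mul_nonneg (inv_pos.2 (hz _)).le (sq_nonneg _)
  rw [e1, normSq_pot hz, mul_pow]
  calc _ ≤ (2 * (m + 1 : ℝ)) ^ 2 * (Fintype.card ι *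
        (∑ j, (rh e (blk e j) z)⁻¹ * ‖v j‖ ^ 2 + ∑ i, ‖S i‖ ^ 2)) := by
        gcongr; exact h1.trans (by gcongr; linarith)
    _ = _ := by ring

lemma det_pot (hz : z ∈ XB e) : (hess (pot e) z).det.re =
    (2 * (m + 1 : ℝ)) ^ n * ∏ i, (rh e i z)⁻¹ ^ (m + 1) := by
  let U : Matrix (Fin n) ι ℂ := of fun j i =>
    if blk e j = i then (starRingEnd ℂ) (z j) * ((rh e i z)⁻¹ : ℝ) else 0
  let V : Matrix ι (Fin n) ℂ := of fun i l => if blk e l = i then z l else 0
  have e1 : hess (pot e) z =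
      diagonal (fun j => 2 * (m + 1 : ℂ) * ((rh e (blk e j) z)⁻¹ : ℝ)) * (1 + U * V) := by
    ext j l
    rw [hess_pot hz, diagonal_mul, Matrix.add_apply, one_apply, mul_apply]
    simp only [U, V, of_apply, ite_mul, zero_mul, Finset.sum_ite_eq, Finset.mem_univ, if_true]
    simp only [mul_ite, mul_zero, eq_comm (a := blk e l)]
  have e2 : 1 + V * U = diagonal fun i => (((rh e i z)⁻¹ : ℝ) : ℂ) := by
    ext i i'
    rw [Matrix.add_apply, mul_apply]
    simp only [U, V, of_apply, ite_mul, zero_mul, mul_ite, mul_zero]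
    by_cases h : i = i'
    · subst h
      have h1 : ∀ j, (if blk e j = i then if blk e j = i then
          z j * ((starRingEnd ℂ) (z j) * ((rh e i z)⁻¹ : ℝ)) else 0 else 0) =
          if blk e j = i then ((‖z j‖ ^ 2 * (rh e i z)⁻¹ : ℝ) : ℂ) else (0 : ℂ) := fun j => by
        split_ifs
        · rw [← mul_assoc, mul_conj']; push_cast; ring
        · rfl
      simp only [h1]
      rw [sum_blk e i fun j => ((‖z j‖ ^ 2 * (rh e i z)⁻¹ : ℝ) : ℂ), ← ofReal_sum,
        ← Finset.sum_mul, one_apply_eq, diagonal_apply_eq, ← ofReal_one, ← ofReal_add]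
      congr 1
      have := (hz i).ne'
      rw [show ∑ a, ‖z (e (i, a))‖ ^ 2 = 1 - rh e i z by simp [rh]]
      field_simp; ring
    · rw [one_apply_ne h, diagonal_apply_ne _ h, zero_add]
      refine Finset.sum_eq_zero fun j _ => ?_
      split_ifs with h1 h2
      · exact absurd (h2.symm.trans h1) h
      · rfl
      · rfl
  rw [e1, det_mul, det_one_add_mul_comm, e2, det_diagonal, det_diagonal, Finset.prod_mul_distrib,
    ← e.prod_comp, ← e.prod_comp, Fintype.prod_prod_type (f := fun x => (((rh e (blk e (e x)) z)⁻¹ : ℝ) : ℂ)),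
    ← ofReal_re (_ * ∏ i, _)]
  congr 1
  have hn : Fintype.card (ι × Fin m) = n := by simpa using Fintype.card_congr e
  simp only [blk, Equiv.symm_apply_apply, Finset.prod_const, Finset.card_univ, hn,
    Fintype.card_fin, pow_succ, Finset.prod_mul_distrib]
  push_cast
  ring

end Pool.Agent.P.MP_164ed8_gt.Vol
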