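import Pool.Agent.P.MP_164ed8_gt.VolD

namespace Pool.Agent.P.MP_164ed8_gt.Vol

open Set Filter Topology MeasureTheory Matrix Complex Pool.Agent.Lib.Kahler
  Pool.Agent.P.MP_164ed8_gt.Q1
open scoped ComplexOrder ContDiff

set_option linter.unusedSectionVars false

variable {n m : ℕ} {ι : Type} [Fintype ι] [DecidableEq ι] {e : ι × Fin m ≃ Fin n}
  {z : Fin n → ℂ}

lemma ld_pot (hz : z ∈ XB e) : ld (hess (pot e)) =ᶠ[𝓝 z]
    fun w => n * Real.log (2 * (m + 1 : ℝ)) + pot e w := by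
  filter_upwards [(isOpen_XB e).mem_nhds hz] with w hw
  rw [ld, det_pot hw, Real.log_mul (by positivity)
    (Finset.prod_ne_zero_iff.2 fun i _ => pow_ne_zero _ (inv_ne_zero (hw i).ne')),
    Real.log_prod fun i _ => pow_ne_zero _ (inv_ne_zero (hw i).ne'), Real.log_pow, pot]
  simp only [Real.log_pow, Real.log_inv, mul_neg, Finset.sum_neg_distrib, ← Finset.mul_sum]
  push_cast; ring

lemma einstein_pot (hz : z ∈ XB e) (v : Fin n → ℂ) :
    ricci (hess (pot e)) z v = - normSq (hess (pot e)) z v := by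
  have h : hess (ld (hess (pot e))) z = hess (pot e) z := by
    rw [hess_congr (ld_pot hz)]
    ext j k
    simp only [hess, of_apply, ofReal_add]
    congr 2
    funext w
    simp only [dzbar, fderiv_const_add]
  rw [ricci_eq]
  exact congrArg (fun G : Matrix (Fin n) (Fin n) ℂ =>
    -(∑ j, ∑ k, G j k * v j * (starRingEnd ℂ) (v k)).re) h

lemma fderiv_ld_sq (hz : z ∈ XB e) (v : Fin n → ℂ) : fderiv ℝ (ld (hess (pot e))) z v ^ 2 ≤
    2 * (m + 1 : ℝ) * Fintype.card ι * normSq (hess (pot e)) z v := by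
  rw [(ld_pot hz).fderiv_eq, fderiv_const_add]
  exact fderiv_pot_sq hz v

lemma inv_rh_le (hz : z ∈ XB e) (i : ι) : (rh e i z)⁻¹ ≤ (hess (pot e) z).det.re := by
  have h1 : ∀ i, 1 ≤ (rh e i z)⁻¹ := fun i => (one_le_inv₀ (hz i)).2 (rh_le e i z)
  have h2 : (0 : ℝ) ≤ m := Nat.cast_nonneg m
  rw [det_pot hz]
  calc (rh e i z)⁻¹ ≤ (rh e i z)⁻¹ ^ (m + 1) := le_self_pow₀ (h1 i) (Nat.succ_ne_zero m)
    _ ≤ ∏ i, (rh e i z)⁻¹ ^ (m + 1) := by
      rw [← Finset.mul_prod_erase _ _ (Finset.mem_univ i)]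
      exact le_mul_of_one_le_right (pow_nonneg (zero_le_one.trans (h1 i)) _)
        (Finset.one_le_prod fun j _ => one_le_pow₀ (h1 j))
    _ ≤ _ := le_mul_of_one_le_left
      (Finset.prod_nonneg fun j _ => pow_nonneg (zero_le_one.trans (h1 j)) _)
      (one_le_pow₀ (by linarith))

lemma proper_pot (t : ℝ) : IsCompact {z | z ∈ XB e ∧ (hess (pot e) z).det.re ≤ t} := by
  have ht : 0 < |t| + 1 := by positivity
  let K : Set (Fin n → ℂ) := ⋂ i, {z | (|t| + 1)⁻¹ ≤ rh e i z}
  have hKX : K ⊆ XB e := fun z hz i => (inv_pos.2 ht).trans_le (mem_iInter.1 hz i)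
  have hK : IsCompact K := by
    refine (isCompact_closedBall (0 : Fin n → ℂ) 1).of_isClosed_subset (isClosed_iInter fun i =>
      isClosed_le continuous_const (contDiff_rh e i).continuous) fun z hz => ?_
    rw [mem_closedBall_zero_iff, pi_norm_le_iff_of_nonneg zero_le_one]
    intro j
    have h1 := hKX hz (e.symm j).1
    have h2 := Finset.single_le_sum (f := fun a => ‖z (e ((e.symm j).1, a))‖ ^ 2)
      (fun _ _ => sq_nonneg _) (Finset.mem_univ (e.symm j).2)
    simp only [Prod.mk.eta, Equiv.apply_symm_apply] at h2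
    rw [rh] at h1
    exact (sq_le_one_iff₀ (norm_nonneg _)).1 (by linarith)
  have hc := contOn_det fun j k => ((isKahler_pot (e := e)).1 j k).continuousOn
  have : {z | z ∈ XB e ∧ (hess (pot e) z).det.re ≤ t} =
      K ∩ (fun z => (hess (pot e) z).det.re) ⁻¹' Iic t := by
    ext z
    refine ⟨fun h => ⟨mem_iInter.2 fun i => ?_, h.2⟩, fun h => ⟨hKX h.1, h.2⟩⟩
    exact inv_le_of_inv_le₀ (h.1 i)
      ((inv_rh_le h.1 i).trans (h.2.trans ((le_abs_self t).trans (by linarith))))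
  rw [this]
  exact hK.of_isClosed_subset ((hc.mono hKX).preimage_isClosed_of_isClosed hK.isClosed
    isClosed_Iic) inter_subset_left

lemma integrable_pot (hm : 1 ≤ m) {s : ℝ} (h0 : 0 ≤ s) (hs : (m + 1) * s < 1) :
    IntegrableOn (fun z => (hess (pot e) z).det.re ^ s) (XB e) := by
  let L : (Fin n → ℂ) ≃L[ℝ] ι → Fin m → ℂ :=
    ((LinearEquiv.funCongrLeft ℝ ℂ e).trans
      (LinearEquiv.curry ℝ ℂ ι (Fin m))).toContinuousLinearEquiv
  have h1 := Integrable.fintype_prod (μ := fun _ : ι => (volume : Measure (Fin m → ℂ)))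
    fun _ => integrable_ball hm (s := (m + 1) * s) (by positivity) hs
  have : (Measure.pi fun _ : ι => (volume : Measure (Fin m → ℂ))).IsAddHaarMeasure :=
    Measure.pi.isAddHaarMeasure _
  have h2 := (integrable_equiv volume _ L h1).const_mul (((2 * (m + 1 : ℝ)) ^ n) ^ s)
  refine h2.integrableOn.congr_fun (fun z hz => ?_) (isOpen_XB e).measurableSet
  have hL : ∀ i a, L z i a = z (e (i, a)) := fun _ _ => rfl
  have hp : ∀ i, 0 ≤ (rh e i z)⁻¹ ^ (m + 1) := fun i => pow_nonneg (inv_pos.2 (hz i)).le _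
  simp only [hL]
  rw [det_pot hz, Real.mul_rpow (by positivity) (Finset.prod_nonneg fun i _ => hp i),
    ← Real.finsetProd_rpow _ _ fun i _ => hp i]
  congr 1
  refine Finset.prod_congr rfl fun i _ => ?_
  rw [if_pos (sub_pos.1 (hz i)), ← Real.rpow_natCast, ← Real.rpow_mul (inv_pos.2 (hz i)).le,
    Real.inv_rpow (hz i).le, ← Real.rpow_neg (hz i).le]
  push_cast; rfl

lemma complete_pot [Nonempty ι] : IsCompleteMetric (XB e) (hess (pot e)) := by
  have h : 0 < 2 * (m + 1 : ℝ) * Fintype.card ι := by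
    have := Fintype.card_pos (α := ι)
    positivity
  refine complete_of_ld (isOpen_XB e) isKahler_pot proper_pot (fun z hz => le_normSq_pot hz)
    (Real.sqrt_pos.2 h) fun z hz v => ?_
  rw [Real.sq_sqrt h.le]
  exact fderiv_ld_sq hz v

lemma lower_pot : (m / (m + 1) : ℝ) * n / 2 ≤ lambda0 (XB e) (hess (pot e)) := by
  refine barta (isOpen_XB e) ⟨0, zero_mem e⟩ isKahler_pot (fun z hz v => (einstein_pot hz v).le)
    (by positivity) fun z hz => ?_
  have h := gradSq_le (isKahler_pot.2.1 z hz)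
    ((contDiffAt_ld (isOpen_XB e) isKahler_pot hz).differentiableAt (by simp)) (by positivity)
    (fderiv_ld_sq hz)
  have hn : (n : ℝ) = Fintype.card ι * m := by
    have := Fintype.card_congr e
    simp only [Fintype.card_prod, Fintype.card_fin] at this
    exact_mod_cast this.symm
  refine (mul_le_mul_of_nonneg_left h (by positivity)).trans_eq ?_
  rw [hn]; field_simp

theorem upper_pot {g : (Fin n → ℂ) → Matrix (Fin n) (Fin n) ℂ}
    (hg : IsKahler (XB e) g) (hR : ∀ z ∈ XB e, ∀ v, - normSq g z v ≤ ricci g z v)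
    (hK : ∀ t, IsCompact {z | z ∈ XB e ∧ (g z).det.re ≤ t})
    (hI : ∀ s : ℝ, 0 < s → (m + 1) * s < 1 → IntegrableOn (fun z => (g z).det.re ^ s) (XB e)) :
    lambda0 (XB e) g ≤ (m / (m + 1) : ℝ) * n / 2 := by
  have hp : (0 : ℝ) < m + 1 := by positivity
  refine le_of_volume (isOpen_XB e) ⟨0, zero_mem e⟩ hg hR hK (by positivity)
    ((div_lt_one hp).2 (by linarith)) fun s h0 hs => hI s h0 ?_
  rw [one_sub_div hp.ne', lt_div_iff₀' hp] at hs
  linarith

end Pool.Agent.P.MP_164ed8_gt.Vol
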